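import Mathlib

/-!
# Monochromatic triangle tilings: basic definitions and small cliques
-/

set_option autoImplicit false

namespace Pool.Agent.Helper4MT

open Finset

open scoped Classical

universe u

variable {V : Type u}

/-- `T` is a triangle of `G` all of whose edges have the same colour. -/
def MonoTriangle (G : SimpleGraph V) (c : Sym2 V → Bool) (T : Finset V) : Prop :=
  G.IsNClique 3 T ∧ ∃ b : Bool, ∀ x ∈ T, ∀ y ∈ T, x ≠ y → c s(x, y) = b

/-- there are (at least) `m` pairwise disjoint monochromatic triangles inside `S` -/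
def Til (G : SimpleGraph V) (c : Sym2 V → Bool) (S : Finset V) (m : ℕ) : Prop :=
  ∃ 𝒯 : Finset (Finset V), (∀ T ∈ 𝒯, MonoTriangle G c T ∧ T ⊆ S) ∧
    (𝒯 : Set (Finset V)).PairwiseDisjoint id ∧ m ≤ 𝒯.card

variable {G : SimpleGraph V} {c : Sym2 V → Bool}

lemma Til.mono {S S' : Finset V} {m m' : ℕ} (h : Til G c S m) (hS : S ⊆ S') (hm : m' ≤ m) :
    Til G c S' m' := by
  obtain ⟨𝒯, h1, h2, h3⟩ := h
  exact ⟨𝒯, fun T hT => ⟨(h1 T hT).1, (h1 T hT).2.trans hS⟩, h2, hm.trans h3⟩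

lemma til_zero (S : Finset V) : Til G c S 0 := ⟨∅, by simp, by simp, by simp⟩

lemma MonoTriangle.nonempty {T : Finset V} (h : MonoTriangle G c T) : T.Nonempty := by
  rw [← card_pos, h.1.card_eq]
  norm_num

lemma Til.union {S S' : Finset V} {m m' : ℕ} (h : Til G c S m) (h' : Til G c S' m')
    (hd : Disjoint S S') : Til G c (S ∪ S') (m + m') := by
  obtain ⟨𝒯, h1, h2, h3⟩ := h
  obtain ⟨𝒯', h1', h2', h3'⟩ := h'
  have hdis : Disjoint 𝒯 𝒯' := by
    rw [disjoint_left]
    intro T hT hT'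
    obtain ⟨x, hx⟩ := (h1 T hT).1.nonempty
    exact (disjoint_left.1 hd) ((h1 T hT).2 hx) ((h1' T hT').2 hx)
  refine ⟨𝒯 ∪ 𝒯', ?_, ?_, ?_⟩
  · intro T hT
    rcases mem_union.1 hT with h | h
    · exact ⟨(h1 T h).1, (h1 T h).2.trans subset_union_left⟩
    · exact ⟨(h1' T h).1, (h1' T h).2.trans subset_union_right⟩
  · intro A hA B hB hAB
    rcases mem_union.1 (mem_coe.1 hA) with ha | ha <;>
      rcases mem_union.1 (mem_coe.1 hB) with hb | hb
    · exact h2 ha hb hAB
    · exact Disjoint.mono (h1 A ha).2 (h1' B hb).2 hd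
    · exact Disjoint.mono (h1' A ha).2 (h1 B hb).2 hd.symm
    · exact h2' ha hb hAB
  · rw [card_union_of_disjoint hdis]
    omega

lemma til_one_of {S T : Finset V} (h : MonoTriangle G c T) (hT : T ⊆ S) : Til G c S 1 :=
  ⟨{T}, by simpa using ⟨h, hT⟩, by simp, by simp⟩

lemma til_two_of {S T T' : Finset V} (h : MonoTriangle G c T) (hT : T ⊆ S)
    (h' : MonoTriangle G c T') (hT' : T' ⊆ S) (hd : Disjoint T T') : Til G c S 2 :=
  ((til_one_of h (Subset.refl _)).union (til_one_of h' (Subset.refl _)) hd).mono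
    (union_subset hT hT') le_rfl

/-- three vertices with the same colour on the three pairs -/
def M3 (c : Sym2 V → Bool) (a b d : V) : Prop := c s(a, b) = c s(a, d) ∧ c s(a, b) = c s(b, d)

lemma monoTriangle_of {a b d : V} (hab : G.Adj a b) (had : G.Adj a d) (hbd : G.Adj b d)
    (hm : M3 c a b d) : MonoTriangle G c {a, b, d} := by
  refine ⟨SimpleGraph.is3Clique_triple_iff.2 ⟨hab, had, hbd⟩, c s(a, b), ?_⟩
  intro x hx y hy hxy
  simp only [mem_insert, mem_singleton] at hx hy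
  obtain ⟨h1, h2⟩ := hm
  rcases hx with rfl | rfl | rfl <;> rcases hy with rfl | rfl | rfl
  · exact absurd rfl hxy
  · rfl
  · exact h1.symm
  · rw [Sym2.eq_swap]
  · exact absurd rfl hxy
  · exact h2.symm
  · rw [Sym2.eq_swap]; exact h1.symm
  · rw [Sym2.eq_swap]; exact h2.symm
  · exact absurd rfl hxy

lemma bool6 : ∀ a b d e f : Bool, ((a = b ∧ a = d) ∨ (a = b ∧ a = e) ∨ (a = b ∧ a = f) ∨
    (a = d ∧ a = e) ∨ (a = d ∧ a = f) ∨ (a = e ∧ a = f) ∨ (b = d ∧ b = e) ∨ (b = d ∧ b = f) ∨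
    (b = e ∧ b = f) ∨ (d = e ∧ d = f)) := by decide

/-- among four vertices all joined to `v` by colour `x`... a clique on six vertices contains a
monochromatic triangle -/
lemma six_aux {v a b d : V} (hva : G.Adj v a) (hvb : G.Adj v b) (hvd : G.Adj v d)
    (hab : G.Adj a b) (had : G.Adj a d) (hbd : G.Adj b d) (h1 : c s(v, a) = c s(v, b))
    (h2 : c s(v, a) = c s(v, d)) {S : Finset V} (hv : v ∈ S) (ha : a ∈ S) (hb : b ∈ S)
    (hd : d ∈ S) : ∃ T, MonoTriangle G c T ∧ T ⊆ S := by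
  by_cases k1 : c s(a, b) = c s(v, a)
  · exact ⟨{v, a, b}, monoTriangle_of hva hvb hab ⟨h1, k1.symm⟩, by
      simp [insert_subset_iff, hv, ha, hb]⟩
  by_cases k2 : c s(a, d) = c s(v, a)
  · exact ⟨{v, a, d}, monoTriangle_of hva hvd had ⟨h2, k2.symm⟩, by
      simp [insert_subset_iff, hv, ha, hd]⟩
  by_cases k3 : c s(b, d) = c s(v, a)
  · exact ⟨{v, b, d}, monoTriangle_of hvb hvd hbd ⟨h1.symm.trans h2, h1.symm.trans k3.symm⟩, by
      simp [insert_subset_iff, hv, hb, hd]⟩
  refine ⟨{a, b, d}, monoTriangle_of hab had hbd ⟨?_, ?_⟩, by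
      simp [insert_subset_iff, ha, hb, hd]⟩
  · revert k1 k2
    generalize c s(a, b) = x, c s(a, d) = y, c s(v, a) = z
    revert x y z
    decide
  · revert k1 k3
    generalize c s(a, b) = x, c s(b, d) = y, c s(v, a) = z
    revert x y z
    decide

lemma exists_mono_of_six {S : Finset V} (hS : G.IsClique (S : Set V)) (hc : 6 ≤ S.card) :
    ∃ T, MonoTriangle G c T ∧ T ⊆ S := by
  obtain ⟨S', hS', hc'⟩ := exists_subset_card_eq hc
  have hne : S'.Nonempty := by rw [← card_pos]; omega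
  obtain ⟨v, hv⟩ := hne
  have h5 : (S'.erase v).card = 5 := by rw [card_erase_of_mem hv]; omega
  obtain ⟨l, hl, hnd⟩ : ∃ l : List V, l.toFinset = S'.erase v ∧ l.Nodup :=
    ⟨(S'.erase v).toList, by simp, nodup_toList _⟩
  have hlen : l.length = 5 := by
    rw [← List.toFinset_card_of_nodup hnd, hl, h5]
  match l, hlen with
  | [a, b, d, e, f], _ =>
    have hmem : ∀ x ∈ [a, b, d, e, f], x ∈ S ∧ x ≠ v := by
      intro x hx
      have : x ∈ S'.erase v := by rw [← hl]; exact List.mem_toFinset.2 hx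
      exact ⟨hS' (mem_of_mem_erase this), (mem_erase.1 this).1⟩
    have hvS := hS' hv
    have hadjv : ∀ x ∈ [a, b, d, e, f], G.Adj v x := fun x hx =>
      hS (mem_coe.2 hvS) (mem_coe.2 (hmem x hx).1) (hmem x hx).2.symm
    have hadj : ∀ x ∈ [a, b, d, e, f], ∀ y ∈ [a, b, d, e, f], x ≠ y → G.Adj x y :=
      fun x hx y hy hxy => hS (mem_coe.2 (hmem x hx).1) (mem_coe.2 (hmem y hy).1) hxy
    have hnd' := hnd
    simp only [List.nodup_cons, List.mem_cons, List.not_mem_nil, or_false, not_or,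
      List.nodup_nil, and_true, not_false_eq_true] at hnd'
    obtain ⟨⟨n1, n2, n3, n4⟩, ⟨n5, n6, n7⟩, ⟨n8, n9⟩, n10⟩ := hnd'
    have key : ∀ x ∈ [a, b, d, e, f], ∀ y ∈ [a, b, d, e, f], ∀ z ∈ [a, b, d, e, f],
        x ≠ y → x ≠ z → y ≠ z → c s(v, x) = c s(v, y) → c s(v, x) = c s(v, z) →
        ∃ T, MonoTriangle G c T ∧ T ⊆ S := by
      intro x hx y hy z hz hxy hxz hyz h1 h2
      exact six_aux (hadjv x hx) (hadjv y hy) (hadjv z hz) (hadj x hx y hy hxy)
        (hadj x hx z hz hxz) (hadj y hy z hz hyz) h1 h2 hvS (hmem x hx).1 (hmem y hy).1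
        (hmem z hz).1
    rcases bool6 (c s(v, a)) (c s(v, b)) (c s(v, d)) (c s(v, e)) (c s(v, f)) with
      h | h | h | h | h | h | h | h | h | h
    · exact key a (by simp) b (by simp) d (by simp) n1 n2 n5 h.1 h.2
    · exact key a (by simp) b (by simp) e (by simp) n1 n3 n6 h.1 h.2
    · exact key a (by simp) b (by simp) f (by simp) n1 n4 n7 h.1 h.2
    · exact key a (by simp) d (by simp) e (by simp) n2 n3 n8 h.1 h.2
    · exact key a (by simp) d (by simp) f (by simp) n2 n4 n9 h.1 h.2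
    · exact key a (by simp) e (by simp) f (by simp) n3 n4 n10 h.1 h.2
    · exact key b (by simp) d (by simp) e (by simp) n5 n6 n8 h.1 h.2
    · exact key b (by simp) d (by simp) f (by simp) n5 n7 n9 h.1 h.2
    · exact key b (by simp) e (by simp) f (by simp) n6 n7 n10 h.1 h.2
    · exact key d (by simp) e (by simp) f (by simp) n8 n9 n10 h.1 h.2

lemma til_six {S : Finset V} (hS : G.IsClique (S : Set V)) (hc : 6 ≤ S.card) : Til G c S 1 := by
  obtain ⟨T, hT, hTS⟩ := exists_mono_of_six (c := c) hS hc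
  exact til_one_of hT hTS

end Pool.Agent.Helper4MT
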