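import Mathlib

/-!
# The Hajnal-Szemeredi theorem (exact form), following Kierstead and Kostochka

`H` is the conflict graph, `U` a finite vertex set with `U.card = C.card * c`, every vertex of `U`
has fewer than `C.card` neighbours in `U`.  Then `U` has a proper colouring with colours `C` all of
whose classes have exactly `c` elements.
-/

set_option autoImplicit false

namespace Pool.Agent.Helper4MT

open Finset

open scoped Classical

universe u

variable {V : Type u}

/-- colour class -/
noncomputable def cls (U : Finset V) (f : V → ℕ) (l : ℕ) : Finset V := U.filter (fun v => f v = l)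

/-- proper colouring on `U` -/
def Prp (H : SimpleGraph V) (U : Finset V) (f : V → ℕ) : Prop :=
  ∀ u ∈ U, ∀ v ∈ U, H.Adj u v → f u ≠ f v

/-- some vertex of class `i` can be moved to class `j` -/
def Mov (H : SimpleGraph V) (U : Finset V) (f : V → ℕ) (i j : ℕ) : Prop :=
  ∃ y ∈ U, f y = i ∧ ∀ x ∈ U, f x = j → ¬ H.Adj y x

/-- `i` reaches `i0` by a simple path of movable pairs inside `S` -/
inductive Reach (H : SimpleGraph V) (U : Finset V) (f : V → ℕ) (i0 : ℕ) : Finset ℕ → ℕ → Prop
  | base (S : Finset ℕ) (h : i0 ∈ S) : Reach H U f i0 S i0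
  | step (S : Finset ℕ) (i j : ℕ) (hi : i ∈ S) (hm : Mov H U f i j)
      (hr : Reach H U f i0 (S.erase i) j) : Reach H U f i0 S i

variable {H : SimpleGraph V} {U : Finset V} {f : V → ℕ} {i0 : ℕ}

lemma mem_cls {l : ℕ} {v : V} : v ∈ cls U f l ↔ v ∈ U ∧ f v = l := by
  simp [cls]

lemma Reach.mem {S : Finset ℕ} {i : ℕ} (h : Reach H U f i0 S i) : i ∈ S := by
  cases h with
  | base _ h => exact h
  | step _ _ _ hi _ _ => exact hi

lemma Reach.mem0 {S : Finset ℕ} {i : ℕ} (h : Reach H U f i0 S i) : i0 ∈ S := by
  induction h with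
  | base _ h => exact h
  | step S i j hi hm hr ih => exact mem_of_mem_erase ih

lemma Reach.mono {S S' : Finset ℕ} {i : ℕ} (h : Reach H U f i0 S i) (hS : S ⊆ S') :
    Reach H U f i0 S' i := by
  induction h generalizing S' with
  | base _ h => exact Reach.base _ (hS h)
  | step S i j hi hm hr ih =>
      exact Reach.step _ _ _ (hS hi) hm (ih (erase_subset_erase _ hS))

lemma Reach.avoid {S : Finset ℕ} {j : ℕ} (h : Reach H U f i0 S j) :
    ∀ i, Reach H U f i0 (S.erase i) j ∨ Reach H U f i0 S i := by
  induction h with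
  | base S h =>
      intro i
      by_cases hi : i = i0
      · subst hi
        exact Or.inr (Reach.base _ h)
      · exact Or.inl (Reach.base _ (mem_erase.2 ⟨fun h => hi h.symm, h⟩))
  | step S a b ha hm hr ih =>
      intro i
      by_cases hia : i = a
      · subst hia
        exact Or.inr (Reach.step _ _ _ ha hm hr)
      · rcases ih i with h1 | h1
        · left
          refine Reach.step _ _ _ (mem_erase.2 ⟨fun h => hia h.symm, ha⟩) hm ?_
          rw [erase_right_comm]
          exact h1
        · exact Or.inr (h1.mono (erase_subset _ _))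

lemma Reach.cons {S : Finset ℕ} {i j : ℕ} (hi : i ∈ S) (hm : Mov H U f i j)
    (hr : Reach H U f i0 S j) : Reach H U f i0 S i := by
  rcases hr.avoid i with h | h
  · exact Reach.step _ _ _ hi hm h
  · exact h

lemma Reach.restrict {S C : Finset ℕ} {i : ℕ} (h : Reach H U f i0 S i) (hS : S ⊆ C) :
    Reach H U f i0 (S.filter (fun j => Reach H U f i0 C j)) i := by
  induction h with
  | base S h => exact Reach.base _ (mem_filter.2 ⟨h, Reach.base _ (hS h)⟩)
  | step S i j hi hm hr ih =>
      have h1 : Reach H U f i0 S i := Reach.step _ _ _ hi hm hr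
      refine Reach.step _ _ _ (mem_filter.2 ⟨hi, h1.mono hS⟩) hm ?_
      have := ih ((erase_subset _ _).trans hS)
      rwa [filter_erase] at this

lemma Reach.congr {S : Finset ℕ} {i : ℕ} {F : V → ℕ} (h : Reach H U f i0 S i)
    (hF : ∀ l ∈ S, ∀ v ∈ U, (f v = l ↔ F v = l)) : Reach H U F i0 S i := by
  induction h with
  | base S h => exact Reach.base _ h
  | step S i j hi hm hr ih =>
      obtain ⟨y, hy, hyi, hyj⟩ := hm
      have hj : j ∈ S := mem_of_mem_erase hr.mem
      refine Reach.step _ _ j hi ⟨y, hy, (hF i hi y hy).1 hyi, fun x hx hxj =>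
        hyj x hx ((hF j hj x hx).2 hxj)⟩ (ih fun l hl => hF l (mem_of_mem_erase hl))

/-- how class sizes change when one vertex is recoloured -/
lemma card_update {g : V → ℕ} {y : V} {i j : ℕ} (hy : y ∈ U) (hyi : g y = i)
    (l : ℕ) : (cls U (Function.update g y j) l).card + (if l = i then 1 else 0)
      = (cls U g l).card + (if l = j then 1 else 0) := by
  have e1 : (cls U (Function.update g y j) l) =
      if l = j then insert y ((cls U g l).erase y) else (cls U g l).erase y := by
    ext v
    by_cases hv : v = y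
    · subst hv
      by_cases hl : l = j
      · simp [hl, mem_cls, hy]
      · simp only [mem_cls, Function.update_self, hl, if_false, mem_erase]
        constructor
        · rintro ⟨_, h⟩
          exact absurd h.symm hl
        · rintro ⟨h, _⟩
          exact absurd rfl h
    · by_cases hl : l = j
      · simp [hl, mem_cls, hv]
      · simp [hl, mem_cls, hv]
  have e2 : ((cls U g l).erase y).card + (if l = i then 1 else 0) = (cls U g l).card := by
    by_cases hl : l = i
    · have : y ∈ cls U g l := mem_cls.2 ⟨hy, by rw [hyi, hl]⟩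
      rw [if_pos hl, card_erase_add_one this]
    · have : y ∉ cls U g l := fun h => hl (by rw [← (mem_cls.1 h).2, hyi])
      rw [if_neg hl, erase_eq_of_notMem this, Nat.add_zero]
  rw [e1]
  by_cases hl : l = j
  · rw [if_pos hl, if_pos hl, card_insert_of_notMem (notMem_erase _ _)]
    omega
  · rw [if_neg hl, if_neg hl]
    omega

/-- shifting along a path -/
lemma Reach.shift {S : Finset ℕ} {i : ℕ} (h : Reach H U f i0 S i) (hp : Prp H U f) :
    ∃ f' : V → ℕ, (∀ v ∈ U, f v ∉ S → f' v = f v) ∧ (∀ v ∈ U, f v ∈ S → f' v ∈ S) ∧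
      Prp H U f' ∧ (∀ v ∈ U, f' v = i → f v = i) ∧
      ∀ l, (cls U f' l).card + (if l = i then 1 else 0)
        = (cls U f l).card + (if l = i0 then 1 else 0) := by
  induction h with
  | base S h =>
      exact ⟨f, fun _ _ _ => rfl, fun _ _ h => h, hp, fun _ _ h => h, fun l => rfl⟩
  | step S i j hi hm hr ih =>
      obtain ⟨f1, h1, h2, h3, h4, h5⟩ := ih
      obtain ⟨y, hy, hyi, hyj⟩ := hm
      have hj := mem_erase.1 hr.mem
      have hf1 : ∀ v ∈ U, f1 v = i ↔ f v = i := by
        intro v hv
        constructor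
        · intro h
          by_contra hne
          by_cases hvS : f v ∈ S.erase i
          · have := h2 v hv hvS
            rw [h] at this
            exact (notMem_erase _ _) this
          · rw [h1 v hv hvS] at h
            exact hne h
        · intro h
          rw [h1 v hv (by rw [h]; exact notMem_erase _ _), h]
      refine ⟨Function.update f1 y j, ?_, ?_, ?_, ?_, ?_⟩
      · intro v hv hvS
        have hvy : v ≠ y := by
          rintro rfl
          exact hvS (by rw [hyi]; exact hi)
        rw [Function.update_of_ne hvy]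
        exact h1 v hv fun h => hvS (mem_of_mem_erase h)
      · intro v hv hvS
        by_cases hvy : v = y
        · subst hvy
          rw [Function.update_self]
          exact hj.2
        · rw [Function.update_of_ne hvy]
          by_cases hvi : f v = i
          · rw [(hf1 v hv).2 hvi]
            exact hi
          · exact mem_of_mem_erase (h2 v hv (mem_erase.2 ⟨hvi, hvS⟩))
      · intro a ha b hb hab
        by_cases hay : a = y
        · subst hay
          have hba : b ≠ a := fun h => H.loopless.irrefl _ (h ▸ hab)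
          rw [Function.update_self, Function.update_of_ne hba]
          intro hc
          exact hyj b hb (h4 b hb hc.symm) hab
        · rw [Function.update_of_ne hay]
          by_cases hby : b = y
          · subst hby
            rw [Function.update_self]
            intro hc
            exact hyj a ha (h4 a ha hc) hab.symm
          · rw [Function.update_of_ne hby]
            exact h3 a ha b hb hab
      · intro v hv hvi
        by_cases hvy : v = y
        · subst hvy
          exact hyi
        · rw [Function.update_of_ne hvy] at hvi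
          exact (hf1 v hv).1 hvi
      · intro l
        have := card_update (U := U) (j := j) hy ((hf1 y hy).2 hyi) l
        rw [this, h5 l]

/-- neighbours of `y` in class `j` -/
noncomputable def nbr (H : SimpleGraph V) (U : Finset V) (f : V → ℕ) (y : V) (j : ℕ) : Finset V :=
  (cls U f j).filter (fun x => H.Adj y x)

lemma mem_nbr {y x : V} {j : ℕ} : x ∈ nbr H U f y j ↔ (x ∈ U ∧ f x = j) ∧ H.Adj y x := by
  simp [nbr, mem_cls]

lemma deg_split (P : Finset ℕ) (y : V) :
    ∑ j ∈ P, (nbr H U f y j).card + ((U.filter (fun v => f v ∉ P)).filter (fun x => H.Adj y x)).card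
      = (U.filter (fun x => H.Adj y x)).card := by
  have e1 := card_filter_add_card_filter_not (s := U.filter (fun x => H.Adj y x))
    (fun v => f v ∈ P)
  rw [← e1]
  congr 1
  · rw [card_eq_sum_card_fiberwise (f := f) (t := P)]
    · refine sum_congr rfl fun j hj => ?_
      congr 1
      ext v
      simp only [mem_nbr, mem_filter]
      constructor
      · rintro ⟨⟨h1, h2⟩, h3⟩
        exact ⟨⟨⟨h1, h3⟩, by rw [h2]; exact hj⟩, h2⟩
      · rintro ⟨⟨⟨h1, h3⟩, _⟩, h2⟩
        exact ⟨⟨h1, h2⟩, h3⟩
    · intro v hv
      exact (mem_filter.1 hv).2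
  · rw [filter_filter, filter_filter]
    congr 1
    ext v
    simp only [mem_filter]
    tauto

/-- the counting part of the proof (Lemmas 2.2 and 2.3 of Kierstead-Kostochka) -/
lemma count_false {A T : Finset ℕ} {B : Finset V} {q c u : ℕ}
    (hB : B = U.filter (fun v => f v ∉ A))
    (hTA : T ⊆ A) (hT : T.Nonempty) (hu : u ∈ A) (huT : u ∉ T)
    (hdeg : ∀ v ∈ U, (U.filter (fun x => H.Adj v x)).card + 1 ≤ A.card + q)
    (hBc : B.card = q * c + 1)
    (hTc : ∀ W ∈ T, (cls U f W).card = c)
    (h1 : ∀ y ∈ B, ∀ j ∈ A, 1 ≤ (nbr H U f y j).card)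
    (h2 : ∀ W ∈ T, ∀ z ∈ cls U f W, ∀ j ∈ A, j ≠ u → j ∉ T → 1 ≤ (nbr H U f z j).card)
    (hno1 : ∀ W ∈ T, ∀ z ∈ cls U f W, (∃ y ∈ B, nbr H U f y W = {z}) →
      ∀ j ∈ A, j ≠ W → 1 ≤ (nbr H U f z j).card)
    (hno2 : ∀ W ∈ T, ∀ z ∈ cls U f W, ∀ y1 ∈ B, ∀ y2 ∈ B, y1 ≠ y2 → nbr H U f y1 W = {z} →
      nbr H U f y2 W = {z} → H.Adj y1 y2) : False := by
  have hBU : B ⊆ U := by rw [hB]; exact filter_subset _ _
  have hsplit : ∀ y, ∑ j ∈ A, (nbr H U f y j).card + (B.filter (fun x => H.Adj y x)).card
      = (U.filter (fun x => H.Adj y x)).card := by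
    intro y
    rw [hB]
    exact deg_split A y
  have hTc' : T.card + 1 ≤ A.card := by
    have : (insert u T) ⊆ A := insert_subset hu hTA
    have := card_le_card this
    rwa [card_insert_of_notMem huT] at this
  have hA : ∀ y ∈ B, (B.filter (fun x => H.Adj y x)).card + 1 ≤ q := by
    intro y hy
    have e1 := hsplit y
    have e2 := hdeg y (hBU hy)
    have e3 : A.card ≤ ∑ j ∈ A, (nbr H U f y j).card := by
      have := card_nsmul_le_sum A (fun j => (nbr H U f y j).card) 1 (fun j hj => h1 y hy j hj)
      simpa using this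
    omega
  have hBz : ∀ W ∈ T, ∀ z ∈ cls U f W, (∃ y ∈ B, nbr H U f y W = {z}) →
      (B.filter (fun x => H.Adj z x)).card ≤ q := by
    intro W hW z hz hs
    have e1 := hsplit z
    have e2 := hdeg z (mem_cls.1 hz).1
    have e3 : (A.erase W).card ≤ ∑ j ∈ A.erase W, (nbr H U f z j).card := by
      have := card_nsmul_le_sum (A.erase W) (fun j => (nbr H U f z j).card) 1
        (fun j hj => hno1 W hW z hz hs j (mem_of_mem_erase hj) (ne_of_mem_erase hj))
      simpa using this
    have e4 : ∑ j ∈ A.erase W, (nbr H U f z j).card ≤ ∑ j ∈ A, (nbr H U f z j).card :=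
      sum_le_sum_of_subset (erase_subset _ _)
    have e5 := card_erase_add_one (hTA hW)
    omega
  have hCz : ∀ W ∈ T, ∀ z ∈ cls U f W, (B.filter (fun x => H.Adj z x)).card ≤ q + T.card := by
    intro W hW z hz
    have e1 := hsplit z
    have e2 := hdeg z (mem_cls.1 hz).1
    have e3 : (A \ insert u T).card ≤ ∑ j ∈ A \ insert u T, (nbr H U f z j).card := by
      have := card_nsmul_le_sum (A \ insert u T) (fun j => (nbr H U f z j).card) 1
        (fun j hj => by
          have hj' := mem_sdiff.1 hj
          have h3 : j ≠ u ∧ j ∉ T := by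
            refine ⟨fun h => hj'.2 (by rw [h]; exact mem_insert_self _ _),
              fun h => hj'.2 (mem_insert_of_mem h)⟩
          exact h2 W hW z hz j hj'.1 h3.1 h3.2)
      simpa using this
    have e4 : ∑ j ∈ A \ insert u T, (nbr H U f z j).card ≤ ∑ j ∈ A, (nbr H U f z j).card :=
      sum_le_sum_of_subset sdiff_subset
    have e5 : (A \ insert u T).card + (T.card + 1) = A.card := by
      have := card_sdiff_add_card_eq_card (insert_subset hu hTA)
      rwa [card_insert_of_notMem huT] at this
    omega
  -- Lemma 2.2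
  have hqt : q < T.card := by
    obtain ⟨W, hW⟩ := hT
    by_contra hcon
    have hcon' : T.card ≤ q := not_lt.1 hcon
    set S := (cls U f W).filter (fun z => ∃ y ∈ B, nbr H U f y W = {z}) with hS
    set D := (cls U f W).filter (fun z => ¬ ∃ y ∈ B, nbr H U f y W = {z}) with hD
    have hSD : S.card + D.card = c := by
      rw [← hTc W hW]
      exact card_filter_add_card_filter_not _
    set B1 := B.filter (fun y => ∃ z ∈ S, H.Adj z y) with hB1
    set B2 := B.filter (fun y => ¬ ∃ z ∈ S, H.Adj z y) with hB2
    have hB12 : B1.card + B2.card = B.card := card_filter_add_card_filter_not _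
    have c1 : B1.card ≤ S.card * q := by
      have : B1 ⊆ S.biUnion (fun z => B.filter (fun x => H.Adj z x)) := by
        intro y hy
        obtain ⟨hyB, z, hz, hzy⟩ := mem_filter.1 hy
        exact mem_biUnion.2 ⟨z, hz, mem_filter.2 ⟨hyB, hzy⟩⟩
      refine (card_le_card this).trans (card_biUnion_le_card_mul _ _ _ ?_)
      intro z hz
      have := mem_filter.1 hz
      exact hBz W hW z this.1 this.2
    have c2 : B2.card * 2 ≤ D.card * (q + T.card) := by
      have k1 : ∑ y ∈ B2, (nbr H U f y W).card = ∑ z ∈ D, (B2.filter (fun y => H.Adj z y)).card := by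
        have e1 : ∀ y ∈ B2, (nbr H U f y W).card = (D.filter (fun z => H.Adj y z)).card := by
          intro y hy
          congr 1
          ext x
          simp only [mem_nbr, mem_filter, hD, mem_cls]
          constructor
          · rintro ⟨⟨hx1, hx2⟩, hx3⟩
            refine ⟨⟨⟨hx1, hx2⟩, ?_⟩, hx3⟩
            intro hs
            exact (mem_filter.1 hy).2 ⟨x, mem_filter.2 ⟨mem_cls.2 ⟨hx1, hx2⟩, hs⟩, hx3.symm⟩
          · rintro ⟨⟨hx, _⟩, hx3⟩
            exact ⟨hx, hx3⟩
        rw [sum_congr rfl e1]
        have := sum_card_bipartiteAbove_eq_sum_card_bipartiteBelow (s := B2) (t := D)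
          (fun y z => H.Adj y z)
        simp only [bipartiteAbove, bipartiteBelow] at this
        rw [this]
        refine sum_congr rfl fun z _ => ?_
        congr 1
        ext y
        simp only [mem_filter, H.adj_comm y z]
      have k2 : B2.card * 2 ≤ ∑ y ∈ B2, (nbr H U f y W).card := by
        have := card_nsmul_le_sum B2 (fun y => (nbr H U f y W).card) 2 (fun y hy => by
          obtain ⟨hyB, hyS⟩ := mem_filter.1 hy
          have e1 := h1 y hyB W (hTA hW)
          by_contra hlt
          have e2 : (nbr H U f y W).card = 1 := by omega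
          obtain ⟨z, hz⟩ := card_eq_one.1 e2
          have hzm : z ∈ nbr H U f y W := by rw [hz]; exact mem_singleton_self _
          have hzm' := mem_nbr.1 hzm
          exact hyS ⟨z, mem_filter.2 ⟨mem_cls.2 hzm'.1, y, hyB, hz⟩, hzm'.2.symm⟩)
        simpa using this
      have k3 : ∑ z ∈ D, (B2.filter (fun y => H.Adj z y)).card ≤ D.card * (q + T.card) := by
        have := sum_le_card_nsmul D (fun z => (B2.filter (fun y => H.Adj z y)).card) (q + T.card)
          (fun z hz => (card_le_card (filter_subset_filter _ (filter_subset _ _))).trans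
            (hCz W hW z (mem_filter.1 hz).1))
        simpa using this
      rw [k1] at k2
      exact k2.trans k3
    have c3 : D.card * (q + T.card) ≤ D.card * (2 * q) := Nat.mul_le_mul_left _ (by omega)
    have c4 : q * c = S.card * q + D.card * q := by rw [← hSD]; ring
    have c5 : D.card * (2 * q) = 2 * (D.card * q) := by ring
    omega
  -- number of solo classes
  have hsolo : ∀ y ∈ B, T.card + (B.filter (fun x => H.Adj y x)).card + 1
      ≤ q + (T.filter (fun W => (nbr H U f y W).card = 1)).card := by
    intro y hy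
    have e1 := hsplit y
    have e2 := hdeg y (hBU hy)
    have e3 : A.card + (T.filter (fun W => ¬ (nbr H U f y W).card = 1)).card
        ≤ ∑ j ∈ A, (nbr H U f y j).card := by
      have k1 : ∑ j ∈ A, (1 + if j ∈ T ∧ ¬ (nbr H U f y j).card = 1 then 1 else 0)
          ≤ ∑ j ∈ A, (nbr H U f y j).card := by
        refine sum_le_sum fun j hj => ?_
        have := h1 y hy j hj
        split_ifs with h
        · have := h.2
          omega
        · omega
      have k2 : ∑ j ∈ A, (1 + if j ∈ T ∧ ¬ (nbr H U f y j).card = 1 then 1 else 0)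
          = A.card + (T.filter (fun W => ¬ (nbr H U f y W).card = 1)).card := by
        rw [sum_add_distrib, sum_boole]
        simp only [sum_const, smul_eq_mul, mul_one, Nat.cast_id]
        congr 2
        ext j
        simp only [mem_filter]
        constructor
        · rintro ⟨_, h⟩
          exact h
        · intro h
          exact ⟨hTA h.1, h⟩
      omega
    have e4 : (T.filter (fun W => (nbr H U f y W).card = 1)).card
        + (T.filter (fun W => ¬ (nbr H U f y W).card = 1)).card = T.card :=
      card_filter_add_card_filter_not _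
    omega
  -- weights
  set A' := U.filter (fun v => f v ∈ T) with hA'
  let Sp : V → Finset V := fun z => B.filter (fun y => nbr H U f y (f z) = {z})
  have hA'c : A'.card = T.card * c := by
    have : A' = T.biUnion (fun W => cls U f W) := by
      ext v
      simp only [hA', mem_filter, mem_biUnion, mem_cls]
      constructor
      · rintro ⟨h, h'⟩
        exact ⟨f v, h', h, rfl⟩
      · rintro ⟨W, hW, h, rfl⟩
        exact ⟨h, hW⟩
    rw [this, card_biUnion, sum_congr rfl hTc]
    · simp
    · intro i _ j _ hij
      rw [Function.onFun, disjoint_left]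
      intro v hv hv'
      exact hij ((mem_cls.1 hv).2.symm.trans (mem_cls.1 hv').2)
  have hsum : ∑ y ∈ B, ∑ z ∈ A'.filter (fun z => nbr H U f y (f z) = {z}),
      ((q : ℚ) / ((Sp z).card : ℚ)) = ∑ z ∈ A', ∑ y ∈ Sp z, ((q : ℚ) / ((Sp z).card : ℚ)) := by
    refine sum_comm' ?_
    intro y z
    simp only [mem_filter, Sp]
    tauto
  have hup : ∑ z ∈ A', ∑ y ∈ Sp z, ((q : ℚ) / ((Sp z).card : ℚ)) ≤ (A'.card : ℚ) * q := by
    rw [← nsmul_eq_mul]
    refine sum_le_card_nsmul _ _ _ fun z _ => ?_
    rw [sum_const, nsmul_eq_mul]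
    by_cases h0 : (Sp z).card = 0
    · simp [h0]
    · have h0' : ((Sp z).card : ℚ) ≠ 0 := by exact_mod_cast h0
      rw [mul_div_cancel₀ _ h0']
  have hlow : (B.card : ℚ) * T.card ≤ ∑ y ∈ B, ∑ z ∈ A'.filter (fun z => nbr H U f y (f z) = {z}),
      ((q : ℚ) / ((Sp z).card : ℚ)) := by
    rw [← nsmul_eq_mul]
    refine card_nsmul_le_sum _ _ _ fun y hy => ?_
    set D := (B.filter (fun x => H.Adj y x)).card + 1 with hDdef
    have hDq : D ≤ q := hA y hy
    have s1 : (T.filter (fun W => (nbr H U f y W).card = 1)).card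
        ≤ (A'.filter (fun z => nbr H U f y (f z) = {z})).card := by
      refine card_le_card_of_injOn (fun W => if h : ((nbr H U f y W).card = 1) then
        (card_eq_one.1 h).choose else y) ?_ ?_
      · intro W hW
        obtain ⟨hWT, hW1⟩ := mem_filter.1 hW
        have hz := (card_eq_one.1 hW1).choose_spec
        set z := (card_eq_one.1 hW1).choose with hzdef
        have hzm : z ∈ nbr H U f y W := by rw [hz]; exact mem_singleton_self _
        have hzm' := mem_nbr.1 hzm
        simp only [hW1, dif_pos]
        refine mem_filter.2 ⟨mem_filter.2 ⟨hzm'.1.1, ?_⟩, ?_⟩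
        · rw [← hzdef, hzm'.1.2]
          exact hWT
        · rw [← hzdef, hzm'.1.2]
          exact hz
      · intro W hW W' hW' heq
        obtain ⟨hWT, hW1⟩ := mem_filter.1 hW
        obtain ⟨hWT', hW1'⟩ := mem_filter.1 hW'
        have hz := (card_eq_one.1 hW1).choose_spec
        have hz' := (card_eq_one.1 hW1').choose_spec
        simp only [hW1, hW1', dif_pos] at heq
        have hzm : (card_eq_one.1 hW1).choose ∈ nbr H U f y W :=
          (Finset.ext_iff.1 hz _).2 (mem_singleton_self _)
        have hzm' : (card_eq_one.1 hW1').choose ∈ nbr H U f y W' :=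
          (Finset.ext_iff.1 hz' _).2 (mem_singleton_self _)
        rw [← (mem_nbr.1 hzm).1.2, ← (mem_nbr.1 hzm').1.2, heq]
    have s2 : ∀ z ∈ A'.filter (fun z => nbr H U f y (f z) = {z}),
        (q : ℚ) / D ≤ (q : ℚ) / ((Sp z).card : ℚ) := by
      intro z hz
      obtain ⟨hzA, hzy⟩ := mem_filter.1 hz
      obtain ⟨hzU, hzT⟩ := mem_filter.1 hzA
      have hyS : y ∈ Sp z := mem_filter.2 ⟨hy, hzy⟩
      have hpos : 0 < (Sp z).card := card_pos.2 ⟨y, hyS⟩
      have hle : (Sp z).card ≤ D := by
        have : (Sp z).erase y ⊆ B.filter (fun x => H.Adj y x) := by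
          intro y' hy'
          obtain ⟨hne, hy'S⟩ := mem_erase.1 hy'
          obtain ⟨hy'B, hy'z⟩ := mem_filter.1 hy'S
          exact mem_filter.2 ⟨hy'B, hno2 (f z) hzT z (mem_cls.2 ⟨hzU, rfl⟩) y hy y' hy'B
            (fun h => hne h.symm) hzy hy'z⟩
        have := card_le_card this
        have h2 := card_erase_add_one hyS
        omega
      have h3 : (0 : ℚ) < ((Sp z).card : ℚ) := by exact_mod_cast hpos
      have h4 : ((Sp z).card : ℚ) ≤ D := by exact_mod_cast hle
      exact div_le_div_of_nonneg_left (by positivity) h3 h4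
    have s3 := card_nsmul_le_sum _ _ _ s2
    refine le_trans ?_ s3
    rw [nsmul_eq_mul]
    have s4 := hsolo y hy
    set sc := (A'.filter (fun z => nbr H U f y (f z) = {z})).card with hsc
    have s5 : T.card + D ≤ q + sc := by omega
    have hDpos : (0 : ℚ) < D := by
      have : 0 < D := by omega
      exact_mod_cast this
    have s6 : (T.card : ℚ) + D ≤ q + sc := by exact_mod_cast s5
    have s7 : (D : ℚ) ≤ q := by exact_mod_cast hDq
    have s8 : (q : ℚ) ≤ T.card := by exact_mod_cast hqt.le
    rw [mul_div_assoc', le_div_iff₀ hDpos]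
    nlinarith [mul_nonneg (sub_nonneg.2 s8) (sub_nonneg.2 s7), mul_le_mul_of_nonneg_left s6
      (by positivity : (0:ℚ) ≤ q)]
  rw [hsum] at hlow
  have hfin := hlow.trans hup
  rw [hA'c, hBc] at hfin
  have hfin' : (q * c + 1) * T.card ≤ T.card * c * q := by exact_mod_cast hfin
  have htpos : 0 < T.card := card_pos.2 hT
  nlinarith

/-- equitable colourability of `U` with the colours `C`, class size `c` -/
def Equit (H : SimpleGraph V) (c : ℕ) (C : Finset ℕ) (U : Finset V) : Prop :=
  ∃ f : V → ℕ, (∀ v ∈ U, f v ∈ C) ∧ Prp H U f ∧ ∀ l ∈ C, (cls U f l).card = c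

lemma case1 {C A : Finset ℕ} {B : Finset V} {c : ℕ} {z y : V} {W X : ℕ} (hAC : A ⊆ C)
    (hB : B = U.filter (fun v => f v ∉ A)) (hp : Prp H U f)
    (hsize : ∀ l ∈ A, (cls U f l).card + (if l = i0 then 1 else 0) = c)
    (hz : z ∈ U) (hzW : f z = W) (hWA : W ∈ A) (hy : y ∈ B) (hN : nbr H U f y W = {z})
    (hXA : X ∈ A) (hXW : X ≠ W) (hzX : ∀ x ∈ U, f x = X → ¬ H.Adj z x)
    (hreach : Reach H U f i0 (A.erase W) X)
    (hg : Equit H c (C \ A) (B.erase y)) : Equit H c C U := by
  obtain ⟨g, hgC, hgp, hgc⟩ := hg
  obtain ⟨f1, s1, s2, s3, s4, s5⟩ := hreach.shift hp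
  have hyU : y ∈ U := by rw [hB] at hy; exact (mem_filter.1 hy).1
  have hyA : f y ∉ A := by rw [hB] at hy; exact (mem_filter.1 hy).2
  have hmB : ∀ v, v ∈ B ↔ v ∈ U ∧ f v ∉ A := by intro v; rw [hB]; exact mem_filter
  have hzB : z ∉ B := fun h => ((hmB z).1 h).2 (by rw [hzW]; exact hWA)
  have hzy : z ≠ y := fun h => hzB (h ▸ hy)
  have f1B : ∀ v ∈ U, f v ∉ A → f1 v = f v := fun v hv h =>
    s1 v hv fun h' => h (mem_of_mem_erase h')
  have f1W : ∀ v ∈ U, (f1 v = W ↔ f v = W) := by
    intro v hv
    constructor
    · intro h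
      by_contra hne
      by_cases hv' : f v ∈ A.erase W
      · have := s2 v hv hv'
        rw [h] at this
        exact notMem_erase _ _ this
      · rw [s1 v hv hv'] at h
        exact hne h
    · intro h
      rw [s1 v hv (by rw [h]; exact notMem_erase _ _), h]
  have f1A : ∀ v ∈ U, f v ∈ A → f1 v ∈ A := by
    intro v hv h
    by_cases hvW : f v = W
    · rw [(f1W v hv).2 hvW]
      exact hWA
    · exact mem_of_mem_erase (s2 v hv (mem_erase.2 ⟨hvW, h⟩))
  set h : V → ℕ := Function.update (Function.update f1 z X) y W with hh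
  have hhy : h y = W := by rw [hh, Function.update_self]
  have hhz : h z = X := by rw [hh, Function.update_of_ne hzy, Function.update_self]
  have hho : ∀ v, v ≠ y → v ≠ z → h v = f1 v := by
    intro v h1 h2
    rw [hh, Function.update_of_ne h1, Function.update_of_ne h2]
  let F : V → ℕ := fun v => if v ∈ B.erase y then g v else h v
  have hFB : ∀ v ∈ B.erase y, F v = g v := fun v hv => if_pos hv
  have hFA : ∀ v, v ∉ B.erase y → F v = h v := fun v hv => if_neg hv
  have hnB : ∀ v ∈ U, v ∉ B.erase y → v ≠ y → f v ∈ A := by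
    intro v hv h1 h2
    by_contra h3
    exact h1 (mem_erase.2 ⟨h2, (hmB v).2 ⟨hv, h3⟩⟩)
  have hhA : ∀ v ∈ U, v ∉ B.erase y → h v ∈ A := by
    intro v hv h1
    by_cases h2 : v = y
    · rw [h2, hhy]
      exact hWA
    · by_cases h3 : v = z
      · rw [h3, hhz]
        exact hXA
      · rw [hho v h2 h3]
        exact f1A v hv (hnB v hv h1 h2)
  -- adjacency inside the `A` part
  have hhp : ∀ a ∈ U, ∀ b ∈ U, a ∉ B.erase y → b ∉ B.erase y → H.Adj a b → h a ≠ h b := by
    have hyx : ∀ b ∈ U, b ∉ B.erase y → H.Adj y b → h b ≠ W := by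
      intro b hb hbB hyb hbW
      have hby : b ≠ y := fun h => H.loopless.irrefl _ (h ▸ hyb)
      by_cases hbz : b = z
      · rw [hbz, hhz] at hbW
        exact hXW hbW
      · rw [hho b hby hbz] at hbW
        have : b ∈ nbr H U f y W := mem_nbr.2 ⟨⟨hb, (f1W b hb).1 hbW⟩, hyb⟩
        rw [hN] at this
        exact hbz (mem_singleton.1 this)
    have hzx : ∀ b ∈ U, b ∉ B.erase y → b ≠ y → H.Adj z b → h b ≠ X := by
      intro b hb hbB hby hzb hbX
      have hbz : b ≠ z := fun h => H.loopless.irrefl _ (h ▸ hzb)
      rw [hho b hby hbz] at hbX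
      exact hzX b hb (s4 b hb hbX) hzb
    intro a ha b hb haB hbB hab
    by_cases hay : a = y
    · subst hay
      rw [hhy]
      exact (hyx b hb hbB hab).symm
    by_cases hby : b = y
    · subst hby
      rw [hhy]
      exact hyx a ha haB hab.symm
    by_cases haz : a = z
    · subst haz
      rw [hhz]
      exact (hzx b hb hbB hby hab).symm
    by_cases hbz : b = z
    · subst hbz
      rw [hhz]
      exact hzx a ha haB hay hab.symm
    rw [hho a hay haz, hho b hby hbz]
    exact s3 a ha b hb hab
  refine ⟨F, ?_, ?_, ?_⟩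
  · intro v hv
    by_cases h1 : v ∈ B.erase y
    · rw [hFB v h1]
      exact (mem_sdiff.1 (hgC v h1)).1
    · rw [hFA v h1]
      exact hAC (hhA v hv h1)
  · intro a ha b hb hab
    by_cases h1 : a ∈ B.erase y
    · by_cases h2 : b ∈ B.erase y
      · rw [hFB a h1, hFB b h2]
        exact hgp a h1 b h2 hab
      · rw [hFB a h1, hFA b h2]
        intro he
        have := (mem_sdiff.1 (hgC a h1)).2
        rw [he] at this
        exact this (hhA b hb h2)
    · by_cases h2 : b ∈ B.erase y
      · rw [hFA a h1, hFB b h2]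
        intro he
        have := (mem_sdiff.1 (hgC b h2)).2
        rw [← he] at this
        exact this (hhA a ha h1)
      · rw [hFA a h1, hFA b h2]
        exact hhp a ha b hb h1 h2 hab
  · intro l hl
    by_cases hlA : l ∈ A
    · have e0 : cls U F l = cls U h l := by
        ext v
        simp only [mem_cls]
        constructor
        · rintro ⟨hv, hvl⟩
          refine ⟨hv, ?_⟩
          by_cases h1 : v ∈ B.erase y
          · rw [hFB v h1] at hvl
            exact absurd hlA (hvl ▸ (mem_sdiff.1 (hgC v h1)).2)
          · rwa [hFA v h1] at hvl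
        · rintro ⟨hv, hvl⟩
          refine ⟨hv, ?_⟩
          by_cases h1 : v ∈ B.erase y
          · have h2 := mem_erase.1 h1
            have h3 := (hmB v).1 h2.2
            have hvz : v ≠ z := fun h => hzB (h ▸ h2.2)
            rw [hho v h2.1 hvz, f1B v hv h3.2] at hvl
            exact absurd hlA (hvl ▸ h3.2)
          · rwa [hFA v h1]
      rw [e0]
      have e1 := card_update (U := U) (g := f1) (y := z) (i := W) (j := X) hz ((f1W z hz).2 hzW) l
      have e2 := card_update (U := U) (g := Function.update f1 z X) (y := y) (i := f y) (j := W)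
        hyU (by rw [Function.update_of_ne hzy.symm]; exact f1B y hyU hyA) l
      have e3 := s5 l
      have e4 := hsize l hlA
      have e5 : l ≠ f y := fun h => hyA (h ▸ hlA)
      rw [if_neg e5] at e2
      rw [hh]
      omega
    · have hl' : l ∈ C \ A := mem_sdiff.2 ⟨hl, hlA⟩
      rw [← hgc l hl']
      congr 1
      ext v
      simp only [mem_cls]
      constructor
      · rintro ⟨hv, hvl⟩
        by_cases h1 : v ∈ B.erase y
        · exact ⟨h1, by rwa [hFB v h1] at hvl⟩
        · rw [hFA v h1] at hvl
          exact absurd (hvl ▸ hhA v hv h1) hlA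
      · rintro ⟨h1, hvl⟩
        exact ⟨((hmB v).1 (mem_of_mem_erase h1)).1, by rw [hFB v h1]; exact hvl⟩

lemma case2 {C A : Finset ℕ} {B : Finset V} {c : ℕ} {z y1 y2 : V} {W : ℕ}
    (hA : A = C.filter (fun i => Reach H U f i0 C i)) (hi0 : i0 ∈ A)
    (hB : B = U.filter (fun v => f v ∉ A)) (hfC : ∀ v ∈ U, f v ∈ C) (hp : Prp H U f)
    (hsize : ∀ l ∈ A, (cls U f l).card + (if l = i0 then 1 else 0) = c)
    (hdeg : ∀ v ∈ U, (U.filter (fun x => H.Adj v x)).card < C.card)
    (hz : z ∈ U) (hzW : f z = W) (hWA : W ∈ A) (hWi : W ≠ i0)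
    (hterm : ∀ X ∈ A, X ≠ W → Reach H U f i0 (A.erase W) X)
    (hy1 : y1 ∈ B) (hN1 : nbr H U f y1 W = {z}) (hy2 : y2 ∈ B) (hN2 : nbr H U f y2 W = {z})
    (h12 : y1 ≠ y2) (hna : ¬ H.Adj y1 y2)
    (hno : ∀ j ∈ A, j ≠ W → 1 ≤ (nbr H U f z j).card)
    (hg : Equit H c (C \ A) (B.erase y1)) :
    ∃ (F : V → ℕ) (Y : ℕ), Y ∈ C \ A ∧ (∀ v ∈ U, F v ∈ C) ∧ Prp H U F ∧
      (∀ l ∈ C, (cls U F l).card + (if l = i0 then 1 else 0) = c + (if l = Y then 1 else 0)) ∧
      (∀ X ∈ A, Reach H U F i0 C X) ∧ ∃ Y2 ∈ C \ A, Reach H U F i0 C Y2 := by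
  obtain ⟨g, hgC, hgp, hgc⟩ := hg
  have hAC : A ⊆ C := by rw [hA]; exact filter_subset _ _
  have hmB : ∀ v, v ∈ B ↔ v ∈ U ∧ f v ∉ A := by intro v; rw [hB]; exact mem_filter
  have hzB : z ∉ B := fun h => ((hmB z).1 h).2 (by rw [hzW]; exact hWA)
  have hzy1 : z ≠ y1 := fun h => hzB (h ▸ hy1)
  have hzy2 : z ≠ y2 := fun h => hzB (h ▸ hy2)
  have hadj1 : H.Adj y1 z := by
    have : z ∈ nbr H U f y1 W := by rw [hN1]; exact mem_singleton_self _
    exact (mem_nbr.1 this).2
  -- a colour `Y` free for `z`
  obtain ⟨Y, hY, hYfree⟩ : ∃ Y ∈ C \ A, ∀ x ∈ B.erase y1, g x = Y → ¬ H.Adj z x := by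
    by_contra hcon
    push Not at hcon
    have e1 := deg_split (H := H) (U := U) (f := f) A z
    rw [← hB] at e1
    have e2 := hdeg z hz
    have e3 : (A.erase W).card ≤ ∑ j ∈ A.erase W, (nbr H U f z j).card := by
      have := card_nsmul_le_sum (A.erase W) (fun j => (nbr H U f z j).card) 1
        (fun j hj => hno j (mem_of_mem_erase hj) (ne_of_mem_erase hj))
      simpa using this
    have e4 : ∑ j ∈ A.erase W, (nbr H U f z j).card ≤ ∑ j ∈ A, (nbr H U f z j).card :=
      sum_le_sum_of_subset (erase_subset _ _)
    have e5 := card_erase_add_one hWA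
    have e6 : (C \ A).card + A.card = C.card := card_sdiff_add_card_eq_card hAC
    have e7 : (C \ A).card ≤ ((B.filter (fun x => H.Adj z x)).erase y1).card := by
      have : (C \ A) ⊆ ((B.filter (fun x => H.Adj z x)).erase y1).image g := by
        intro l hl
        obtain ⟨x, hx, hxl, hzx⟩ := hcon l hl
        have hx' := mem_erase.1 hx
        exact mem_image.2 ⟨x, mem_erase.2 ⟨hx'.1, mem_filter.2 ⟨hx'.2, hzx⟩⟩, hxl⟩
      exact (card_le_card this).trans card_image_le
    have e8 : y1 ∈ B.filter (fun x => H.Adj z x) := mem_filter.2 ⟨hy1, hadj1.symm⟩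
    have e9 := card_erase_add_one e8
    omega
  let F : V → ℕ := fun v => if v = z then Y else if v = y1 then W else if v ∈ B then g v else f v
  have hFz : F z = Y := if_pos rfl
  have hFy : F y1 = W := by simp [F, hzy1.symm]
  have hFB : ∀ v ∈ B.erase y1, F v = g v := by
    intro v hv
    have hv' := mem_erase.1 hv
    have hvz : v ≠ z := fun h => hzB (h ▸ hv'.2)
    simp only [F]
    rw [if_neg hvz, if_neg hv'.1, if_pos hv'.2]
  have hFA : ∀ v, v ∉ B → v ≠ z → F v = f v := by
    intro v hv hvz
    have hvy : v ≠ y1 := fun h => hv (h ▸ hy1)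
    simp only [F]
    rw [if_neg hvz, if_neg hvy, if_neg hv]
  have hYA : Y ∉ A := (mem_sdiff.1 hY).2
  have hcase : ∀ v ∈ U, v = z ∨ v = y1 ∨ v ∈ B.erase y1 ∨ (v ∉ B ∧ v ≠ z) := by
    intro v hv
    by_cases h1 : v = z
    · exact Or.inl h1
    · by_cases h2 : v = y1
      · exact Or.inr (Or.inl h2)
      · by_cases h3 : v ∈ B
        · exact Or.inr (Or.inr (Or.inl (mem_erase.2 ⟨h2, h3⟩)))
        · exact Or.inr (Or.inr (Or.inr ⟨h3, h1⟩))
  have hfA : ∀ v ∈ U, v ∉ B → f v ∈ A := by
    intro v hv h
    by_contra h'
    exact h ((hmB v).2 ⟨hv, h'⟩)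
  -- classes of `A` other than `W` are unchanged
  have hsame : ∀ l ∈ A.erase W, ∀ v ∈ U, (f v = l ↔ F v = l) := by
    intro l hl v hv
    have hl' := mem_erase.1 hl
    rcases hcase v hv with h | h | h | h
    · subst h
      rw [hFz]
      constructor
      · intro h
        exact absurd (h.symm.trans hzW) hl'.1
      · intro h
        exact absurd (h ▸ hl'.2) hYA
    · subst h
      rw [hFy]
      constructor
      · intro h
        exact absurd (h ▸ hl'.2) ((hmB v).1 hy1).2
      · intro h
        exact absurd h.symm hl'.1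
    · rw [hFB v h]
      constructor
      · intro h'
        exact absurd (h' ▸ hl'.2) ((hmB v).1 (mem_of_mem_erase h)).2
      · intro h'
        exact absurd (h' ▸ hl'.2) (mem_sdiff.1 (hgC v h)).2
    · rw [hFA v h.1 h.2]
  have hFC : ∀ v ∈ U, F v ∈ C := by
    intro v hv
    rcases hcase v hv with h | h | h | h
    · rw [h, hFz]; exact (mem_sdiff.1 hY).1
    · rw [h, hFy]; exact hAC hWA
    · rw [hFB v h]; exact (mem_sdiff.1 (hgC v h)).1
    · rw [hFA v h.1 h.2]; exact hfC v hv
  have hFW : ∀ v ∈ U, F v = W → v = y1 ∨ (f v = W ∧ v ≠ z) := by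
    intro v hv hvW
    rcases hcase v hv with h | h | h | h
    · rw [h, hFz] at hvW
      exact absurd (hvW ▸ hWA) hYA
    · exact Or.inl h
    · rw [hFB v h] at hvW
      exact absurd (hvW ▸ hWA) (mem_sdiff.1 (hgC v h)).2
    · rw [hFA v h.1 h.2] at hvW
      exact Or.inr ⟨hvW, h.2⟩
  have hFp : Prp H U F := by
    have key : ∀ a ∈ U, ∀ b ∈ U, H.Adj a b → F a = F b → F a ∈ A → False := by
      intro a ha b hb hab he hFaA
      by_cases haW : F a = W
      · have hbW : F b = W := he ▸ haW
        have k1 : ∀ x, f x = W → x ∈ U → x ≠ z → ¬ H.Adj y1 x := by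
          intro x hx hxU hxz hadj
          have : x ∈ nbr H U f y1 W := mem_nbr.2 ⟨⟨hxU, hx⟩, hadj⟩
          rw [hN1] at this
          exact hxz (mem_singleton.1 this)
        rcases hFW a ha haW with h1 | h1
        · rcases hFW b hb hbW with h2 | h2
          · exact H.loopless.irrefl _ (h1 ▸ h2 ▸ hab)
          · exact k1 b h2.1 hb h2.2 (h1 ▸ hab)
        · rcases hFW b hb hbW with h2 | h2
          · exact k1 a h1.1 ha h1.2 (h2 ▸ hab.symm)
          · exact hp a ha b hb hab (h1.1.trans h2.1.symm)
      · have h1 := (hsame (F a) (mem_erase.2 ⟨haW, hFaA⟩) a ha).2 rfl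
        have h2 := (hsame (F a) (mem_erase.2 ⟨haW, hFaA⟩) b hb).2 he.symm
        exact hp a ha b hb hab (h1.trans h2.symm)
    have hcol : ∀ v ∈ U, F v ∉ A → v = z ∨ v ∈ B.erase y1 := by
      intro v hv h
      rcases hcase v hv with h' | h' | h' | h'
      · exact Or.inl h'
      · rw [h', hFy] at h
        exact absurd hWA h
      · exact Or.inr h'
      · rw [hFA v h'.1 h'.2] at h
        exact absurd (hfA v hv h'.1) h
    intro a ha b hb hab he
    by_cases hFaA : F a ∈ A
    · exact key a ha b hb hab he hFaA
    · have hFbA : F b ∉ A := he ▸ hFaA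
      rcases hcol a ha hFaA with h1 | h1
      · rcases hcol b hb hFbA with h2 | h2
        · exact H.loopless.irrefl _ (h1 ▸ h2 ▸ hab)
        · rw [h1, hFz, hFB b h2] at he
          exact hYfree b h2 he.symm (h1 ▸ hab)
      · rcases hcol b hb hFbA with h2 | h2
        · rw [h2, hFz, hFB a h1] at he
          exact hYfree a h1 he (h2 ▸ hab.symm)
        · rw [hFB a h1, hFB b h2] at he
          exact hgp a h1 b h2 hab he
  have hFsize : ∀ l ∈ C, (cls U F l).card + (if l = i0 then 1 else 0)
      = c + (if l = Y then 1 else 0) := by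
    intro l hl
    by_cases hlA : l ∈ A
    · have hlY : l ≠ Y := fun h => hYA (h ▸ hlA)
      rw [if_neg hlY, Nat.add_zero, ← hsize l hlA]
      congr 1
      by_cases hlW : l = W
      · subst hlW
        have e1 : cls U F l = insert y1 ((cls U f l).erase z) := by
          ext v
          simp only [mem_cls, mem_insert, mem_erase]
          constructor
          · rintro ⟨hv, hvl⟩
            rcases hFW v hv hvl with h | h
            · exact Or.inl h
            · exact Or.inr ⟨h.2, hv, h.1⟩
          · rintro (h | ⟨h1, h2, h3⟩)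
            · exact ⟨h ▸ ((hmB y1).1 hy1).1, h ▸ hFy⟩
            · refine ⟨h2, ?_⟩
              rw [hFA v (fun h => ((hmB v).1 h).2 (h3 ▸ hWA)) h1, h3]
        have e2 : y1 ∉ (cls U f l).erase z := by
          intro h
          have h' := (mem_cls.1 (mem_of_mem_erase h)).2
          exact ((hmB y1).1 hy1).2 (h' ▸ hWA)
        rw [e1, card_insert_of_notMem e2, card_erase_add_one (mem_cls.2 ⟨hz, hzW⟩)]
      · congr 1
        ext v
        simp only [mem_cls]
        constructor
        · rintro ⟨hv, hvl⟩
          exact ⟨hv, (hsame l (mem_erase.2 ⟨hlW, hlA⟩) v hv).2 hvl⟩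
        · rintro ⟨hv, hvl⟩
          exact ⟨hv, (hsame l (mem_erase.2 ⟨hlW, hlA⟩) v hv).1 hvl⟩
    · have hli : l ≠ i0 := fun h => hlA (h ▸ hi0)
      rw [if_neg hli, Nat.add_zero]
      have hl' : l ∈ C \ A := mem_sdiff.2 ⟨hl, hlA⟩
      have hgl := hgc l hl'
      have hmem : ∀ v, v ∈ cls U F l ↔ v ∈ cls (B.erase y1) g l ∨ (v = z ∧ l = Y) := by
        intro v
        simp only [mem_cls]
        constructor
        · rintro ⟨hv, hvl⟩
          rcases hcase v hv with h' | h' | h' | h'
          · right
            exact ⟨h', by rw [← hvl, h', hFz]⟩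
          · rw [h', hFy] at hvl
            exact absurd (hvl ▸ hWA) hlA
          · left
            exact ⟨h', by rwa [hFB v h'] at hvl⟩
          · rw [hFA v h'.1 h'.2] at hvl
            exact absurd (hvl ▸ hfA v hv h'.1) hlA
        · rintro (⟨h1, h2⟩ | ⟨h1, h2⟩)
          · exact ⟨((hmB v).1 (mem_of_mem_erase h1)).1, by rw [hFB v h1]; exact h2⟩
          · rw [h1, h2]
            exact ⟨hz, hFz⟩
      by_cases hlY : l = Y
      · rw [if_pos hlY]
        have e1 : cls U F l = insert z (cls (B.erase y1) g l) := by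
          ext v
          rw [hmem v, mem_insert]
          constructor
          · rintro (h | h)
            · exact Or.inr h
            · exact Or.inl h.1
          · rintro (h | h)
            · exact Or.inr ⟨h, hlY⟩
            · exact Or.inl h
        have e2 : z ∉ cls (B.erase y1) g l := fun h =>
          hzB (mem_of_mem_erase (mem_cls.1 h).1)
        rw [e1, card_insert_of_notMem e2, hgl]
      · rw [if_neg hlY, Nat.add_zero, ← hgl]
        congr 1
        ext v
        rw [hmem v]
        constructor
        · rintro (h | h)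
          · exact h
          · exact absurd h.2 hlY
        · exact Or.inl
  have hR1 : ∀ X ∈ A, X ≠ W → Reach H U F i0 C X := by
    intro X hX hXW
    exact ((hterm X hX hXW).congr hsame).mono ((erase_subset _ _).trans hAC)
  have hRW : Reach H U F i0 C W := by
    have hW1 : Reach H U f i0 C W := by
      rw [hA] at hWA
      exact (mem_filter.1 hWA).2
    obtain ⟨j, hm, hr⟩ : ∃ j, Mov H U f W j ∧ Reach H U f i0 (C.erase W) j := by
      cases hW1 with
      | base _ h => exact absurd rfl hWi
      | step _ _ j hi hm hr => exact ⟨j, hm, hr⟩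
    have hjA : j ∈ A := by
      rw [hA]
      exact mem_filter.2 ⟨mem_of_mem_erase hr.mem, hr.mono (erase_subset _ _)⟩
    have hjW : j ≠ W := (mem_erase.1 hr.mem).1
    obtain ⟨w, hw, hwW, hwj⟩ := hm
    have hwz : w ≠ z := by
      rintro rfl
      have := hno j hjA hjW
      obtain ⟨x, hx⟩ := card_pos.1 (by omega : 0 < (nbr H U f w j).card)
      have hx' := mem_nbr.1 hx
      exact hwj x hx'.1.1 hx'.1.2 hx'.2
    have hwB : w ∉ B := fun h => ((hmB w).1 h).2 (hwW ▸ hWA)
    refine Reach.cons (hAC hWA) ⟨w, hw, ?_, ?_⟩ (hR1 j hjA hjW)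
    · rw [hFA w hwB hwz, hwW]
    · intro x hx hxj
      exact hwj x hx ((hsame j (mem_erase.2 ⟨hjW, hjA⟩) x hx).2 hxj)
  refine ⟨F, Y, hY, hFC, hFp, hFsize, ?_, ?_⟩
  · intro X hX
    by_cases hXW : X = W
    · rw [hXW]; exact hRW
    · exact hR1 X hX hXW
  · have hy2' : y2 ∈ B.erase y1 := mem_erase.2 ⟨h12.symm, hy2⟩
    refine ⟨g y2, hgC y2 hy2', ?_⟩
    refine Reach.cons (mem_sdiff.1 (hgC y2 hy2')).1 ⟨y2, ((hmB y2).1 hy2).1, hFB y2 hy2', ?_⟩ hRW
    intro x hx hxW hadj
    rcases hFW x hx hxW with h | h
    · exact hna (h ▸ hadj.symm)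
    · have : x ∈ nbr H U f y2 W := mem_nbr.2 ⟨⟨hx, h.1⟩, hadj⟩
      rw [hN2] at this
      exact h.2 (mem_singleton.1 this)

/-- nearly equitable colourings can be made equitable -/
lemma nearly {C : Finset ℕ} {c : ℕ} (hU : U.card = C.card * c)
    (hdeg : ∀ v ∈ U, (U.filter (fun x => H.Adj v x)).card < C.card)
    (IH : ∀ (C' : Finset ℕ) (U' : Finset V), C'.card < C.card → U'.card = C'.card * c →
      (∀ v ∈ U', (U'.filter (fun x => H.Adj v x)).card < C'.card) → Equit H c C' U') :
    ∀ (m : ℕ) (f : V → ℕ) (i0 i1 : ℕ),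
      (C.filter (fun i => ¬ Reach H U f i0 C i)).card ≤ m →
      (∀ v ∈ U, f v ∈ C) → Prp H U f → i0 ∈ C → i1 ∈ C → i0 ≠ i1 →
      (∀ l ∈ C, (cls U f l).card + (if l = i0 then 1 else 0) = c + (if l = i1 then 1 else 0)) →
      Equit H c C U := by
  intro m
  induction m with
  | zero =>
      intro f i0 i1 hm hfC hp h0 h1 h01 hs
      have hr : Reach H U f i0 C i1 := by
        by_contra h
        have : i1 ∈ C.filter (fun i => ¬ Reach H U f i0 C i) := mem_filter.2 ⟨h1, h⟩
        rw [card_eq_zero.1 (Nat.le_zero.1 hm)] at this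
        exact notMem_empty _ this
      obtain ⟨f', s1, s2, s3, s4, s5⟩ := hr.shift hp
      refine ⟨f', fun v hv => ?_, s3, fun l hl => ?_⟩
      · exact s2 v hv (hfC v hv)
      · have e1 := s5 l
        have e2 := hs l hl
        omega
  | succ m ihm =>
      intro f i0 i1 hm hfC hp h0 h1 h01 hs
      by_cases hr : Reach H U f i0 C i1
      · obtain ⟨f', s1, s2, s3, s4, s5⟩ := hr.shift hp
        refine ⟨f', fun v hv => ?_, s3, fun l hl => ?_⟩
        · exact s2 v hv (hfC v hv)
        · have e1 := s5 l
          have e2 := hs l hl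
          omega
      -- now `i1` is not accessible
      obtain ⟨A, hA⟩ : ∃ A, A = C.filter (fun i => Reach H U f i0 C i) := ⟨_, rfl⟩
      obtain ⟨B, hB⟩ : ∃ B, B = U.filter (fun v => f v ∉ A) := ⟨_, rfl⟩
      have hmA : ∀ i, i ∈ A ↔ i ∈ C ∧ Reach H U f i0 C i := by intro i; rw [hA]; exact mem_filter
      have hmB : ∀ v, v ∈ B ↔ v ∈ U ∧ f v ∉ A := by intro v; rw [hB]; exact mem_filter
      have hAC : A ⊆ C := by rw [hA]; exact filter_subset _ _
      have hi0A : i0 ∈ A := (hmA i0).2 ⟨h0, Reach.base _ h0⟩
      have hi1A : i1 ∉ A := fun h => hr ((hmA i1).1 h).2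
      have hCA : C \ A = C.filter (fun i => ¬ Reach H U f i0 C i) := by
        ext i
        rw [mem_sdiff, hmA, mem_filter]
        tauto
      have hcardCA : (C \ A).card + A.card = C.card := card_sdiff_add_card_eq_card hAC
      have hstar : ∀ y ∈ B, ∀ j ∈ A, 1 ≤ (nbr H U f y j).card := by
        intro y hy j hj
        by_contra hlt
        have h0' : nbr H U f y j = ∅ := card_eq_zero.1 (by omega)
        have hy' := (hmB y).1 hy
        have hj' := (hmA j).1 hj
        refine hy'.2 ((hmA (f y)).2 ⟨hfC y hy'.1, ?_⟩)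
        refine Reach.cons (hfC y hy'.1) ⟨y, hy'.1, rfl, ?_⟩ hj'.2
        intro x hx hxj hadj
        have : x ∈ nbr H U f y j := mem_nbr.2 ⟨⟨hx, hxj⟩, hadj⟩
        rw [h0'] at this
        exact notMem_empty _ this
      have hsizeA : ∀ l ∈ A, (cls U f l).card + (if l = i0 then 1 else 0) = c := by
        intro l hl
        have := hs l (hAC hl)
        rwa [if_neg (fun h : l = i1 => hi1A (h ▸ hl)), Nat.add_zero] at this
      have hBcard : B.card = (C \ A).card * c + 1 := by
        have e1 : B.card = ∑ l ∈ C \ A, (cls U f l).card := by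
          rw [card_eq_sum_card_fiberwise (f := f) (t := C \ A)]
          · refine sum_congr rfl fun l hl => ?_
            congr 1
            ext v
            simp only [mem_filter, mem_cls, hmB]
            constructor
            · rintro ⟨⟨h1, _⟩, h3⟩
              exact ⟨h1, h3⟩
            · rintro ⟨h1, h3⟩
              exact ⟨⟨h1, by rw [h3]; exact (mem_sdiff.1 hl).2⟩, h3⟩
          · intro v hv
            have := (hmB v).1 (mem_coe.1 hv)
            exact mem_coe.2 (mem_sdiff.2 ⟨hfC v this.1, this.2⟩)
        have e2 : ∀ l ∈ C \ A, (cls U f l).card = c + (if l = i1 then 1 else 0) := by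
          intro l hl
          have hl' := mem_sdiff.1 hl
          have := hs l hl'.1
          rwa [if_neg (fun h : l = i0 => hl'.2 (h ▸ hi0A)), Nat.add_zero] at this
        rw [e1, sum_congr rfl e2, sum_add_distrib, sum_const, smul_eq_mul, sum_ite_eq' (C \ A) i1,
          if_pos (mem_sdiff.2 ⟨h1, hi1A⟩)]
      have hq1 : 1 ≤ (C \ A).card := card_pos.2 ⟨i1, mem_sdiff.2 ⟨h1, hi1A⟩⟩
      have hBU : B ⊆ U := by rw [hB]; exact filter_subset _ _
      -- degrees inside `B`
      have hdegB : ∀ y ∈ B, (B.filter (fun x => H.Adj y x)).card < (C \ A).card := by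
        intro y hy
        have e1 := deg_split (H := H) (U := U) (f := f) A y
        rw [← hB] at e1
        have e2 := hdeg y (hBU hy)
        have e3 : A.card ≤ ∑ j ∈ A, (nbr H U f y j).card := by
          have := card_nsmul_le_sum A (fun j => (nbr H U f y j).card) 1
            (fun j hj => hstar y hy j hj)
          simpa using this
        omega
      have hIHB : ∀ y ∈ B, Equit H c (C \ A) (B.erase y) := by
        intro y hy
        refine IH (C \ A) (B.erase y) ?_ ?_ ?_
        · have : 1 ≤ A.card := card_pos.2 ⟨i0, hi0A⟩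
          omega
        · have := card_erase_add_one hy
          omega
        · intro v hv
          exact lt_of_le_of_lt (card_le_card (filter_subset_filter _ (erase_subset _ _)))
            (hdegB v (mem_of_mem_erase hv))
      -- the sets `T u`
      let T : ℕ → Finset ℕ := fun u => A.filter (fun w => w ≠ u ∧ ¬ Reach H U f i0 (C.erase u) w)
      have hmT : ∀ u w, w ∈ T u ↔ w ∈ A ∧ w ≠ u ∧ ¬ Reach H U f i0 (C.erase u) w := by
        intro u w
        exact mem_filter
      have hA2 : (A.filter (fun u => (T u).Nonempty)).Nonempty := by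
        refine ⟨i0, mem_filter.2 ⟨hi0A, ?_⟩⟩
        -- there is a class other than `i0` in `A`
        have : ∃ w ∈ A, w ≠ i0 := by
          by_contra hcon
          push Not at hcon
          have hA1 : A = {i0} := by
            ext w
            rw [mem_singleton]
            exact ⟨fun h => hcon w h, fun h => h ▸ hi0A⟩
          have hA1c : A.card = 1 := by rw [hA1, card_singleton]
          have e1 : B.card ≤ ∑ x ∈ cls U f i0, (B.filter (fun y => H.Adj x y)).card := by
            have : B ⊆ (cls U f i0).biUnion (fun x => B.filter (fun y => H.Adj x y)) := by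
              intro y hy
              obtain ⟨x, hx⟩ := card_pos.1 (hstar y hy i0 hi0A)
              have hx' := mem_nbr.1 hx
              exact mem_biUnion.2 ⟨x, mem_cls.2 hx'.1, mem_filter.2 ⟨hy, hx'.2.symm⟩⟩
            exact (card_le_card this).trans card_biUnion_le
          have e2 : ∑ x ∈ cls U f i0, (B.filter (fun y => H.Adj x y)).card
              ≤ (cls U f i0).card * (C \ A).card := by
            have := sum_le_card_nsmul (cls U f i0) (fun x => (B.filter (fun y => H.Adj x y)).card)
              (C \ A).card (fun x hx => by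
                have h3 := hdeg x (mem_cls.1 hx).1
                have h4 := card_le_card (filter_subset_filter (fun y => H.Adj x y) hBU)
                omega)
            simpa using this
          have e3 := hsizeA i0 hi0A
          rw [if_pos rfl] at e3
          have e4 : (cls U f i0).card * (C \ A).card ≤ c * (C \ A).card :=
            Nat.mul_le_mul_right _ (by omega)
          have e5 : c * (C \ A).card = (C \ A).card * c := Nat.mul_comm _ _
          omega
        obtain ⟨w, hw, hw0⟩ := this
        exact ⟨w, (hmT i0 w).2 ⟨hw, hw0, fun h => (mem_erase.1 h.mem0).1 rfl⟩⟩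
      obtain ⟨u, huA', humin⟩ := exists_min_image _ (fun u => (T u).card) hA2
      obtain ⟨huA, hTu⟩ := mem_filter.1 huA'
      have huT : u ∉ T u := fun h => ((hmT u u).1 h).2.1 rfl
      have hTA : T u ⊆ A := filter_subset _ _
      have hTi0 : ∀ W ∈ T u, W ≠ i0 := by
        rintro W hW rfl
        have hW' := (hmT u W).1 hW
        exact hW'.2.2 (Reach.base _ (mem_erase.2 ⟨hW'.2.1, h0⟩))
      -- every class in `T u` is terminal
      have hterm : ∀ W ∈ T u, ∀ X ∈ A, X ≠ W → Reach H U f i0 (A.erase W) X := by
        intro W hW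
        have hW' := (hmT u W).1 hW
        have hTW : T W = ∅ := by
          by_contra hne
          have hne' : (T W).Nonempty := nonempty_iff_ne_empty.2 hne
          have h3 := humin W (mem_filter.2 ⟨hW'.1, hne'⟩)
          have h4 : T W ⊂ T u := by
            refine ⟨?_, fun h => ((hmT W W).1 (h hW)).2.1 rfl⟩
            intro X hX
            have hX' := (hmT W X).1 hX
            have hXu : X ≠ u := by
              rintro rfl
              apply hX'.2.2
              have hru := ((hmA X).1 huA).2
              cases hru with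
              | base _ h => exact Reach.base _ (mem_erase.2 ⟨(hTi0 W hW).symm, h0⟩)
              | step _ _ j hi hm hr' =>
                  rcases hr'.avoid W with h | h
                  · refine Reach.step _ _ j (mem_erase.2 ⟨hX'.2.1, hi⟩) hm ?_
                    rw [erase_right_comm]
                    exact h
                  · exact absurd h hW'.2.2
            refine (hmT u X).2 ⟨hX'.1, hXu, fun h => hX'.2.2 ?_⟩
            rcases h.avoid W with h' | h'
            · refine h'.mono ?_
              rw [erase_right_comm]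
              exact erase_subset _ _
            · exact absurd h' hW'.2.2
          exact absurd (card_lt_card h4) (not_lt.2 h3)
        intro X hX hXW
        have h5 : Reach H U f i0 (C.erase W) X := by
          by_contra h
          have : X ∈ T W := (hmT W X).2 ⟨hX, hXW, h⟩
          rw [hTW] at this
          exact notMem_empty _ this
        have h6 := h5.restrict (erase_subset W C)
        refine h6.mono ?_
        intro l hl
        obtain ⟨h7, h8⟩ := mem_filter.1 hl
        exact mem_erase.2 ⟨(mem_erase.1 h7).1, (hmA l).2 ⟨(mem_erase.1 h7).2, h8⟩⟩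
      -- Case 1
      by_cases hc1 : ∃ W ∈ T u, ∃ z ∈ cls U f W, ∃ y ∈ B, nbr H U f y W = {z} ∧
          ∃ X ∈ A, X ≠ W ∧ ∀ x ∈ U, f x = X → ¬ H.Adj z x
      · obtain ⟨W, hW, z, hz, y, hy, hN, X, hX, hXW, hzX⟩ := hc1
        exact case1 hAC hB hp hsizeA (mem_cls.1 hz).1 (mem_cls.1 hz).2 (hTA hW) hy hN hX hXW hzX
          (hterm W hW X hX hXW) (hIHB y hy)
      have hno1 : ∀ W ∈ T u, ∀ z ∈ cls U f W, (∃ y ∈ B, nbr H U f y W = {z}) →
          ∀ j ∈ A, j ≠ W → 1 ≤ (nbr H U f z j).card := by
        intro W hW z hz hy j hj hjW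
        obtain ⟨y, hy, hN⟩ := hy
        by_contra hlt
        have h0' : nbr H U f z j = ∅ := card_eq_zero.1 (by omega)
        refine hc1 ⟨W, hW, z, hz, y, hy, hN, j, hj, hjW, fun x hx hxj hadj => ?_⟩
        have : x ∈ nbr H U f z j := mem_nbr.2 ⟨⟨hx, hxj⟩, hadj⟩
        rw [h0'] at this
        exact notMem_empty _ this
      -- Case 2
      by_cases hc2 : ∃ W ∈ T u, ∃ z ∈ cls U f W, ∃ y1 ∈ B, ∃ y2 ∈ B, y1 ≠ y2 ∧
          nbr H U f y1 W = {z} ∧ nbr H U f y2 W = {z} ∧ ¬ H.Adj y1 y2
      · obtain ⟨W, hW, z, hz, y1, hy1, y2, hy2, h12, hN1, hN2, hna⟩ := hc2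
        obtain ⟨F, Y, hY, hFC, hFp, hFs, hFA, Y2, hY2, hFY2⟩ :=
          case2 hA hi0A hB hfC hp hsizeA hdeg (mem_cls.1 hz).1 (mem_cls.1 hz).2 (hTA hW)
            (hTi0 W hW) (hterm W hW) hy1 hN1 hy2 hN2 h12 hna (hno1 W hW z hz ⟨y1, hy1, hN1⟩)
            (hIHB y1 hy1)
        have hYi0 : i0 ≠ Y := fun h => (mem_sdiff.1 hY).2 (h ▸ hi0A)
        refine ihm F i0 Y ?_ hFC hFp h0 (mem_sdiff.1 hY).1 hYi0 hFs
        have h3 : C.filter (fun i => ¬ Reach H U F i0 C i)
            ⊂ C.filter (fun i => ¬ Reach H U f i0 C i) := by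
          refine ⟨?_, fun h => ?_⟩
          · intro l hl
            obtain ⟨hlC, hlF⟩ := mem_filter.1 hl
            refine mem_filter.2 ⟨hlC, fun h => hlF (hFA l ((hmA l).2 ⟨hlC, h⟩))⟩
          · have h4 : Y2 ∈ C.filter (fun i => ¬ Reach H U f i0 C i) := hCA ▸ hY2
            exact (mem_filter.1 (h h4)).2 hFY2
        have := card_lt_card h3
        omega
      have hno2 : ∀ W ∈ T u, ∀ z ∈ cls U f W, ∀ y1 ∈ B, ∀ y2 ∈ B, y1 ≠ y2 →
          nbr H U f y1 W = {z} → nbr H U f y2 W = {z} → H.Adj y1 y2 := by
        intro W hW z hz y1 hy1 y2 hy2 h12 hN1 hN2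
        by_contra hna
        exact hc2 ⟨W, hW, z, hz, y1, hy1, y2, hy2, h12, hN1, hN2, hna⟩
      exfalso
      refine count_false (A := A) (T := T u) (B := B) (q := (C \ A).card) (c := c) (u := u) hB hTA
        hTu huA huT ?_ hBcard ?_ hstar ?_ hno1 hno2
      · intro v hv
        have := hdeg v hv
        omega
      · intro W hW
        have := hsizeA W (hTA hW)
        rwa [if_neg (hTi0 W hW), Nat.add_zero] at this
      · intro W hW z hz j hj hju hjT
        by_contra hlt
        have h0' : nbr H U f z j = ∅ := card_eq_zero.1 (by omega)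
        have hW' := (hmT u W).1 hW
        have hjr : Reach H U f i0 (C.erase u) j := by
          by_contra h
          exact hjT ((hmT u j).2 ⟨hj, hju, h⟩)
        refine hW'.2.2 (Reach.cons (mem_erase.2 ⟨hW'.2.1, hAC hW'.1⟩)
          ⟨z, (mem_cls.1 hz).1, (mem_cls.1 hz).2, ?_⟩ hjr)
        intro x hx hxj hadj
        have : x ∈ nbr H U f z j := mem_nbr.2 ⟨⟨hx, hxj⟩, hadj⟩
        rw [h0'] at this
        exact notMem_empty _ this

lemma equit_empty (c : ℕ) (C : Finset ℕ) : ∀ U : Finset V, U.card = C.card * c →
    ∃ f : V → ℕ, (∀ v ∈ U, f v ∈ C) ∧ ∀ l ∈ C, (cls U f l).card = c := by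
  induction C using Finset.induction_on with
  | empty =>
      intro U hU
      have : U = ∅ := card_eq_zero.1 (by simpa using hU)
      subst this
      exact ⟨fun _ => 0, by simp, by simp⟩
  | insert a C ha ih =>
      intro U hU
      rw [card_insert_of_notMem ha] at hU
      obtain ⟨U1, hU1, hU1c⟩ := exists_subset_card_eq (show c ≤ U.card by rw [hU]; nlinarith)
      have hc2 : (U \ U1).card = C.card * c := by
        have := card_sdiff_add_card_eq_card hU1
        have e : (C.card + 1) * c = C.card * c + c := by ring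
        omega
      obtain ⟨g, hg1, hg2⟩ := ih (U \ U1) hc2
      refine ⟨fun v => if v ∈ U1 then a else g v, ?_, ?_⟩
      · intro v hv
        by_cases h : v ∈ U1
        · simp [h]
        · simp only [h, if_false]
          exact mem_insert_of_mem (hg1 v (mem_sdiff.2 ⟨hv, h⟩))
      · intro l hl
        by_cases hla : l = a
        · subst hla
          rw [← hU1c]
          congr 1
          ext v
          simp only [mem_cls]
          constructor
          · rintro ⟨hv, h⟩
            by_contra hv1
            simp only [hv1, if_false] at h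
            exact ha (h ▸ hg1 v (mem_sdiff.2 ⟨hv, hv1⟩))
          · intro hv
            exact ⟨hU1 hv, by simp [hv]⟩
        · have hlC : l ∈ C := (mem_insert.1 hl).resolve_left hla
          rw [← hg2 l hlC]
          congr 1
          ext v
          simp only [mem_cls, mem_sdiff]
          constructor
          · rintro ⟨hv, h⟩
            by_cases hv1 : v ∈ U1
            · simp only [hv1, if_true] at h
              exact absurd h.symm hla
            · simp only [hv1, if_false] at h
              exact ⟨⟨hv, hv1⟩, h⟩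
          · rintro ⟨⟨hv, hv1⟩, h⟩
            exact ⟨hv, by simp only [hv1, if_false]; exact h⟩

/-- the graph keeping only the edges inside `S` -/
def restr (H : SimpleGraph V) (S : Finset V) : SimpleGraph V where
  Adj a b := H.Adj a b ∧ a ∈ S ∧ b ∈ S
  symm := ⟨fun _ _ h => ⟨h.1.symm, h.2.2, h.2.1⟩⟩
  loopless := ⟨fun _ h => H.loopless.irrefl _ h.1⟩

/-- **Hajnal-Szemeredi theorem**, exact form. -/
theorem hajnal_szemeredi (c : ℕ) : ∀ (k : ℕ) (H : SimpleGraph V) (C : Finset ℕ) (U : Finset V),
    C.card = k → U.card = C.card * c →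
    (∀ v ∈ U, (U.filter (fun x => H.Adj v x)).card < C.card) → Equit H c C U := by
  intro k
  induction k using Nat.strong_induction_on with
  | _ k ih =>
      intro H C U hCk hU hdeg
      have key : ∀ S : Finset V, S ⊆ U → Equit (restr H S) c C U := by
        intro S
        induction S using Finset.induction_on with
        | empty =>
            intro _
            obtain ⟨f, h1, h2⟩ := equit_empty c C U hU
            exact ⟨f, h1, fun a _ b _ hab => absurd hab.2.1 (notMem_empty _), h2⟩
        | insert a S ha ihS =>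
            intro hS
            have haU : a ∈ U := hS (mem_insert_self _ _)
            obtain ⟨f, hfC, hfp, hfc⟩ := ihS ((subset_insert _ _).trans hS)
            set H' := restr H (insert a S) with hH'
            have hdeg' : ∀ v ∈ U, (U.filter (fun x => H'.Adj v x)).card < C.card := by
              intro v hv
              refine lt_of_le_of_lt (card_le_card ?_) (hdeg v hv)
              intro x hx
              have := mem_filter.1 hx
              exact mem_filter.2 ⟨this.1, this.2.1⟩
            -- a colour free for `a`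
            obtain ⟨j, hj, hjfree⟩ : ∃ j ∈ C, ∀ x ∈ U, f x = j → ¬ H'.Adj a x := by
              by_contra hcon
              push Not at hcon
              have : C ⊆ (U.filter (fun x => H'.Adj a x)).image f := by
                intro j hj
                obtain ⟨x, hx, hxj, hadj⟩ := hcon j hj
                exact mem_image.2 ⟨x, mem_filter.2 ⟨hx, hadj⟩, hxj⟩
              have := (card_le_card this).trans card_image_le
              have := hdeg' a haU
              omega
            have hpf : ∀ x ∈ U, ∀ y ∈ U, x ≠ a → y ≠ a → H'.Adj x y → f x ≠ f y := by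
              intro x hx y hy hxa hya hadj
              refine hfp x hx y hy ⟨hadj.1, ?_, ?_⟩
              · exact (mem_insert.1 hadj.2.1).resolve_left hxa
              · exact (mem_insert.1 hadj.2.2).resolve_left hya
            set F := Function.update f a j with hF
            have hFp : Prp H' U F := by
              intro x hx y hy hadj
              by_cases hxa : x = a
              · have hya : y ≠ a := fun (h : y = a) => H'.loopless.irrefl x (by rw [h, ← hxa] at hadj; exact hadj)
                rw [hF, hxa, Function.update_self, Function.update_of_ne hya]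
                exact fun h => hjfree y hy h.symm (hxa ▸ hadj)
              · by_cases hya : y = a
                · rw [hF, hya, Function.update_self, Function.update_of_ne hxa]
                  exact fun h => hjfree x hx h (hya ▸ hadj.symm)
                · rw [hF, Function.update_of_ne hxa, Function.update_of_ne hya]
                  exact hpf x hx y hy hxa hya hadj
            have hFC : ∀ v ∈ U, F v ∈ C := by
              intro v hv
              by_cases hva : v = a
              · rw [hF, hva, Function.update_self]; exact hj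
              · rw [hF, Function.update_of_ne hva]; exact hfC v hv
            have hFs : ∀ l, (cls U F l).card + (if l = f a then 1 else 0)
                = (cls U f l).card + (if l = j then 1 else 0) := fun l =>
              card_update (U := U) (g := f) (y := a) (i := f a) (j := j) haU rfl l
            by_cases hja : j = f a
            · refine ⟨F, hFC, hFp, fun l hl => ?_⟩
              have e1 := hFs l
              have e2 := hfc l hl
              rw [hja] at e1
              omega
            · refine nearly (H := H') (U := U) hU hdeg' ?_ (C.card) F (f a) j ?_ hFC hFp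
                (hfC a haU) hj (fun (h : f a = j) => hja h.symm) ?_
              · intro C' U' hC' hU' hd'
                exact ih C'.card (hCk ▸ hC') H' C' U' rfl hU' hd'
              · exact card_filter_le _ _
              · intro l hl
                have e1 := hFs l
                have e2 := hfc l hl
                omega
      obtain ⟨f, h1, h2, h3⟩ := key U (Subset.refl _)
      exact ⟨f, h1, fun a ha b hb hab => h2 a ha b hb ⟨hab, ha, hb⟩, h3⟩

end Pool.Agent.Helper4MT
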