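import Pool.Agent.Helper4MT.LemY
import Pool.Agent.Helper4MT.HS

/-!
# The exact bound for graphs without a clique on nine vertices
-/

set_option autoImplicit false

namespace Pool.Agent.Helper4MT

open Finset

open scoped Classical

universe u

variable {V : Type u} {G : SimpleGraph V} {c : Sym2 V → Bool}

/-- non-neighbours of `v` in `U` (other than `v`) -/
noncomputable def nn (G : SimpleGraph V) (U : Finset V) (v : V) : Finset V :=
  U.filter (fun x => Gᶜ.Adj v x)

lemma mem_nn {U : Finset V} {v x : V} : x ∈ nn G U v ↔ x ∈ U ∧ v ≠ x ∧ ¬ G.Adj v x := by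
  simp [nn, SimpleGraph.compl_adj]

lemma nn_mono {U W : Finset V} (h : U ⊆ W) (v : V) : nn G U v ⊆ nn G W v :=
  filter_subset_filter _ h

lemma nn_symm {U W : Finset V} {v x : V} (hv : v ∈ W) (hx : x ∈ nn G U v) : v ∈ nn G W x := by
  obtain ⟨_, h2, h3⟩ := mem_nn.1 hx
  exact mem_nn.2 ⟨hv, h2.symm, fun h => h3 h.symm⟩

/-- the vertices of `W` joined to everything in `I` -/
lemma exists_common {W I : Finset V} {k : ℕ} (hk : ∀ v ∈ W, (nn G W v).card < k) (hI : I ⊆ W)
    (hc : I.card * k < W.card) : ∃ w ∈ W, w ∉ I ∧ ∀ x ∈ I, G.Adj w x := by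
  by_contra hcon
  push Not at hcon
  have h1 : W ⊆ I.biUnion (fun v => insert v (nn G W v)) := by
    intro w hw
    by_cases hwI : w ∈ I
    · exact mem_biUnion.2 ⟨w, hwI, mem_insert_self _ _⟩
    · obtain ⟨x, hx, hwx⟩ := hcon w hw hwI
      refine mem_biUnion.2 ⟨x, hx, mem_insert_of_mem (mem_nn.2 ⟨hw, ?_, fun h => hwx h.symm⟩)⟩
      rintro rfl
      exact hwI hx
  have h2 := (card_le_card h1).trans (card_biUnion_le_card_mul I _ k (fun v hv => by
    have := hk v (hI hv)
    have h3 := card_insert_le v (nn G W v)
    omega))
  omega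

lemma clique_insert {I : Finset V} {w : V} (hI : G.IsClique (I : Set V))
    (hw : ∀ x ∈ I, G.Adj w x) : G.IsClique ((insert w I : Finset V) : Set V) := by
  rw [coe_insert]
  exact hI.insert fun b hb _ => hw b (mem_coe.1 hb)

/-- greedy cliques -/
lemma exists_clique {W : Finset V} {k : ℕ} (hk : ∀ v ∈ W, (nn G W v).card < k) :
    ∀ j : ℕ, (∀ i < j, i * k < W.card) → ∃ I ⊆ W, I.card = j ∧ G.IsClique (I : Set V) := by
  intro j
  induction j with
  | zero => exact fun _ => ⟨∅, by simp, by simp, by simp⟩
  | succ j ih =>
      intro h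
      obtain ⟨I, hI, hIc, hIq⟩ := ih fun i hi => h i (by omega)
      obtain ⟨w, hw, hwI, hwa⟩ := exists_common hk hI (by rw [hIc]; exact h j (by omega))
      exact ⟨insert w I, insert_subset hw hI, by rw [card_insert_of_notMem hwI, hIc],
        clique_insert hIq hwa⟩

lemma nn_sdiff_add {U K : Finset V} (hK : K ⊆ U) (v : V) :
    (nn G (U \ K) v).card + (nn G K v).card = (nn G U v).card := by
  have h : nn G U v = nn G (U \ K) v ∪ nn G K v := by
    ext x
    simp only [mem_nn, mem_union, mem_sdiff]
    constructor
    · rintro ⟨h1, h2⟩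
      by_cases hx : x ∈ K
      · exact Or.inr ⟨hx, h2⟩
      · exact Or.inl ⟨⟨h1, hx⟩, h2⟩
    · rintro (⟨⟨h1, _⟩, h2⟩ | ⟨h1, h2⟩)
      · exact ⟨h1, h2⟩
      · exact ⟨hK h1, h2⟩
  rw [h, card_union_of_disjoint]
  rw [disjoint_left]
  intro x hx hx'
  exact (mem_sdiff.1 (mem_nn.1 hx).1).2 (mem_nn.1 hx').1

/-- tilings of the classes of a colouring add up -/
lemma til_classes {U : Finset V} {f : V → ℕ} {C : Finset ℕ} {m : ℕ → ℕ}
    (h : ∀ l ∈ C, Til G c (cls U f l) (m l)) : Til G c U (∑ l ∈ C, m l) := by
  have key : ∀ D : Finset ℕ, D ⊆ C → Til G c (D.biUnion (fun l => cls U f l)) (∑ l ∈ D, m l) := by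
    intro D
    induction D using Finset.induction_on with
    | empty => exact fun _ => til_zero _
    | insert a D ha ih =>
        intro hD
        rw [sum_insert ha, biUnion_insert]
        refine (h a (hD (mem_insert_self _ _))).union (ih ((subset_insert _ _).trans hD)) ?_
        rw [disjoint_left]
        intro x hx hx'
        obtain ⟨l, hl, hxl⟩ := mem_biUnion.1 hx'
        have h1 := (mem_cls.1 hx).2
        have h2 := (mem_cls.1 hxl).2
        exact ha ((h1.symm.trans h2) ▸ hl)
  refine (key C (Subset.refl _)).mono ?_ le_rfl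
  intro x hx
  obtain ⟨l, _, hxl⟩ := mem_biUnion.1 hx
  exact (mem_cls.1 hxl).1

/-- perfect tilings of `6 k` vertices with cliques on six vertices -/
lemma til_six_mul {U : Finset V} {k : ℕ} (hU : U.card = 6 * k)
    (hk : ∀ v ∈ U, (nn G U v).card < k) : Til G c U k := by
  obtain ⟨f, hf, hp, hs⟩ := hajnal_szemeredi 6 k Gᶜ (range k) U (card_range k)
    (by rw [card_range, hU]; ring) (by
      intro v hv
      rw [card_range]
      refine lt_of_le_of_lt (card_le_card ?_) (hk v hv)
      intro x hx
      simpa [nn] using hx)
  have := til_classes (G := G) (c := c) (U := U) (f := f) (C := range k) (m := fun _ => 1)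
    (fun l hl => til_six (by
      intro x hx y hy hxy
      have hx' := mem_cls.1 (mem_coe.1 hx)
      have hy' := mem_cls.1 (mem_coe.1 hy)
      by_contra hn
      exact hp x hx'.1 y hy'.1 ⟨hxy, hn⟩ (hx'.2.trans hy'.2.symm)) (hs l hl).ge)
  simpa using this

/-- the main induction for graphs without nine-cliques -/
theorem til_nine : ∀ (n k : ℕ) (U : Finset V), U.card = n → 6 * k ≤ n →
    (∀ v ∈ U, (nn G U v).card < k) →
    (∀ Q ⊆ U, G.IsClique (Q : Set V) → Q.card < 9) → Til G c U ((n - 4 * k) / 2) := by
  intro n
  induction n using Nat.strong_induction_on with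
  | _ n ih =>
      intro k U hU hkn hk h9
      by_cases hodd : n % 2 = 1
      · -- odd case: leave out one vertex
        obtain ⟨v, hv⟩ := card_pos.1 (by omega : 0 < U.card)
        have hc : (U.erase v).card = n - 1 := by rw [card_erase_of_mem hv, hU]
        have := ih (n - 1) (by omega) k (U.erase v) hc (by omega)
          (fun x hx => lt_of_le_of_lt (card_le_card (nn_mono (erase_subset _ _) x))
            (hk x (mem_of_mem_erase hx)))
          (fun Q hQ => h9 Q (hQ.trans (erase_subset _ _)))
        exact this.mono (erase_subset _ _) (by omega)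
      by_cases h6 : n = 6 * k
      · have := til_six_mul (c := c) (by omega : U.card = 6 * k) hk
        exact this.mono (Subset.refl _) (by omega)
      have hn : 6 * k + 2 ≤ n := by omega
      have hne : U.Nonempty := card_pos.1 (by omega)
      have hk1 : 1 ≤ k := by
        obtain ⟨v, hv⟩ := hne
        have := hk v hv
        omega
      by_cases h8 : ∃ Q ⊆ U, G.IsClique (Q : Set V) ∧ Q.card = 8
      · obtain ⟨Q, hQU, hQ, hQc⟩ := h8
        have hc : (U \ Q).card = n - 8 := by
          have := card_sdiff_add_card_eq_card hQU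
          omega
        have h1 : ∀ v ∈ U \ Q, 1 ≤ (nn G Q v).card := by
          intro v hv
          obtain ⟨hvU, hvQ⟩ := mem_sdiff.1 hv
          by_contra hlt
          have h0 : nn G Q v = ∅ := card_eq_zero.1 (by omega)
          have hadj : ∀ x ∈ Q, G.Adj v x := by
            intro x hx
            by_contra hna
            have : x ∈ nn G Q v := mem_nn.2 ⟨hx, fun h => hvQ (h ▸ hx), hna⟩
            rw [h0] at this
            exact notMem_empty _ this
          have := h9 (insert v Q) (insert_subset hvU hQU) (clique_insert hQ hadj)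
          rw [card_insert_of_notMem hvQ] at this
          omega
        have h2 := ih (n - 8) (by omega) (k - 1) (U \ Q) hc (by omega) (fun v hv => by
          have e1 := nn_sdiff_add (G := G) hQU v
          have e2 := hk v (mem_sdiff.1 hv).1
          have e3 := h1 v hv
          omega) (fun Q' hQ' => h9 Q' (hQ'.trans sdiff_subset))
        have h3 := (til_eight (c := c) hQ hQc.ge).union h2 disjoint_sdiff
        exact h3.mono (union_subset hQU sdiff_subset) (by omega)
      -- no cliques on eight vertices
      have hno8 : ∀ Q ⊆ U, G.IsClique (Q : Set V) → Q.card < 8 := by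
        intro Q hQU hQ
        by_contra hge
        obtain ⟨Q', hQ', hQc'⟩ := exists_subset_card_eq (show 8 ≤ Q.card by omega)
        exact h8 ⟨Q', hQ'.trans hQU, hQ.subset (coe_subset.2 hQ'), hQc'⟩
      obtain ⟨K, hKU, hKc, hK⟩ := exists_clique hk 7 (fun i hi => by
        rw [hU]
        have : i * k ≤ 6 * k := Nat.mul_le_mul_right _ (by omega)
        omega)
      have hdom : ∀ K ⊆ U, G.IsClique (K : Set V) → K.card = 7 → ∀ v ∈ U, v ∉ K →
          1 ≤ (nn G K v).card := by
        intro K hKU hK hKc v hvU hvK
        by_contra hlt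
        have h0 : nn G K v = ∅ := card_eq_zero.1 (by omega)
        have hadj : ∀ x ∈ K, G.Adj v x := by
          intro x hx
          by_contra hna
          have : x ∈ nn G K v := mem_nn.2 ⟨hx, fun h => hvK (h ▸ hx), hna⟩
          rw [h0] at this
          exact notMem_empty _ this
        have := hno8 (insert v K) (insert_subset hvU hKU) (clique_insert hK hadj)
        rw [card_insert_of_notMem hvK] at this
        omega
      have hVc : (U \ K).card = n - 7 := by
        have := card_sdiff_add_card_eq_card hKU
        omega
      have hVd : ∀ v ∈ U \ K, (nn G (U \ K) v).card < k - 1 := by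
        intro v hv
        obtain ⟨hvU, hvK⟩ := mem_sdiff.1 hv
        have e1 := nn_sdiff_add (G := G) hKU v
        have e2 := hk v hvU
        have e3 := hdom K hKU hK hKc v hvU hvK
        omega
      have hk2 : 2 ≤ k := by
        obtain ⟨v, hv⟩ := card_pos.1 (by omega : 0 < (U \ K).card)
        have := hVd v hv
        omega
      set O := (U \ K).filter (fun v => (nn G K v).card = 1) with hO
      have hOc : 5 * (k - 1) < O.card := by
        have e1 : ∑ v ∈ U \ K, (nn G K v).card = ∑ y ∈ K, (nn G (U \ K) y).card := by
          have := sum_card_bipartiteAbove_eq_sum_card_bipartiteBelow (s := U \ K) (t := K)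
            (fun v y => Gᶜ.Adj v y)
          simp only [bipartiteAbove, bipartiteBelow] at this
          rw [show (∑ v ∈ U \ K, (nn G K v).card)
            = ∑ v ∈ U \ K, (K.filter (fun y => Gᶜ.Adj v y)).card from rfl, this]
          refine sum_congr rfl fun y _ => ?_
          congr 1
          ext v
          simp only [mem_filter, nn, Gᶜ.adj_comm y v]
        have e2 : ∑ y ∈ K, (nn G (U \ K) y).card ≤ K.card * (k - 1) := by
          have := sum_le_card_nsmul K (fun y => (nn G (U \ K) y).card) (k - 1) (fun y hy => by
            have h1 := hk y (hKU hy)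
            have h2 := card_le_card (nn_mono (G := G) (sdiff_subset (s := U) (t := K)) y)
            omega)
          simpa using this
        have e3 : 2 * (U \ K).card ≤ ∑ v ∈ U \ K, (nn G K v).card + O.card := by
          have k1 : ∑ v ∈ U \ K, 2 ≤ ∑ v ∈ U \ K,
              ((nn G K v).card + if (nn G K v).card = 1 then 1 else 0) := by
            refine sum_le_sum fun v hv => ?_
            obtain ⟨hvU, hvK⟩ := mem_sdiff.1 hv
            have := hdom K hKU hK hKc v hvU hvK
            split_ifs with h
            · omega
            · omega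
          rw [sum_add_distrib, sum_boole] at k1
          simp only [sum_const, smul_eq_mul, Nat.cast_id] at k1
          rw [hO]
          omega
        rw [hKc] at e2
        omega
      have hOV : O ⊆ U \ K := filter_subset _ _
      obtain ⟨I, hIO, hIc, hI⟩ := exists_clique (W := O) (k := k - 1) (fun v hv =>
        lt_of_le_of_lt (card_le_card (nn_mono hOV v)) (hVd v (hOV hv))) 6 (fun i hi => by
        have : i * (k - 1) ≤ 5 * (k - 1) := Nat.mul_le_mul_right _ (by omega)
        omega)
      have hIV : I ⊆ U \ K := hIO.trans hOV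
      obtain ⟨w, hwV, hwI, hwa⟩ := exists_common hVd hIV (by rw [hIc, hVc]; omega)
      set K' := insert w I with hK'
      have hK'c : K'.card = 7 := by rw [hK', card_insert_of_notMem hwI, hIc]
      have hK'q : G.IsClique (K' : Set V) := clique_insert hI hwa
      have hK'V : K' ⊆ U \ K := insert_subset hwV hIV
      have hdis : Disjoint K K' := disjoint_left.2 fun x hx hx' => (mem_sdiff.1 (hK'V hx')).2 hx
      -- partners
      have hpart : ∀ z ∈ I, ∃ t ∈ K, nn G K z = {t} := by
        intro z hz
        obtain ⟨t, ht⟩ := card_eq_one.1 (mem_filter.1 (hIO hz)).2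
        exact ⟨t, (mem_nn.1 (by rw [ht]; exact mem_singleton_self _ : t ∈ nn G K z)).1, ht⟩
      have hadjp : ∀ z ∈ I, ∀ t, nn G K z = {t} → ∀ x ∈ K, x ≠ t → G.Adj z x := by
        intro z hz t ht x hx hxt
        by_contra hna
        have hzK : z ∉ K := (mem_sdiff.1 (hIV hz)).2
        have : x ∈ nn G K z := mem_nn.2 ⟨hx, fun h => hzK (h ▸ hx), hna⟩
        rw [ht] at this
        exact hxt (mem_singleton.1 this)
      let p : V → V := fun z => if h : ∃ t ∈ K, nn G K z = {t} then h.choose else z
      have hp : ∀ z ∈ I, p z ∈ K ∧ nn G K z = {p z} := by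
        intro z hz
        have h := hpart z hz
        simp only [p, h, dif_pos]
        exact h.choose_spec
      have hinj : Set.InjOn p (I : Set V) := by
        intro z hz z' hz' hzz
        by_contra hne
        obtain ⟨h1, h2⟩ := hp z (mem_coe.1 hz)
        obtain ⟨h1', h2'⟩ := hp z' (mem_coe.1 hz')
        rw [← hzz] at h2'
        have hzK : z ∉ K := (mem_sdiff.1 (hIV (mem_coe.1 hz))).2
        have hz'K : z' ∉ K := (mem_sdiff.1 (hIV (mem_coe.1 hz'))).2
        have q1 : G.IsClique ((insert z' (K.erase (p z)) : Finset V) : Set V) :=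
          clique_insert (hK.subset (coe_subset.2 (erase_subset _ _))) (fun x hx =>
            hadjp z' (mem_coe.1 hz') _ h2' x (mem_of_mem_erase hx) (ne_of_mem_erase hx))
        have q2 : G.IsClique ((insert z (insert z' (K.erase (p z))) : Finset V) : Set V) := by
          refine clique_insert q1 (fun x hx => ?_)
          rcases mem_insert.1 hx with h | h
          · rw [h]
            exact hI hz hz' hne
          · exact hadjp z (mem_coe.1 hz) _ h2 x (mem_of_mem_erase h) (ne_of_mem_erase h)
        have q3 := hno8 _ (insert_subset (mem_sdiff.1 (hIV (mem_coe.1 hz))).1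
          (insert_subset (mem_sdiff.1 (hIV (mem_coe.1 hz'))).1
            ((erase_subset (p z) K).trans hKU))) q2
        have q4 : z' ∉ K.erase (p z) := fun h => hz'K (mem_of_mem_erase h)
        have q5 : z ∉ insert z' (K.erase (p z)) := by
          intro h
          rcases mem_insert.1 h with h | h
          · exact hne h
          · exact hzK (mem_of_mem_erase h)
        rw [card_insert_of_notMem q5, card_insert_of_notMem q4, card_erase_of_mem h1, hKc] at q3
        omega
      have hgood : Til G c (K ∪ K') 3 := by
        refine til_pair hK hK'q hKc hK'c hdis (A := I.image p) ?_ ?_ ?_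
        · intro t ht
          obtain ⟨z, hz, rfl⟩ := mem_image.1 ht
          exact (hp z hz).1
        · rw [card_image_of_injOn hinj, hIc]
          omega
        · intro t ht
          obtain ⟨z, hz, rfl⟩ := mem_image.1 ht
          exact ⟨z, mem_insert_of_mem hz, hadjp z hz _ (hp z hz).2⟩
      have hKK : K ∪ K' ⊆ U := union_subset hKU (hK'V.trans sdiff_subset)
      have hc2 : (U \ (K ∪ K')).card = n - 14 := by
        have e1 := card_sdiff_add_card_eq_card hKK
        have e2 := card_union_of_disjoint hdis
        omega
      have h2 := ih (n - 14) (by omega) (k - 2) (U \ (K ∪ K')) hc2 (by omega) (fun v hv => by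
        obtain ⟨hvU, hvK⟩ := mem_sdiff.1 hv
        have hvK1 : v ∉ K := fun h => hvK (mem_union_left _ h)
        have hvK2 : v ∉ K' := fun h => hvK (mem_union_right _ h)
        have e1 := nn_sdiff_add (G := G) hKU v
        have e2 := nn_sdiff_add (G := G) hK'V v
        have e3 := hk v hvU
        have e4 := hdom K hKU hK hKc v hvU hvK1
        have e5 := hdom K' (hK'V.trans sdiff_subset) hK'q hK'c v hvU hvK2
        rw [show U \ (K ∪ K') = (U \ K) \ K' from by
          ext x; simp only [mem_sdiff, mem_union, not_or]; tauto]
        omega) (fun Q' hQ' => h9 Q' (hQ'.trans sdiff_subset))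
      have h3 := hgood.union h2 disjoint_sdiff
      exact h3.mono (union_subset hKK sdiff_subset) (by omega)

end Pool.Agent.Helper4MT
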