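import Pool.Agent.Helper4MT.Basic

/-!
# Lemma Y: seven-cliques with two private outside neighbours

This is the local colouring lemma.  `Y` is a clique on seven vertices, `t1 t2 t3` a monochromatic
triangle of `Y`, and `z1`, `z2` are outside vertices such that `z1` is joined to `Y` minus `t1` and
`z2` to `Y` minus `t2`.  Then `Y + z1` or `Y + z2` has two disjoint monochromatic triangles.
-/

set_option autoImplicit false

namespace Pool.Agent.Helper4MT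

open Finset

open scoped Classical

universe u

variable {V : Type u} {G : SimpleGraph V} {c : Sym2 V → Bool}

section

set_option maxRecDepth 100000
set_option synthInstance.maxSize 100000
set_option synthInstance.maxHeartbeats 4000000

lemma boolY : ∀ e p1 p2 p3 p4 q1 q2 q3 q4 : Bool,
    ¬(p1 = e ∧ p2 = e ∧ q3 = e ∧ q4 = e) →
    ¬(p3 = e ∧ p4 = e ∧ q1 = e ∧ q2 = e) →
    ¬(p1 = (!e) ∧ p3 = (!e) ∧ q2 = (!e) ∧ q4 = (!e)) →
    ¬(p2 = (!e) ∧ p4 = (!e) ∧ q1 = (!e) ∧ q3 = (!e)) →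
    ¬(p1 = (!e) ∧ p4 = (!e) ∧ q2 = e ∧ q3 = e) →
    ¬(p2 = e ∧ p3 = e ∧ q1 = (!e) ∧ q4 = (!e)) →
    ∀ r1 r2 r3 r4 : Bool,
    ¬(p1 = e ∧ p2 = e ∧ r3 = e ∧ r4 = e) →
    ¬(p3 = e ∧ p4 = e ∧ r1 = e ∧ r2 = e) →
    ¬(p1 = (!e) ∧ p3 = (!e) ∧ r2 = (!e) ∧ r4 = (!e)) →
    ¬(p2 = (!e) ∧ p4 = (!e) ∧ r1 = (!e) ∧ r3 = (!e)) →
    ¬(p1 = (!e) ∧ p4 = (!e) ∧ r2 = e ∧ r3 = e) →
    ¬(p2 = e ∧ p3 = e ∧ r1 = (!e) ∧ r4 = (!e)) →
    ¬(q1 = e ∧ q2 = e ∧ r3 = e ∧ r4 = e) →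
    ¬(q3 = e ∧ q4 = e ∧ r1 = e ∧ r2 = e) →
    ¬(q1 = (!e) ∧ q3 = (!e) ∧ r2 = (!e) ∧ r4 = (!e)) →
    ¬(q2 = (!e) ∧ q4 = (!e) ∧ r1 = (!e) ∧ r3 = (!e)) →
    ¬(q1 = (!e) ∧ q4 = (!e) ∧ r2 = e ∧ r3 = e) →
    ¬(q2 = e ∧ q3 = e ∧ r1 = (!e) ∧ r4 = (!e)) →
    (p1 = e → q1 = e → r2 = e ∧ r3 = (!e) ∧ r4 = (!e)) →
    (p1 = e → r1 = e → q2 = e ∧ q3 = (!e) ∧ q4 = (!e)) →
    (q1 = e → r1 = e → p2 = e ∧ p3 = (!e) ∧ p4 = (!e)) →
    (p2 = e → q2 = e → r1 = e ∧ r3 = e ∧ r4 = (!e)) →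
    (p2 = e → r2 = e → q1 = e ∧ q3 = e ∧ q4 = (!e)) →
    (q2 = e → r2 = e → p1 = e ∧ p3 = e ∧ p4 = (!e)) →
    (p3 = e → q3 = e → r1 = (!e) ∧ r2 = e ∧ r4 = e) →
    (p3 = e → r3 = e → q1 = (!e) ∧ q2 = e ∧ q4 = e) →
    (q3 = e → r3 = e → p1 = (!e) ∧ p2 = e ∧ p4 = e) →
    (p4 = e → q4 = e → r1 = (!e) ∧ r2 = (!e) ∧ r3 = e) →
    (p4 = e → r4 = e → q1 = (!e) ∧ q2 = (!e) ∧ q3 = e) →
    (q4 = e → r4 = e → p1 = (!e) ∧ p2 = (!e) ∧ p3 = e) →
    False := by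
  decide

lemma pentBool : ∀ va vb vd vf ab ad af bd bf df : Bool,
    ¬ (va = vb ∧ va = ab) → ¬ (va = vd ∧ va = ad) → ¬ (va = vf ∧ va = af) →
    ¬ (vb = vd ∧ vb = bd) → ¬ (vb = vf ∧ vb = bf) → ¬ (vd = vf ∧ vd = df) →
    ¬ (ab = ad ∧ ab = bd) → ¬ (ab = af ∧ ab = bf) → ¬ (ad = af ∧ ad = df) →
    ¬ (bd = bf ∧ bd = df) → (va ^^ (vb ^^ (vd ^^ vf))) = false := by
  decide

lemma labelBool : ∀ e va vb vd vf ab ad af bd bf df : Bool,
    ¬ (va = vb ∧ va = ab) → ¬ (va = vd ∧ va = ad) → ¬ (va = vf ∧ va = af) →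
    ¬ (vb = vd ∧ vb = bd) → ¬ (vb = vf ∧ vb = bf) → ¬ (vd = vf ∧ vd = df) →
    ¬ (ab = ad ∧ ab = bd) → ¬ (ab = af ∧ ab = bf) → ¬ (ad = af ∧ ad = df) →
    ¬ (bd = bf ∧ bd = df) →
    (ab = e ∧ bd = e ∧ df = e ∧ ad = (!e) ∧ af = (!e) ∧ bf = (!e)) ∨
    (ab = e ∧ bf = e ∧ df = e ∧ af = (!e) ∧ ad = (!e) ∧ bd = (!e)) ∨
    (ad = e ∧ bd = e ∧ bf = e ∧ ab = (!e) ∧ af = (!e) ∧ df = (!e)) ∨
    (ad = e ∧ df = e ∧ bf = e ∧ af = (!e) ∧ ab = (!e) ∧ bd = (!e)) ∨
    (af = e ∧ bf = e ∧ bd = e ∧ ab = (!e) ∧ ad = (!e) ∧ df = (!e)) ∨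
    (af = e ∧ df = e ∧ bd = e ∧ ad = (!e) ∧ ab = (!e) ∧ bf = (!e)) ∨
    (ab = e ∧ ad = e ∧ df = e ∧ bd = (!e) ∧ bf = (!e) ∧ af = (!e)) ∨
    (ab = e ∧ af = e ∧ df = e ∧ bf = (!e) ∧ bd = (!e) ∧ ad = (!e)) ∨
    (bd = e ∧ ad = e ∧ af = e ∧ ab = (!e) ∧ bf = (!e) ∧ df = (!e)) ∨
    (bf = e ∧ af = e ∧ ad = e ∧ ab = (!e) ∧ bd = (!e) ∧ df = (!e)) ∨
    (ad = e ∧ ab = e ∧ bf = e ∧ bd = (!e) ∧ df = (!e) ∧ af = (!e)) ∨
    (bd = e ∧ ab = e ∧ af = e ∧ ad = (!e) ∧ df = (!e) ∧ bf = (!e)) := by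
  decide

end

/-- no monochromatic triple inside `P` -/
def Fre (c : Sym2 V → Bool) (P : Finset V) : Prop :=
  ∀ a ∈ P, ∀ b ∈ P, ∀ d ∈ P, a ≠ b → a ≠ d → b ≠ d → ¬ M3 c a b d

lemma fre_of {S T P : Finset V} (hno : ¬ Til G c S 2) (hT : MonoTriangle G c T) (hTS : T ⊆ S)
    (hP : G.IsClique (P : Set V)) (hPS : P ⊆ S) (hd : Disjoint T P) : Fre c P := by
  intro a ha b hb d hd' hab had hbd hm
  have h3 : ({a, b, d} : Finset V) ⊆ P := by simp [insert_subset_iff, ha, hb, hd']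
  exact hno (til_two_of hT hTS (monoTriangle_of (hP (mem_coe.2 ha) (mem_coe.2 hb) hab)
    (hP (mem_coe.2 ha) (mem_coe.2 hd') had) (hP (mem_coe.2 hb) (mem_coe.2 hd') hbd) hm)
    (h3.trans hPS) (hd.mono_right h3))

lemma pent {P : Finset V} (hP : Fre c P) {v a b d f : V} (hv : v ∈ P) (ha : a ∈ P) (hb : b ∈ P)
    (hd : d ∈ P) (hf : f ∈ P) (hva : v ≠ a) (hvb : v ≠ b) (hvd : v ≠ d) (hvf : v ≠ f)
    (hab : a ≠ b) (had : a ≠ d) (haf : a ≠ f) (hbd : b ≠ d) (hbf : b ≠ f) (hdf : d ≠ f) :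
    (c s(v, a) ^^ (c s(v, b) ^^ (c s(v, d) ^^ c s(v, f)))) = false :=
  pentBool _ _ _ _ _ _ _ _ _ _ (hP v hv a ha b hb hva hvb hab) (hP v hv a ha d hd hva hvd had)
    (hP v hv a ha f hf hva hvf haf) (hP v hv b hb d hd hvb hvd hbd)
    (hP v hv b hb f hf hvb hvf hbf) (hP v hv d hd f hf hvd hvf hdf)
    (hP a ha b hb d hd hab had hbd) (hP a ha b hb f hf hab haf hbf)
    (hP a ha d hd f hf had haf hdf) (hP b hb d hd f hf hbd hbf hdf)

lemma xorBool : ∀ z r t b d : Bool, (z ^^ (r ^^ (b ^^ d))) = false →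
    (z ^^ (t ^^ (b ^^ d))) = false → t = r := by decide

/-- the twin rule -/
lemma twin {Y : Finset V} (hY : G.IsClique (Y : Set V)) {ti tj tl r a b d z : V}
    (hmem : ∀ x ∈ [ti, tj, tl, r, a, b, d], x ∈ Y) (hnd : [ti, tj, tl, r, a, b, d].Nodup)
    (hz : z ∉ Y) (hadj : ∀ x ∈ Y, x ≠ ti → G.Adj z x)
    (hno : ¬ Til G c (insert z Y) 2) (hT : M3 c ti tj tl) (hT' : M3 c ti tj r) :
    c s(a, tl) = c s(a, r) ∧ c s(b, tl) = c s(b, r) ∧ c s(d, tl) = c s(d, r) := by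
  have hi := hmem ti (by simp)
  have hj := hmem tj (by simp)
  have hl := hmem tl (by simp)
  have hr := hmem r (by simp)
  have ha := hmem a (by simp)
  have hb := hmem b (by simp)
  have hd := hmem d (by simp)
  simp only [List.nodup_cons, List.mem_cons, List.not_mem_nil, or_false, not_or,
    List.nodup_nil, and_true, not_false_eq_true] at hnd
  obtain ⟨⟨n1, n2, n3, n4, n5, n6⟩, ⟨n7, n8, n9, n10, n11⟩, ⟨n12, n13, n14, n15⟩,
    ⟨n16, n17, n18⟩, ⟨n19, n20⟩, n21⟩ := hnd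
  have hzne : ∀ x ∈ Y, z ≠ x := fun x hx h => hz (h ▸ hx)
  have adjY : ∀ x ∈ Y, ∀ y ∈ Y, x ≠ y → G.Adj x y := fun x hx y hy hxy =>
    hY (mem_coe.2 hx) (mem_coe.2 hy) hxy
  have hMT : MonoTriangle G c {ti, tj, tl} :=
    monoTriangle_of (adjY _ hi _ hj n1) (adjY _ hi _ hl n2) (adjY _ hj _ hl n7) hT
  have hMT' : MonoTriangle G c {ti, tj, r} :=
    monoTriangle_of (adjY _ hi _ hj n1) (adjY _ hi _ hr n3) (adjY _ hj _ hr n8) hT'
  have clq : ∀ x ∈ Y, x ≠ ti → a ≠ ti → b ≠ ti → d ≠ ti → 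
      G.IsClique (({z, x, a, b, d} : Finset V) : Set V) := by
    intro x hx hxi hai hbi hdi p hp q hq hpq
    simp only [coe_insert, coe_singleton, Set.mem_insert_iff, Set.mem_singleton_iff] at hp hq
    have hpY : p = z ∨ (p ∈ Y ∧ p ≠ ti) := by
      rcases hp with rfl | rfl | rfl | rfl | rfl
      · exact Or.inl rfl
      · exact Or.inr ⟨hx, hxi⟩
      · exact Or.inr ⟨ha, hai⟩
      · exact Or.inr ⟨hb, hbi⟩
      · exact Or.inr ⟨hd, hdi⟩
    have hqY : q = z ∨ (q ∈ Y ∧ q ≠ ti) := by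
      rcases hq with rfl | rfl | rfl | rfl | rfl
      · exact Or.inl rfl
      · exact Or.inr ⟨hx, hxi⟩
      · exact Or.inr ⟨ha, hai⟩
      · exact Or.inr ⟨hb, hbi⟩
      · exact Or.inr ⟨hd, hdi⟩
    rcases hpY with h1 | h1 <;> rcases hqY with h2 | h2
    · exact absurd (h1.trans h2.symm) hpq
    · rw [h1]; exact hadj q h2.1 h2.2
    · rw [h2]; exact (hadj p h1.1 h1.2).symm
    · exact adjY p h1.1 q h2.1 hpq
  have hin : ∀ x ∈ Y, x ∈ insert z Y := fun x hx => mem_insert_of_mem hx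
  have F1 : Fre c {z, r, a, b, d} := by
    refine fre_of hno hMT ?_ (clq r hr (Ne.symm n3) (Ne.symm n4) (Ne.symm n5)
      (Ne.symm n6)) ?_ ?_
    · simp [insert_subset_iff, hi, hj, hl]
    · simp [insert_subset_iff, hr, ha, hb, hd]
    · rw [disjoint_left]
      intro x hx hx'
      simp only [mem_insert, mem_singleton] at hx hx'
      rcases hx with rfl | rfl | rfl <;> rcases hx' with h | h | h | h | h
      · exact hzne _ hi h.symm
      · exact n3 h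
      · exact n4 h
      · exact n5 h
      · exact n6 h
      · exact hzne _ hj h.symm
      · exact n8 h
      · exact n9 h
      · exact n10 h
      · exact n11 h
      · exact hzne _ hl h.symm
      · exact n12 h
      · exact n13 h
      · exact n14 h
      · exact n15 h
  have F2 : Fre c {z, tl, a, b, d} := by
    refine fre_of hno hMT' ?_ (clq tl hl (Ne.symm n2) (Ne.symm n4) (Ne.symm n5)
      (Ne.symm n6)) ?_ ?_
    · simp [insert_subset_iff, hi, hj, hr]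
    · simp [insert_subset_iff, hl, ha, hb, hd]
    · rw [disjoint_left]
      intro x hx hx'
      simp only [mem_insert, mem_singleton] at hx hx'
      rcases hx with rfl | rfl | rfl <;> rcases hx' with h | h | h | h | h
      · exact hzne _ hi h.symm
      · exact n2 h
      · exact n4 h
      · exact n5 h
      · exact n6 h
      · exact hzne _ hj h.symm
      · exact n7 h
      · exact n9 h
      · exact n10 h
      · exact n11 h
      · exact hzne _ hr h.symm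
      · exact n12 h.symm
      · exact n16 h
      · exact n17 h
      · exact n18 h
  have zr := hzne r hr
  have zl := hzne tl hl
  have za := hzne a ha
  have zb := hzne b hb
  have zd := hzne d hd
  have n12' : r ≠ tl := fun h => n12 h.symm
  refine ⟨?_, ?_, ?_⟩
  · have e1 := pent F1 (v := a) (a := z) (b := r) (d := b) (f := d) (by simp) (by simp) (by simp)
      (by simp) (by simp) za.symm (fun h => n16 h.symm) n19 n20 zr zb zd n17 n18 n21
    have e2 := pent F2 (v := a) (a := z) (b := tl) (d := b) (f := d) (by simp) (by simp) (by simp)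
      (by simp) (by simp) za.symm (fun h => n13 h.symm) n19 n20 zl zb zd n14 n15 n21
    exact xorBool _ _ _ _ _ e1 e2
  · have e1 := pent F1 (v := b) (a := z) (b := r) (d := a) (f := d) (by simp) (by simp) (by simp)
      (by simp) (by simp) zb.symm (fun h => n17 h.symm) (fun h => n19 h.symm) n21 zr za zd n16 n18
      n20
    have e2 := pent F2 (v := b) (a := z) (b := tl) (d := a) (f := d) (by simp) (by simp) (by simp)
      (by simp) (by simp) zb.symm (fun h => n14 h.symm) (fun h => n19 h.symm) n21 zl za zd n13 n15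
      n20
    exact xorBool _ _ _ _ _ e1 e2
  · have e1 := pent F1 (v := d) (a := z) (b := r) (d := a) (f := b) (by simp) (by simp) (by simp)
      (by simp) (by simp) zd.symm (fun h => n18 h.symm) (fun h => n20 h.symm)
      (fun h => n21 h.symm) zr za zb n16 n17 n19
    have e2 := pent F2 (v := d) (a := z) (b := tl) (d := a) (f := b) (by simp) (by simp) (by simp)
      (by simp) (by simp) zd.symm (fun h => n15 h.symm) (fun h => n20 h.symm)
      (fun h => n21 h.symm) zl za zb n13 n14 n19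
    exact xorBool _ _ _ _ _ e1 e2

lemma bb {Y S : Finset V} (hY : G.IsClique (Y : Set V)) (hYS : Y ⊆ S) (hno : ¬ Til G c S 2)
    {ti tj a b d f : V} (hmem : ∀ x ∈ [ti, tj, a, b, d, f], x ∈ Y)
    (hnd : [ti, tj, a, b, d, f].Nodup) (h1 : M3 c ti a b) (h2 : M3 c tj d f) : False := by
  have hi := hmem ti (by simp)
  have hj := hmem tj (by simp)
  have ha := hmem a (by simp)
  have hb := hmem b (by simp)
  have hd := hmem d (by simp)
  have hf := hmem f (by simp)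
  simp only [List.nodup_cons, List.mem_cons, List.not_mem_nil, or_false, not_or,
    List.nodup_nil, and_true, not_false_eq_true] at hnd
  obtain ⟨⟨n1, n2, n3, n4, n5⟩, ⟨n6, n7, n8, n9⟩, ⟨n10, n11, n12⟩, ⟨n13, n14⟩, n15⟩ := hnd
  have adjY : ∀ x ∈ Y, ∀ y ∈ Y, x ≠ y → G.Adj x y := fun x hx y hy hxy =>
    hY (mem_coe.2 hx) (mem_coe.2 hy) hxy
  refine hno (til_two_of (T := {ti, a, b}) (T' := {tj, d, f})
    (monoTriangle_of (adjY _ hi _ ha n2) (adjY _ hi _ hb n3) (adjY _ ha _ hb n10) h1) ?_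
    (monoTriangle_of (adjY _ hj _ hd n8) (adjY _ hj _ hf n9) (adjY _ hd _ hf n15) h2) ?_ ?_)
  · refine Subset.trans ?_ hYS
    simp [insert_subset_iff, hi, ha, hb]
  · refine Subset.trans ?_ hYS
    simp [insert_subset_iff, hj, hd, hf]
  · rw [disjoint_left]
    intro x hx hx'
    simp only [mem_insert, mem_singleton] at hx hx'
    rcases hx with rfl | rfl | rfl <;> rcases hx' with h | h | h
    · exact n1 h
    · exact n4 h
    · exact n5 h
    · exact n6 h.symm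
    · exact n11 h
    · exact n12 h
    · exact n7 h.symm
    · exact n13 h
    · exact n14 h

/-- Lemma Y with the four vertices outside the triangle labelled along a path -/
lemma lemY_path {Y : Finset V} (hY : G.IsClique (Y : Set V)) {t1 t2 t3 r1 r2 r3 r4 z1 z2 : V}
    (hmem : ∀ x ∈ [t1, t2, t3, r1, r2, r3, r4], x ∈ Y)
    (hnd : [t1, t2, t3, r1, r2, r3, r4].Nodup)
    (hz1 : z1 ∉ Y) (hz2 : z2 ∉ Y) (ha1 : ∀ x ∈ Y, x ≠ t1 → G.Adj z1 x)
    (ha2 : ∀ x ∈ Y, x ≠ t2 → G.Adj z2 x)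
    (hno1 : ¬ Til G c (insert z1 Y) 2) (hno2 : ¬ Til G c (insert z2 Y) 2)
    (e : Bool) (e12 : c s(t1, t2) = e) (e13 : c s(t1, t3) = e) (e23 : c s(t2, t3) = e)
    (h12 : c s(r1, r2) = e) (h23 : c s(r2, r3) = e) (h34 : c s(r3, r4) = e)
    (h13 : c s(r1, r3) = !e) (h14 : c s(r1, r4) = !e) (h24 : c s(r2, r4) = !e) : False := by
  have e21 : c s(t2, t1) = e := by rw [Sym2.eq_swap]; exact e12
  have e31 : c s(t3, t1) = e := by rw [Sym2.eq_swap]; exact e13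
  have e32 : c s(t3, t2) = e := by rw [Sym2.eq_swap]; exact e23
  have h21 : c s(r2, r1) = e := by rw [Sym2.eq_swap]; exact h12
  have h31 : c s(r3, r1) = !e := by rw [Sym2.eq_swap]; exact h13
  have h41 : c s(r4, r1) = !e := by rw [Sym2.eq_swap]; exact h14
  have h32 : c s(r3, r2) = e := by rw [Sym2.eq_swap]; exact h23
  have h42 : c s(r4, r2) = !e := by rw [Sym2.eq_swap]; exact h24
  have h43 : c s(r4, r3) = e := by rw [Sym2.eq_swap]; exact h34
  have m1 := hmem t1 (by simp)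
  have m2 := hmem t2 (by simp)
  have m3 := hmem t3 (by simp)
  have k1 := hmem r1 (by simp)
  have k2 := hmem r2 (by simp)
  have k3 := hmem r3 (by simp)
  have k4 := hmem r4 (by simp)
  simp only [List.nodup_cons, List.mem_cons, List.not_mem_nil, or_false, not_or,
    List.nodup_nil, and_true, not_false_eq_true] at hnd
  obtain ⟨⟨n1, n2, n3, n4, n5, n6⟩, ⟨n7, n8, n9, n10, n11⟩, ⟨n12, n13, n14, n15⟩,
    ⟨n16, n17, n18⟩, ⟨n19, n20⟩, n21⟩ := hnd
  have q1 := Ne.symm n1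
  have q2 := Ne.symm n2
  have q3 := Ne.symm n3
  have q4 := Ne.symm n4
  have q5 := Ne.symm n5
  have q6 := Ne.symm n6
  have q7 := Ne.symm n7
  have q8 := Ne.symm n8
  have q9 := Ne.symm n9
  have q10 := Ne.symm n10
  have q11 := Ne.symm n11
  have q12 := Ne.symm n12
  have q13 := Ne.symm n13
  have q14 := Ne.symm n14
  have q15 := Ne.symm n15
  have q16 := Ne.symm n16
  have q17 := Ne.symm n17
  have q18 := Ne.symm n18
  have q19 := Ne.symm n19
  have q20 := Ne.symm n20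
  have q21 := Ne.symm n21
  have tw : ∀ ti tj tl r a b d z : V, ti ∈ Y → tj ∈ Y → tl ∈ Y → r ∈ Y → a ∈ Y → b ∈ Y → d ∈ Y →
      [ti, tj, tl, r, a, b, d].Nodup → z ∉ Y → (∀ x ∈ Y, x ≠ ti → G.Adj z x) →
      ¬ Til G c (insert z Y) 2 → c s(ti, tj) = e → c s(ti, tl) = e → c s(tj, tl) = e →
      c s(ti, r) = e → c s(tj, r) = e →
      c s(tl, a) = c s(r, a) ∧ c s(tl, b) = c s(r, b) ∧ c s(tl, d) = c s(r, d) := by
    intro ti tj tl r a b d z i1 i2 i3 i4 i5 i6 i7 hn hz had hno f1 f2 f3 f4 f5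
    have := twin hY (ti := ti) (tj := tj) (tl := tl) (r := r) (a := a) (b := b) (d := d) (z := z)
      (c := c) (by simp [i1, i2, i3, i4, i5, i6, i7]) hn hz had hno
      ⟨f1.trans f2.symm, f1.trans f3.symm⟩ ⟨f1.trans f4.symm, f1.trans f5.symm⟩
    rw [Sym2.eq_swap (a := tl) (b := a), Sym2.eq_swap (a := r) (b := a),
      Sym2.eq_swap (a := tl) (b := b), Sym2.eq_swap (a := r) (b := b),
      Sym2.eq_swap (a := tl) (b := d), Sym2.eq_swap (a := r) (b := d)]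
    exact this
  have hb : ∀ ti tj a b d f : V, ti ∈ Y → tj ∈ Y → a ∈ Y → b ∈ Y → d ∈ Y → f ∈ Y →
      [ti, tj, a, b, d, f].Nodup → ∀ v w : Bool, c s(a, b) = v → c s(d, f) = w →
      ¬ (c s(ti, a) = v ∧ c s(ti, b) = v ∧ c s(tj, d) = w ∧ c s(tj, f) = w) := by
    intro ti tj a b d f i1 i2 i3 i4 i5 i6 hn v w f1 f2 h
    exact bb hY (subset_insert z1 Y) hno1 (ti := ti) (tj := tj) (a := a) (b := b) (d := d) (f := f)
      (by simp [i1, i2, i3, i4, i5, i6]) hn ⟨h.1.trans h.2.1.symm, h.1.trans f1.symm⟩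
      ⟨h.2.2.1.trans h.2.2.2.symm, h.2.2.1.trans f2.symm⟩
  refine boolY e (c s(t1, r1)) (c s(t1, r2)) (c s(t1, r3)) (c s(t1, r4)) (c s(t2, r1)) (c s(t2, r2))
    (c s(t2, r3)) (c s(t2, r4))
    (hb t1 t2 r1 r2 r3 r4 m1 m2 k1 k2 k3 k4 (by simp [*]) _ _ h12 h34)
    (hb t1 t2 r3 r4 r1 r2 m1 m2 k3 k4 k1 k2 (by simp [*]) _ _ h34 h12)
    (hb t1 t2 r1 r3 r2 r4 m1 m2 k1 k3 k2 k4 (by simp [*]) _ _ h13 h24)
    (hb t1 t2 r2 r4 r1 r3 m1 m2 k2 k4 k1 k3 (by simp [*]) _ _ h24 h13)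
    (hb t1 t2 r1 r4 r2 r3 m1 m2 k1 k4 k2 k3 (by simp [*]) _ _ h14 h23)
    (hb t1 t2 r2 r3 r1 r4 m1 m2 k2 k3 k1 k4 (by simp [*]) _ _ h23 h14)
    (c s(t3, r1)) (c s(t3, r2)) (c s(t3, r3)) (c s(t3, r4))
    (hb t1 t3 r1 r2 r3 r4 m1 m3 k1 k2 k3 k4 (by simp [*]) _ _ h12 h34)
    (hb t1 t3 r3 r4 r1 r2 m1 m3 k3 k4 k1 k2 (by simp [*]) _ _ h34 h12)
    (hb t1 t3 r1 r3 r2 r4 m1 m3 k1 k3 k2 k4 (by simp [*]) _ _ h13 h24)
    (hb t1 t3 r2 r4 r1 r3 m1 m3 k2 k4 k1 k3 (by simp [*]) _ _ h24 h13)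
    (hb t1 t3 r1 r4 r2 r3 m1 m3 k1 k4 k2 k3 (by simp [*]) _ _ h14 h23)
    (hb t1 t3 r2 r3 r1 r4 m1 m3 k2 k3 k1 k4 (by simp [*]) _ _ h23 h14)
    (hb t2 t3 r1 r2 r3 r4 m2 m3 k1 k2 k3 k4 (by simp [*]) _ _ h12 h34)
    (hb t2 t3 r3 r4 r1 r2 m2 m3 k3 k4 k1 k2 (by simp [*]) _ _ h34 h12)
    (hb t2 t3 r1 r3 r2 r4 m2 m3 k1 k3 k2 k4 (by simp [*]) _ _ h13 h24)
    (hb t2 t3 r2 r4 r1 r3 m2 m3 k2 k4 k1 k3 (by simp [*]) _ _ h24 h13)
    (hb t2 t3 r1 r4 r2 r3 m2 m3 k1 k4 k2 k3 (by simp [*]) _ _ h14 h23)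
    (hb t2 t3 r2 r3 r1 r4 m2 m3 k2 k3 k1 k4 (by simp [*]) _ _ h23 h14)
    (fun f1 f2 => by
      have := tw t1 t2 t3 r1 r2 r3 r4 z1 m1 m2 m3 k1 k2 k3 k4 (by simp [*]) hz1 ha1 hno1 e12 e13 e23 f1 f2
      exact ⟨this.1.trans h12, this.2.1.trans h13, this.2.2.trans h14⟩)
    (fun f1 f2 => by
      have := tw t1 t3 t2 r1 r2 r3 r4 z1 m1 m3 m2 k1 k2 k3 k4 (by simp [*]) hz1 ha1 hno1 e13 e12 e32 f1 f2
      exact ⟨this.1.trans h12, this.2.1.trans h13, this.2.2.trans h14⟩)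
    (fun f1 f2 => by
      have := tw t2 t3 t1 r1 r2 r3 r4 z2 m2 m3 m1 k1 k2 k3 k4 (by simp [*]) hz2 ha2 hno2 e23 e21 e31 f1 f2
      exact ⟨this.1.trans h12, this.2.1.trans h13, this.2.2.trans h14⟩)
    (fun f1 f2 => by
      have := tw t1 t2 t3 r2 r1 r3 r4 z1 m1 m2 m3 k2 k1 k3 k4 (by simp [*]) hz1 ha1 hno1 e12 e13 e23 f1 f2
      exact ⟨this.1.trans h21, this.2.1.trans h23, this.2.2.trans h24⟩)
    (fun f1 f2 => by
      have := tw t1 t3 t2 r2 r1 r3 r4 z1 m1 m3 m2 k2 k1 k3 k4 (by simp [*]) hz1 ha1 hno1 e13 e12 e32 f1 f2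
      exact ⟨this.1.trans h21, this.2.1.trans h23, this.2.2.trans h24⟩)
    (fun f1 f2 => by
      have := tw t2 t3 t1 r2 r1 r3 r4 z2 m2 m3 m1 k2 k1 k3 k4 (by simp [*]) hz2 ha2 hno2 e23 e21 e31 f1 f2
      exact ⟨this.1.trans h21, this.2.1.trans h23, this.2.2.trans h24⟩)
    (fun f1 f2 => by
      have := tw t1 t2 t3 r3 r1 r2 r4 z1 m1 m2 m3 k3 k1 k2 k4 (by simp [*]) hz1 ha1 hno1 e12 e13 e23 f1 f2
      exact ⟨this.1.trans h31, this.2.1.trans h32, this.2.2.trans h34⟩)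
    (fun f1 f2 => by
      have := tw t1 t3 t2 r3 r1 r2 r4 z1 m1 m3 m2 k3 k1 k2 k4 (by simp [*]) hz1 ha1 hno1 e13 e12 e32 f1 f2
      exact ⟨this.1.trans h31, this.2.1.trans h32, this.2.2.trans h34⟩)
    (fun f1 f2 => by
      have := tw t2 t3 t1 r3 r1 r2 r4 z2 m2 m3 m1 k3 k1 k2 k4 (by simp [*]) hz2 ha2 hno2 e23 e21 e31 f1 f2
      exact ⟨this.1.trans h31, this.2.1.trans h32, this.2.2.trans h34⟩)
    (fun f1 f2 => by
      have := tw t1 t2 t3 r4 r1 r2 r3 z1 m1 m2 m3 k4 k1 k2 k3 (by simp [*]) hz1 ha1 hno1 e12 e13 e23 f1 f2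
      exact ⟨this.1.trans h41, this.2.1.trans h42, this.2.2.trans h43⟩)
    (fun f1 f2 => by
      have := tw t1 t3 t2 r4 r1 r2 r3 z1 m1 m3 m2 k4 k1 k2 k3 (by simp [*]) hz1 ha1 hno1 e13 e12 e32 f1 f2
      exact ⟨this.1.trans h41, this.2.1.trans h42, this.2.2.trans h43⟩)
    (fun f1 f2 => by
      have := tw t2 t3 t1 r4 r1 r2 r3 z2 m2 m3 m1 k4 k1 k2 k3 (by simp [*]) hz2 ha2 hno2 e23 e21 e31 f1 f2
      exact ⟨this.1.trans h41, this.2.1.trans h42, this.2.2.trans h43⟩)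

/-- **Lemma Y.** -/
lemma lemY {Y T : Finset V} (hY : G.IsClique (Y : Set V)) (hc : Y.card = 7)
    (hT : MonoTriangle G c T) (hTY : T ⊆ Y) {t1 t2 z1 z2 : V} (h1 : t1 ∈ T) (h2 : t2 ∈ T)
    (h12 : t1 ≠ t2) (hz1 : z1 ∉ Y) (hz2 : z2 ∉ Y) (ha1 : ∀ x ∈ Y, x ≠ t1 → G.Adj z1 x)
    (ha2 : ∀ x ∈ Y, x ≠ t2 → G.Adj z2 x) :
    Til G c (insert z1 Y) 2 ∨ Til G c (insert z2 Y) 2 := by
  by_contra hcon
  obtain ⟨hno1, hno2⟩ := not_or.1 hcon
  have hT3 := hT.1.card_eq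
  obtain ⟨t3, ht3⟩ : ∃ t3, (T.erase t1).erase t2 = {t3} := by
    rw [← card_eq_one, card_erase_of_mem (mem_erase.2 ⟨h12.symm, h2⟩), card_erase_of_mem h1, hT3]
  have h3' : t3 ∈ (T.erase t1).erase t2 := by rw [ht3]; exact mem_singleton_self _
  have h3T : t3 ∈ T := mem_of_mem_erase (mem_of_mem_erase h3')
  have n32 : t3 ≠ t2 := (mem_erase.1 h3').1
  have n31 : t3 ≠ t1 := (mem_erase.1 (mem_of_mem_erase h3')).1
  have n13 := n31.symm
  have n23 := n32.symm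
  have hRc : (Y \ T).card = 4 := by
    have := card_sdiff_add_card_eq_card hTY
    omega
  obtain ⟨l, hl, hnd⟩ : ∃ l : List V, l.toFinset = Y \ T ∧ l.Nodup :=
    ⟨(Y \ T).toList, by simp, nodup_toList _⟩
  have hlen : l.length = 4 := by
    rw [← List.toFinset_card_of_nodup hnd, hl, hRc]
  match l, hlen with
  | [a, b, d, f], _ =>
    have hmem : ∀ x ∈ [a, b, d, f], x ∈ Y ∧ x ∉ T := by
      intro x hx
      have : x ∈ Y \ T := by rw [← hl]; exact List.mem_toFinset.2 hx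
      exact mem_sdiff.1 this
    obtain ⟨ya, na⟩ := hmem a (by simp)
    obtain ⟨yb, nb⟩ := hmem b (by simp)
    obtain ⟨yd, nd⟩ := hmem d (by simp)
    obtain ⟨yf, nf⟩ := hmem f (by simp)
    have y1 := hTY h1
    have y2 := hTY h2
    have y3 := hTY h3T
    have ne : ∀ t ∈ T, ∀ x, x ∉ T → t ≠ x := fun t ht x hx h => hx (h ▸ ht)
    have a1 := ne t1 h1 a na
    have a2 := ne t2 h2 a na
    have a3 := ne t3 h3T a na
    have b1 := ne t1 h1 b nb
    have b2 := ne t2 h2 b nb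
    have b3 := ne t3 h3T b nb
    have d1 := ne t1 h1 d nd
    have d2 := ne t2 h2 d nd
    have d3 := ne t3 h3T d nd
    have f1 := ne t1 h1 f nf
    have f2 := ne t2 h2 f nf
    have f3 := ne t3 h3T f nf
    simp only [List.nodup_cons, List.mem_cons, List.not_mem_nil, or_false, not_or,
      List.nodup_nil, and_true, not_false_eq_true] at hnd
    obtain ⟨⟨m1, m2, m3⟩, ⟨m4, m5⟩, m6⟩ := hnd
    have w1 := Ne.symm m1
    have w2 := Ne.symm m2
    have w3 := Ne.symm m3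
    have w4 := Ne.symm m4
    have w5 := Ne.symm m5
    have w6 := Ne.symm m6
    have hin : ∀ x ∈ Y, x ∈ insert z1 Y := fun x hx => mem_insert_of_mem hx
    have hzne : ∀ x ∈ Y, z1 ≠ x := fun x hx h => hz1 (h ▸ hx)
    have adjY : ∀ x ∈ Y, ∀ y ∈ Y, x ≠ y → G.Adj x y := fun x hx y hy hxy =>
      hY (mem_coe.2 hx) (mem_coe.2 hy) hxy
    have F1 : Fre c {z1, a, b, d, f} := by
      refine fre_of hno1 hT (hTY.trans (subset_insert _ _)) ?_ ?_ ?_
      · intro p hp q hq hpq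
        simp only [coe_insert, coe_singleton, Set.mem_insert_iff, Set.mem_singleton_iff] at hp hq
        have hpY : p = z1 ∨ (p ∈ Y ∧ p ≠ t1) := by
          rcases hp with rfl | rfl | rfl | rfl | rfl
          · exact Or.inl rfl
          · exact Or.inr ⟨ya, a1.symm⟩
          · exact Or.inr ⟨yb, b1.symm⟩
          · exact Or.inr ⟨yd, d1.symm⟩
          · exact Or.inr ⟨yf, f1.symm⟩
        have hqY : q = z1 ∨ (q ∈ Y ∧ q ≠ t1) := by
          rcases hq with rfl | rfl | rfl | rfl | rfl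
          · exact Or.inl rfl
          · exact Or.inr ⟨ya, a1.symm⟩
          · exact Or.inr ⟨yb, b1.symm⟩
          · exact Or.inr ⟨yd, d1.symm⟩
          · exact Or.inr ⟨yf, f1.symm⟩
        rcases hpY with k1 | k1 <;> rcases hqY with k2 | k2
        · exact absurd (k1.trans k2.symm) hpq
        · rw [k1]; exact ha1 q k2.1 k2.2
        · rw [k2]; exact (ha1 p k1.1 k1.2).symm
        · exact adjY p k1.1 q k2.1 hpq
      · simp [insert_subset_iff, ya, yb, yd, yf]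
      · rw [disjoint_left]
        intro x hx hx'
        simp only [mem_insert, mem_singleton] at hx'
        rcases hx' with rfl | rfl | rfl | rfl | rfl
        · exact hz1 (hTY hx)
        · exact na hx
        · exact nb hx
        · exact nd hx
        · exact nf hx
    obtain ⟨e, he⟩ := hT.2
    have e12 := he t1 h1 t2 h2 h12
    have e13 := he t1 h1 t3 h3T n13
    have e23 := he t2 h2 t3 h3T n23
    have za := hzne a ya
    have zb := hzne b yb
    have zd := hzne d yd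
    have zf := hzne f yf
    have key := labelBool e (c s(z1, a)) (c s(z1, b)) (c s(z1, d)) (c s(z1, f)) (c s(a, b))
      (c s(a, d)) (c s(a, f)) (c s(b, d)) (c s(b, f)) (c s(d, f))
      (F1 z1 (by simp) a (by simp) b (by simp) za zb m1)
      (F1 z1 (by simp) a (by simp) d (by simp) za zd m2)
      (F1 z1 (by simp) a (by simp) f (by simp) za zf m3)
      (F1 z1 (by simp) b (by simp) d (by simp) zb zd m4)
      (F1 z1 (by simp) b (by simp) f (by simp) zb zf m5)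
      (F1 z1 (by simp) d (by simp) f (by simp) zd zf m6)
      (F1 a (by simp) b (by simp) d (by simp) m1 m2 m4)
      (F1 a (by simp) b (by simp) f (by simp) m1 m3 m5)
      (F1 a (by simp) d (by simp) f (by simp) m2 m3 m6)
      (F1 b (by simp) d (by simp) f (by simp) m4 m5 m6)
    have main : ∀ r1 r2 r3 r4 : V, r1 ∈ Y → r2 ∈ Y → r3 ∈ Y → r4 ∈ Y →
        [t1, t2, t3, r1, r2, r3, r4].Nodup → c s(r1, r2) = e → c s(r2, r3) = e →
        c s(r3, r4) = e → c s(r1, r3) = !e → c s(r1, r4) = !e → c s(r2, r4) = !e → False := by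
      intro r1 r2 r3 r4 i1 i2 i3 i4 hn
      exact lemY_path hY (z1 := z1) (z2 := z2) (by simp [y1, y2, y3, i1, i2, i3, i4]) hn hz1 hz2
        ha1 ha2 hno1 hno2 e e12 e13 e23
    rcases key with
      ⟨g1, g2, g3, g4, g5, g6⟩ |
      ⟨g1, g2, g3, g4, g5, g6⟩ |
      ⟨g1, g2, g3, g4, g5, g6⟩ |
      ⟨g1, g2, g3, g4, g5, g6⟩ |
      ⟨g1, g2, g3, g4, g5, g6⟩ |
      ⟨g1, g2, g3, g4, g5, g6⟩ |
      ⟨g1, g2, g3, g4, g5, g6⟩ |
      ⟨g1, g2, g3, g4, g5, g6⟩ |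
      ⟨g1, g2, g3, g4, g5, g6⟩ |
      ⟨g1, g2, g3, g4, g5, g6⟩ |
      ⟨g1, g2, g3, g4, g5, g6⟩ |
      ⟨g1, g2, g3, g4, g5, g6⟩
    · exact main a b d f ya yb yd yf (by simp [*])
        g1 g2 g3
        g4 g5 g6
    · exact main a b f d ya yb yf yd (by simp [*])
        g1 g2 (by rw [Sym2.eq_swap]; exact g3)
        g4 g5 g6
    · exact main a d b f ya yd yb yf (by simp [*])
        g1 (by rw [Sym2.eq_swap]; exact g2) g3
        g4 g5 g6
    · exact main a d f b ya yd yf yb (by simp [*])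
        g1 g2 (by rw [Sym2.eq_swap]; exact g3)
        g4 g5 (by rw [Sym2.eq_swap]; exact g6)
    · exact main a f b d ya yf yb yd (by simp [*])
        g1 (by rw [Sym2.eq_swap]; exact g2) g3
        g4 g5 (by rw [Sym2.eq_swap]; exact g6)
    · exact main a f d b ya yf yd yb (by simp [*])
        g1 (by rw [Sym2.eq_swap]; exact g2) (by rw [Sym2.eq_swap]; exact g3)
        g4 g5 (by rw [Sym2.eq_swap]; exact g6)
    · exact main b a d f yb ya yd yf (by simp [*])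
        (by rw [Sym2.eq_swap]; exact g1) g2 g3
        g4 g5 g6
    · exact main b a f d yb ya yf yd (by simp [*])
        (by rw [Sym2.eq_swap]; exact g1) g2 (by rw [Sym2.eq_swap]; exact g3)
        g4 g5 g6
    · exact main b d a f yb yd ya yf (by simp [*])
        g1 (by rw [Sym2.eq_swap]; exact g2) g3
        (by rw [Sym2.eq_swap]; exact g4) g5 g6
    · exact main b f a d yb yf ya yd (by simp [*])
        g1 (by rw [Sym2.eq_swap]; exact g2) g3
        (by rw [Sym2.eq_swap]; exact g4) g5 (by rw [Sym2.eq_swap]; exact g6)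
    · exact main d a b f yd ya yb yf (by simp [*])
        (by rw [Sym2.eq_swap]; exact g1) g2 g3
        (by rw [Sym2.eq_swap]; exact g4) g5 g6
    · exact main d b a f yd yb ya yf (by simp [*])
        (by rw [Sym2.eq_swap]; exact g1) (by rw [Sym2.eq_swap]; exact g2) g3
        (by rw [Sym2.eq_swap]; exact g4) g5 g6

/-- a clique on eight vertices has two disjoint monochromatic triangles -/
lemma til_eight {S : Finset V} (hS : G.IsClique (S : Set V)) (hc : 8 ≤ S.card) :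
    Til G c S 2 := by
  obtain ⟨S', hS', hc'⟩ := exists_subset_card_eq hc
  have hS'c : G.IsClique (S' : Set V) := hS.subset (coe_subset.2 hS')
  have hne : S'.Nonempty := by rw [← card_pos]; omega
  obtain ⟨z, hz⟩ := hne
  have hYc : (S'.erase z).card = 7 := by rw [card_erase_of_mem hz]; omega
  have hY : G.IsClique ((S'.erase z : Finset V) : Set V) :=
    hS'c.subset (coe_subset.2 (erase_subset _ _))
  obtain ⟨T, hT, hTY⟩ := exists_mono_of_six (c := c) hY (by omega)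
  obtain ⟨t1, ht1, t2, ht2, h12⟩ := one_lt_card.1 (show 1 < T.card by rw [hT.1.card_eq]; omega)
  have hzY : z ∉ S'.erase z := notMem_erase _ _
  have hadj : ∀ x ∈ S'.erase z, G.Adj z x := fun x hx =>
    hS'c (mem_coe.2 hz) (mem_coe.2 (mem_of_mem_erase hx)) (ne_of_mem_erase hx).symm
  have := lemY hY hYc hT hTY ht1 ht2 h12 hzY hzY (fun x hx _ => hadj x hx)
    (fun x hx _ => hadj x hx)
  rw [or_self, insert_erase hz] at this
  exact this.mono hS' le_rfl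

/-- **Good pairs.**  Two disjoint cliques `K`, `K'` on seven vertices such that at least five
vertices `t` of `K` have a partner in `K'` all of whose non-neighbours in `K` are equal to `t`
contain three disjoint monochromatic triangles. -/
lemma til_pair {K K' : Finset V} (hK : G.IsClique (K : Set V)) (hK' : G.IsClique (K' : Set V))
    (hKc : K.card = 7) (hK'c : K'.card = 7) (hd : Disjoint K K')
    {A : Finset V} (hAK : A ⊆ K) (hA : 5 ≤ A.card)
    (hp : ∀ t ∈ A, ∃ z ∈ K', ∀ x ∈ K, x ≠ t → G.Adj z x) : Til G c (K ∪ K') 3 := by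
  -- a monochromatic triangle of `K` with two vertices in `A`
  obtain ⟨T, hT, hTK, hTA⟩ : ∃ T, MonoTriangle G c T ∧ T ⊆ K ∧ 1 < (T ∩ A).card := by
    by_cases hKA : K \ A = ∅
    · obtain ⟨T, hT, hTK⟩ := exists_mono_of_six (c := c) hK (by omega)
      refine ⟨T, hT, hTK, ?_⟩
      have hKA' : K ⊆ A := sdiff_eq_empty_iff_subset.1 hKA
      rw [inter_eq_left.2 (hTK.trans hKA'), hT.1.card_eq]
      omega
    · obtain ⟨x, hx⟩ := nonempty_iff_ne_empty.2 hKA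
      obtain ⟨hxK, hxA⟩ := mem_sdiff.1 hx
      have hc6 : (K.erase x).card = 6 := by rw [card_erase_of_mem hxK]; omega
      obtain ⟨T, hT, hTK⟩ := exists_mono_of_six (c := c)
        (hK.subset (coe_subset.2 (erase_subset x K))) (by omega)
      refine ⟨T, hT, hTK.trans (erase_subset _ _), ?_⟩
      have h1 : (T \ A).card ≤ 1 := by
        have h2 : T \ A ⊆ (K \ A).erase x := by
          intro y hy
          obtain ⟨h3, h4⟩ := mem_sdiff.1 hy
          have h5 := mem_erase.1 (hTK h3)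
          exact mem_erase.2 ⟨h5.1, mem_sdiff.2 ⟨h5.2, h4⟩⟩
        have h6 := card_le_card h2
        rw [card_erase_of_mem hx] at h6
        have h7 := card_sdiff_add_card_eq_card hAK
        omega
      have h8 := card_sdiff_add_card_inter T A
      have h9 := hT.1.card_eq
      omega
  obtain ⟨t1, ht1, t2, ht2, h12⟩ := one_lt_card.1 hTA
  obtain ⟨ht1T, ht1A⟩ := mem_inter.1 ht1
  obtain ⟨ht2T, ht2A⟩ := mem_inter.1 ht2
  obtain ⟨z1, hz1, ha1⟩ := hp t1 ht1A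
  obtain ⟨z2, hz2, ha2⟩ := hp t2 ht2A
  have hz1K : z1 ∉ K := fun h => (disjoint_left.1 hd) h hz1
  have hz2K : z2 ∉ K := fun h => (disjoint_left.1 hd) h hz2
  have fin : ∀ z ∈ K', Til G c (insert z K) 2 → Til G c (K ∪ K') 3 := by
    intro z hz h
    have h6 : Til G c (K'.erase z) 1 := til_six (hK'.subset (coe_subset.2 (erase_subset z K')))
      (by rw [card_erase_of_mem hz]; omega)
    have hdis : Disjoint (insert z K) (K'.erase z) := by
      rw [disjoint_left]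
      intro x hx hx'
      rcases mem_insert.1 hx with h | h
      · exact (mem_erase.1 hx').1 h
      · exact (disjoint_left.1 hd) h (mem_of_mem_erase hx')
    refine (h.union h6 hdis).mono ?_ le_rfl
    intro x hx
    rcases mem_union.1 hx with h | h
    · rcases mem_insert.1 h with h' | h'
      · exact mem_union_right _ (h' ▸ hz)
      · exact mem_union_left _ h'
    · exact mem_union_right _ (mem_of_mem_erase h)
  rcases lemY hK hKc hT hTK ht1T ht2T h12 hz1K hz2K ha1 ha2 with h | h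
  · exact fin z1 hz1 h
  · exact fin z2 hz2 h

end Pool.Agent.Helper4MT
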