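import Pool.Agent.Helper4MT.K9

/-!
# Lemma Z: seven-cliques containing a clique on five vertices without monochromatic triangle
-/

set_option autoImplicit false

namespace Pool.Agent.Helper4MT

open Finset

open scoped Classical

universe u

variable {V : Type u} {G : SimpleGraph V} {c : Sym2 V → Bool}

section

set_option maxRecDepth 100000
set_option synthInstance.maxSize 100000
set_option synthInstance.maxHeartbeats 4000000

lemma boolZ : ∀ a0 a1 a2 a3 a4 b0 b1 b2 b3 b4 : Bool,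
    ¬(a0 = true ∧ a1 = true ∧ b2 = true ∧ b3 = true) →
    ¬(a0 = true ∧ a1 = true ∧ b3 = true ∧ b4 = true) →
    ¬(a0 = true ∧ a1 = true ∧ b2 = false ∧ b4 = false) →
    ¬(a1 = true ∧ a2 = true ∧ b3 = true ∧ b4 = true) →
    ¬(a1 = true ∧ a2 = true ∧ b0 = true ∧ b4 = true) →
    ¬(a1 = true ∧ a2 = true ∧ b0 = false ∧ b3 = false) →
    ¬(a2 = true ∧ a3 = true ∧ b0 = true ∧ b1 = true) →
    ¬(a2 = true ∧ a3 = true ∧ b0 = true ∧ b4 = true) →
    ¬(a2 = true ∧ a3 = true ∧ b1 = false ∧ b4 = false) →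
    ¬(a3 = true ∧ a4 = true ∧ b0 = true ∧ b1 = true) →
    ¬(a3 = true ∧ a4 = true ∧ b1 = true ∧ b2 = true) →
    ¬(a3 = true ∧ a4 = true ∧ b0 = false ∧ b2 = false) →
    ¬(a0 = true ∧ a4 = true ∧ b1 = true ∧ b2 = true) →
    ¬(a0 = true ∧ a4 = true ∧ b2 = true ∧ b3 = true) →
    ¬(a0 = true ∧ a4 = true ∧ b1 = false ∧ b3 = false) →
    ¬(a0 = false ∧ a2 = false ∧ b3 = true ∧ b4 = true) →
    ¬(a0 = false ∧ a2 = false ∧ b1 = false ∧ b4 = false) →
    ¬(a0 = false ∧ a2 = false ∧ b1 = false ∧ b3 = false) →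
    ¬(a2 = false ∧ a4 = false ∧ b0 = true ∧ b1 = true) →
    ¬(a2 = false ∧ a4 = false ∧ b1 = false ∧ b3 = false) →
    ¬(a2 = false ∧ a4 = false ∧ b0 = false ∧ b3 = false) →
    ¬(a1 = false ∧ a4 = false ∧ b2 = true ∧ b3 = true) →
    ¬(a1 = false ∧ a4 = false ∧ b0 = false ∧ b2 = false) →
    ¬(a1 = false ∧ a4 = false ∧ b0 = false ∧ b3 = false) →
    ¬(a1 = false ∧ a3 = false ∧ b0 = true ∧ b4 = true) →
    ¬(a1 = false ∧ a3 = false ∧ b0 = false ∧ b2 = false) →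
    ¬(a1 = false ∧ a3 = false ∧ b2 = false ∧ b4 = false) →
    ¬(a0 = false ∧ a3 = false ∧ b1 = true ∧ b2 = true) →
    ¬(a0 = false ∧ a3 = false ∧ b2 = false ∧ b4 = false) →
    ¬(a0 = false ∧ a3 = false ∧ b1 = false ∧ b4 = false) →
    (a1 = true ∧ a2 = false ∧ a3 = false ∧ a4 = true ∧ b1 = true ∧ b2 = false ∧ b3 = false ∧ b4 = true) ∨
    (a0 = true ∧ a2 = true ∧ a3 = false ∧ a4 = false ∧ b0 = true ∧ b2 = true ∧ b3 = false ∧ b4 = false) ∨
    (a0 = false ∧ a1 = true ∧ a3 = true ∧ a4 = false ∧ b0 = false ∧ b1 = true ∧ b3 = true ∧ b4 = false) ∨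
    (a0 = false ∧ a1 = false ∧ a2 = true ∧ a4 = true ∧ b0 = false ∧ b1 = false ∧ b2 = true ∧ b4 = true) ∨
    (a0 = true ∧ a1 = false ∧ a2 = false ∧ a3 = true ∧ b0 = true ∧ b1 = false ∧ b2 = false ∧ b3 = true) := by
  decide


lemma boolP : ∀ x01 x02 x03 x04 x12 x13 x14 x23 x24 x34 : Bool,
    ¬ (x01 = x02 ∧ x01 = x12) →
    ¬ (x01 = x03 ∧ x01 = x13) →
    ¬ (x01 = x04 ∧ x01 = x14) →
    ¬ (x02 = x03 ∧ x02 = x23) →
    ¬ (x02 = x04 ∧ x02 = x24) →
    ¬ (x03 = x04 ∧ x03 = x34) →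
    ¬ (x12 = x13 ∧ x12 = x23) →
    ¬ (x12 = x14 ∧ x12 = x24) →
    ¬ (x13 = x14 ∧ x13 = x34) →
    ¬ (x23 = x24 ∧ x23 = x34) →
    (x01 = true ∧ x02 = false ∧ x03 = false ∧ x04 = true ∧ x12 = true ∧ x13 = false ∧ x14 = false ∧ x23 = true ∧ x24 = false ∧ x34 = true) ∨
    (x01 = true ∧ x02 = false ∧ x03 = true ∧ x04 = false ∧ x12 = true ∧ x13 = false ∧ x14 = false ∧ x23 = false ∧ x24 = true ∧ x34 = true) ∨
    (x01 = true ∧ x02 = false ∧ x03 = false ∧ x04 = true ∧ x12 = false ∧ x13 = true ∧ x14 = false ∧ x23 = true ∧ x24 = true ∧ x34 = false) ∨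
    (x01 = true ∧ x02 = true ∧ x03 = false ∧ x04 = false ∧ x12 = false ∧ x13 = true ∧ x14 = false ∧ x23 = false ∧ x24 = true ∧ x34 = true) ∨
    (x01 = true ∧ x02 = false ∧ x03 = true ∧ x04 = false ∧ x12 = false ∧ x13 = false ∧ x14 = true ∧ x23 = true ∧ x24 = true ∧ x34 = false) ∨
    (x01 = true ∧ x02 = true ∧ x03 = false ∧ x04 = false ∧ x12 = false ∧ x13 = false ∧ x14 = true ∧ x23 = true ∧ x24 = false ∧ x34 = true) ∨
    (x01 = false ∧ x02 = true ∧ x03 = false ∧ x04 = true ∧ x12 = true ∧ x13 = true ∧ x14 = false ∧ x23 = false ∧ x24 = false ∧ x34 = true) ∨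
    (x01 = false ∧ x02 = true ∧ x03 = true ∧ x04 = false ∧ x12 = true ∧ x13 = false ∧ x14 = true ∧ x23 = false ∧ x24 = false ∧ x34 = true) ∨
    (x01 = false ∧ x02 = true ∧ x03 = false ∧ x04 = true ∧ x12 = false ∧ x13 = true ∧ x14 = true ∧ x23 = true ∧ x24 = false ∧ x34 = false) ∨
    (x01 = false ∧ x02 = true ∧ x03 = true ∧ x04 = false ∧ x12 = false ∧ x13 = true ∧ x14 = true ∧ x23 = false ∧ x24 = true ∧ x34 = false) ∨
    (x01 = false ∧ x02 = false ∧ x03 = true ∧ x04 = true ∧ x12 = true ∧ x13 = true ∧ x14 = false ∧ x23 = false ∧ x24 = true ∧ x34 = false) ∨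
    (x01 = false ∧ x02 = false ∧ x03 = true ∧ x04 = true ∧ x12 = true ∧ x13 = false ∧ x14 = true ∧ x23 = true ∧ x24 = false ∧ x34 = false) := by
  decide

end


lemma no2 {K : Finset V} (hK : G.IsClique (K : Set V)) (hno : ¬ Til G c K 2) {p : Fin 7 → V}
    (hp : Function.Injective p) (hpK : ∀ i, p i ∈ K) {i j k i' j' k' : Fin 7}
    (hnd : [i, j, k, i', j', k'].Nodup) (h : M3 c (p i) (p j) (p k))
    (h' : M3 c (p i') (p j') (p k')) : False := by
  simp only [List.nodup_cons, List.mem_cons, List.not_mem_nil, or_false, not_or,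
    List.nodup_nil, and_true, not_false_eq_true] at hnd
  obtain ⟨⟨n1, n2, n3, n4, n5⟩, ⟨n6, n7, n8, n9⟩, ⟨n10, n11, n12⟩, ⟨n13, n14⟩, n15⟩ := hnd
  have adj : ∀ a b, a ≠ b → G.Adj (p a) (p b) := fun a b hab =>
    hK (mem_coe.2 (hpK a)) (mem_coe.2 (hpK b)) (hp.ne hab)
  refine hno (til_two_of (monoTriangle_of (adj _ _ n1) (adj _ _ n2) (adj _ _ n6) h) ?_
    (monoTriangle_of (adj _ _ n13) (adj _ _ n14) (adj _ _ n15) h') ?_ ?_)
  · simp [insert_subset_iff, hpK]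
  · simp [insert_subset_iff, hpK]
  · rw [disjoint_left]
    intro x hx hx'
    simp only [mem_insert, mem_singleton] at hx hx'
    rcases hx with rfl | rfl | rfl <;> rcases hx' with h | h | h
    · exact n3 (hp h)
    · exact n4 (hp h)
    · exact n5 (hp h)
    · exact n7 (hp h)
    · exact n8 (hp h)
    · exact n9 (hp h)
    · exact n10 (hp h)
    · exact n11 (hp h)
    · exact n12 (hp h)

lemma m3_of {x a b : V} {e : Bool} (h1 : c s(x, a) = e) (h2 : c s(x, b) = e)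
    (h3 : c s(a, b) = e) : M3 c x a b := ⟨h1.trans h2.symm, h1.trans h3.symm⟩


lemma lemZ1 {K : Finset V} (hK : G.IsClique (K : Set V)) (hno : ¬ Til G c K 2) {P : Finset V}
    (p : Fin 7 → V) (hp : Function.Injective p) (hpK : ∀ i, p i ∈ K)
    (hP : ∀ x, x ∈ P ↔ x = p 0 ∨ x = p 1 ∨ x = p 2 ∨ x = p 3 ∨ x = p 4)
    (h01 : c s(p 0, p 1) = true)
    (h02 : c s(p 0, p 2) = false)
    (h03 : c s(p 0, p 3) = false)
    (h04 : c s(p 0, p 4) = true)
    (h12 : c s(p 1, p 2) = true)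
    (h13 : c s(p 1, p 3) = false)
    (h14 : c s(p 1, p 4) = false)
    (h23 : c s(p 2, p 3) = true)
    (h24 : c s(p 2, p 4) = false)
    (h34 : c s(p 3, p 4) = true)
    : ∃ x0 ∈ P, ∀ i ∈ P, i ≠ x0 → c s(p 5, i) = c s(x0, i) ∧ c s(p 6, i) = c s(x0, i) := by
  have key := boolZ (c s(p 5, p 0)) (c s(p 5, p 1)) (c s(p 5, p 2)) (c s(p 5, p 3))
    (c s(p 5, p 4)) (c s(p 6, p 0)) (c s(p 6, p 1)) (c s(p 6, p 2)) (c s(p 6, p 3))
    (c s(p 6, p 4))
    (fun h => no2 hK hno hp hpK (i := 5) (j := 0) (k := 1) (i' := 6) (j' := 2) (k' := 3) (by decide) (m3_of h.1 h.2.1 h01) (m3_of h.2.2.1 h.2.2.2 h23))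
    (fun h => no2 hK hno hp hpK (i := 5) (j := 0) (k := 1) (i' := 6) (j' := 3) (k' := 4) (by decide) (m3_of h.1 h.2.1 h01) (m3_of h.2.2.1 h.2.2.2 h34))
    (fun h => no2 hK hno hp hpK (i := 5) (j := 0) (k := 1) (i' := 6) (j' := 2) (k' := 4) (by decide) (m3_of h.1 h.2.1 h01) (m3_of h.2.2.1 h.2.2.2 h24))
    (fun h => no2 hK hno hp hpK (i := 5) (j := 1) (k := 2) (i' := 6) (j' := 3) (k' := 4) (by decide) (m3_of h.1 h.2.1 h12) (m3_of h.2.2.1 h.2.2.2 h34))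
    (fun h => no2 hK hno hp hpK (i := 5) (j := 1) (k := 2) (i' := 6) (j' := 0) (k' := 4) (by decide) (m3_of h.1 h.2.1 h12) (m3_of h.2.2.1 h.2.2.2 h04))
    (fun h => no2 hK hno hp hpK (i := 5) (j := 1) (k := 2) (i' := 6) (j' := 0) (k' := 3) (by decide) (m3_of h.1 h.2.1 h12) (m3_of h.2.2.1 h.2.2.2 h03))
    (fun h => no2 hK hno hp hpK (i := 5) (j := 2) (k := 3) (i' := 6) (j' := 0) (k' := 1) (by decide) (m3_of h.1 h.2.1 h23) (m3_of h.2.2.1 h.2.2.2 h01))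
    (fun h => no2 hK hno hp hpK (i := 5) (j := 2) (k := 3) (i' := 6) (j' := 0) (k' := 4) (by decide) (m3_of h.1 h.2.1 h23) (m3_of h.2.2.1 h.2.2.2 h04))
    (fun h => no2 hK hno hp hpK (i := 5) (j := 2) (k := 3) (i' := 6) (j' := 1) (k' := 4) (by decide) (m3_of h.1 h.2.1 h23) (m3_of h.2.2.1 h.2.2.2 h14))
    (fun h => no2 hK hno hp hpK (i := 5) (j := 3) (k := 4) (i' := 6) (j' := 0) (k' := 1) (by decide) (m3_of h.1 h.2.1 h34) (m3_of h.2.2.1 h.2.2.2 h01))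
    (fun h => no2 hK hno hp hpK (i := 5) (j := 3) (k := 4) (i' := 6) (j' := 1) (k' := 2) (by decide) (m3_of h.1 h.2.1 h34) (m3_of h.2.2.1 h.2.2.2 h12))
    (fun h => no2 hK hno hp hpK (i := 5) (j := 3) (k := 4) (i' := 6) (j' := 0) (k' := 2) (by decide) (m3_of h.1 h.2.1 h34) (m3_of h.2.2.1 h.2.2.2 h02))
    (fun h => no2 hK hno hp hpK (i := 5) (j := 0) (k := 4) (i' := 6) (j' := 1) (k' := 2) (by decide) (m3_of h.1 h.2.1 h04) (m3_of h.2.2.1 h.2.2.2 h12))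
    (fun h => no2 hK hno hp hpK (i := 5) (j := 0) (k := 4) (i' := 6) (j' := 2) (k' := 3) (by decide) (m3_of h.1 h.2.1 h04) (m3_of h.2.2.1 h.2.2.2 h23))
    (fun h => no2 hK hno hp hpK (i := 5) (j := 0) (k := 4) (i' := 6) (j' := 1) (k' := 3) (by decide) (m3_of h.1 h.2.1 h04) (m3_of h.2.2.1 h.2.2.2 h13))
    (fun h => no2 hK hno hp hpK (i := 5) (j := 0) (k := 2) (i' := 6) (j' := 3) (k' := 4) (by decide) (m3_of h.1 h.2.1 h02) (m3_of h.2.2.1 h.2.2.2 h34))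
    (fun h => no2 hK hno hp hpK (i := 5) (j := 0) (k := 2) (i' := 6) (j' := 1) (k' := 4) (by decide) (m3_of h.1 h.2.1 h02) (m3_of h.2.2.1 h.2.2.2 h14))
    (fun h => no2 hK hno hp hpK (i := 5) (j := 0) (k := 2) (i' := 6) (j' := 1) (k' := 3) (by decide) (m3_of h.1 h.2.1 h02) (m3_of h.2.2.1 h.2.2.2 h13))
    (fun h => no2 hK hno hp hpK (i := 5) (j := 2) (k := 4) (i' := 6) (j' := 0) (k' := 1) (by decide) (m3_of h.1 h.2.1 h24) (m3_of h.2.2.1 h.2.2.2 h01))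
    (fun h => no2 hK hno hp hpK (i := 5) (j := 2) (k := 4) (i' := 6) (j' := 1) (k' := 3) (by decide) (m3_of h.1 h.2.1 h24) (m3_of h.2.2.1 h.2.2.2 h13))
    (fun h => no2 hK hno hp hpK (i := 5) (j := 2) (k := 4) (i' := 6) (j' := 0) (k' := 3) (by decide) (m3_of h.1 h.2.1 h24) (m3_of h.2.2.1 h.2.2.2 h03))
    (fun h => no2 hK hno hp hpK (i := 5) (j := 1) (k := 4) (i' := 6) (j' := 2) (k' := 3) (by decide) (m3_of h.1 h.2.1 h14) (m3_of h.2.2.1 h.2.2.2 h23))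
    (fun h => no2 hK hno hp hpK (i := 5) (j := 1) (k := 4) (i' := 6) (j' := 0) (k' := 2) (by decide) (m3_of h.1 h.2.1 h14) (m3_of h.2.2.1 h.2.2.2 h02))
    (fun h => no2 hK hno hp hpK (i := 5) (j := 1) (k := 4) (i' := 6) (j' := 0) (k' := 3) (by decide) (m3_of h.1 h.2.1 h14) (m3_of h.2.2.1 h.2.2.2 h03))
    (fun h => no2 hK hno hp hpK (i := 5) (j := 1) (k := 3) (i' := 6) (j' := 0) (k' := 4) (by decide) (m3_of h.1 h.2.1 h13) (m3_of h.2.2.1 h.2.2.2 h04))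
    (fun h => no2 hK hno hp hpK (i := 5) (j := 1) (k := 3) (i' := 6) (j' := 0) (k' := 2) (by decide) (m3_of h.1 h.2.1 h13) (m3_of h.2.2.1 h.2.2.2 h02))
    (fun h => no2 hK hno hp hpK (i := 5) (j := 1) (k := 3) (i' := 6) (j' := 2) (k' := 4) (by decide) (m3_of h.1 h.2.1 h13) (m3_of h.2.2.1 h.2.2.2 h24))
    (fun h => no2 hK hno hp hpK (i := 5) (j := 0) (k := 3) (i' := 6) (j' := 1) (k' := 2) (by decide) (m3_of h.1 h.2.1 h03) (m3_of h.2.2.1 h.2.2.2 h12))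
    (fun h => no2 hK hno hp hpK (i := 5) (j := 0) (k := 3) (i' := 6) (j' := 2) (k' := 4) (by decide) (m3_of h.1 h.2.1 h03) (m3_of h.2.2.1 h.2.2.2 h24))
    (fun h => no2 hK hno hp hpK (i := 5) (j := 0) (k := 3) (i' := 6) (j' := 1) (k' := 4) (by decide) (m3_of h.1 h.2.1 h03) (m3_of h.2.2.1 h.2.2.2 h14))
  rcases key with
    ⟨a1, a2, a3, a4, b1, b2, b3, b4⟩ |
    ⟨a0, a2, a3, a4, b0, b2, b3, b4⟩ |
    ⟨a0, a1, a3, a4, b0, b1, b3, b4⟩ |
    ⟨a0, a1, a2, a4, b0, b1, b2, b4⟩ |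
    ⟨a0, a1, a2, a3, b0, b1, b2, b3⟩
  · refine ⟨p 0, (hP _).2 (by simp), fun i hi hne => ?_⟩
    rcases (hP i).1 hi with rfl | rfl | rfl | rfl | rfl
    · exact absurd rfl hne
    · exact ⟨a1.trans h01.symm, b1.trans h01.symm⟩
    · exact ⟨a2.trans h02.symm, b2.trans h02.symm⟩
    · exact ⟨a3.trans h03.symm, b3.trans h03.symm⟩
    · exact ⟨a4.trans h04.symm, b4.trans h04.symm⟩
  · refine ⟨p 1, (hP _).2 (by simp), fun i hi hne => ?_⟩
    rcases (hP i).1 hi with rfl | rfl | rfl | rfl | rfl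
    · exact ⟨a0.trans ((congrArg c Sym2.eq_swap).trans h01).symm, b0.trans ((congrArg c Sym2.eq_swap).trans h01).symm⟩
    · exact absurd rfl hne
    · exact ⟨a2.trans h12.symm, b2.trans h12.symm⟩
    · exact ⟨a3.trans h13.symm, b3.trans h13.symm⟩
    · exact ⟨a4.trans h14.symm, b4.trans h14.symm⟩
  · refine ⟨p 2, (hP _).2 (by simp), fun i hi hne => ?_⟩
    rcases (hP i).1 hi with rfl | rfl | rfl | rfl | rfl
    · exact ⟨a0.trans ((congrArg c Sym2.eq_swap).trans h02).symm, b0.trans ((congrArg c Sym2.eq_swap).trans h02).symm⟩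
    · exact ⟨a1.trans ((congrArg c Sym2.eq_swap).trans h12).symm, b1.trans ((congrArg c Sym2.eq_swap).trans h12).symm⟩
    · exact absurd rfl hne
    · exact ⟨a3.trans h23.symm, b3.trans h23.symm⟩
    · exact ⟨a4.trans h24.symm, b4.trans h24.symm⟩
  · refine ⟨p 3, (hP _).2 (by simp), fun i hi hne => ?_⟩
    rcases (hP i).1 hi with rfl | rfl | rfl | rfl | rfl
    · exact ⟨a0.trans ((congrArg c Sym2.eq_swap).trans h03).symm, b0.trans ((congrArg c Sym2.eq_swap).trans h03).symm⟩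
    · exact ⟨a1.trans ((congrArg c Sym2.eq_swap).trans h13).symm, b1.trans ((congrArg c Sym2.eq_swap).trans h13).symm⟩
    · exact ⟨a2.trans ((congrArg c Sym2.eq_swap).trans h23).symm, b2.trans ((congrArg c Sym2.eq_swap).trans h23).symm⟩
    · exact absurd rfl hne
    · exact ⟨a4.trans h34.symm, b4.trans h34.symm⟩
  · refine ⟨p 4, (hP _).2 (by simp), fun i hi hne => ?_⟩
    rcases (hP i).1 hi with rfl | rfl | rfl | rfl | rfl
    · exact ⟨a0.trans ((congrArg c Sym2.eq_swap).trans h04).symm, b0.trans ((congrArg c Sym2.eq_swap).trans h04).symm⟩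
    · exact ⟨a1.trans ((congrArg c Sym2.eq_swap).trans h14).symm, b1.trans ((congrArg c Sym2.eq_swap).trans h14).symm⟩
    · exact ⟨a2.trans ((congrArg c Sym2.eq_swap).trans h24).symm, b2.trans ((congrArg c Sym2.eq_swap).trans h24).symm⟩
    · exact ⟨a3.trans ((congrArg c Sym2.eq_swap).trans h34).symm, b3.trans ((congrArg c Sym2.eq_swap).trans h34).symm⟩
    · exact absurd rfl hne


lemma lemZ2 {K P : Finset V} (hK : G.IsClique (K : Set V)) (hno : ¬ Til G c K 2)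
    (hKc : K.card = 7) (hPK : P ⊆ K) (hPc : P.card = 5) (hF : Fre c P) :
    ∃ x0 ∈ P, ∀ u ∈ K, u ∉ P → ∀ i ∈ P, i ≠ x0 → c s(u, i) = c s(x0, i) := by
  obtain ⟨l, hl, hln⟩ : ∃ l : List V, l.toFinset = P ∧ l.Nodup :=
    ⟨P.toList, by simp, nodup_toList _⟩
  obtain ⟨m, hm, hmn⟩ : ∃ l : List V, l.toFinset = K \ P ∧ l.Nodup :=
    ⟨(K \ P).toList, by simp, nodup_toList _⟩
  have hlen : l.length = 5 := by
    rw [← List.toFinset_card_of_nodup hln, hl, hPc]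
  have hmen : m.length = 2 := by
    have := card_sdiff_add_card_eq_card hPK
    rw [← List.toFinset_card_of_nodup hmn, hm]
    omega
  match l, hlen, m, hmen with
  | [v, a, b, d, f], _, [u, w], _ =>
    have hnd : ([v, a, b, d, f] ++ [u, w]).Nodup := by
      refine List.Nodup.append hln hmn ?_
      intro x hx hx'
      have h1 : x ∈ P := hl ▸ List.mem_toFinset.2 hx
      have h2 : x ∈ K \ P := hm ▸ List.mem_toFinset.2 hx'
      exact (mem_sdiff.1 h2).2 h1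
    let p : Fin 7 → V := fun i => ([v, a, b, d, f] ++ [u, w]).get i
    have hp : Function.Injective p := List.nodup_iff_injective_get.1 hnd
    have hPp : ∀ x, x ∈ P ↔ x = p 0 ∨ x = p 1 ∨ x = p 2 ∨ x = p 3 ∨ x = p 4 := by
      intro x
      rw [← hl]
      simp [p]
    have hQp : ∀ x, x ∈ K \ P ↔ x = p 5 ∨ x = p 6 := by
      intro x
      rw [← hm]
      simp [p]
    have hpK : ∀ i, p i ∈ K := by
      intro i
      have h5 : p 5 ∈ K := (mem_sdiff.1 ((hQp _).2 (Or.inl rfl))).1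
      have h6 : p 6 ∈ K := (mem_sdiff.1 ((hQp _).2 (Or.inr rfl))).1
      have h0 : p 0 ∈ K := hPK ((hPp _).2 (by simp))
      have h1 : p 1 ∈ K := hPK ((hPp _).2 (by simp))
      have h2 : p 2 ∈ K := hPK ((hPp _).2 (by simp))
      have h3 : p 3 ∈ K := hPK ((hPp _).2 (by simp))
      have h4 : p 4 ∈ K := hPK ((hPp _).2 (by simp))
      fin_cases i
      · exact h0
      · exact h1
      · exact h2
      · exact h3
      · exact h4
      · exact h5
      · exact h6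
    have m0 : p 0 ∈ P := (hPp _).2 (by simp)
    have m1 : p 1 ∈ P := (hPp _).2 (by simp)
    have m2 : p 2 ∈ P := (hPp _).2 (by simp)
    have m3 : p 3 ∈ P := (hPp _).2 (by simp)
    have m4 : p 4 ∈ P := (hPp _).2 (by simp)
    clear_value p
    suffices h : ∃ x0 ∈ P, ∀ i ∈ P, i ≠ x0 → c s(p 5, i) = c s(x0, i) ∧ c s(p 6, i) = c s(x0, i) by
      obtain ⟨x0, hx0, h⟩ := h
      refine ⟨x0, hx0, fun u hu huP i hi hne => ?_⟩
      rcases (hQp u).1 (mem_sdiff.2 ⟨hu, huP⟩) with rfl | rfl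
      · exact (h i hi hne).1
      · exact (h i hi hne).2
    have key := boolP (c s(p 0, p 1)) (c s(p 0, p 2)) (c s(p 0, p 3)) (c s(p 0, p 4)) (c s(p 1, p 2)) (c s(p 1, p 3)) (c s(p 1, p 4)) (c s(p 2, p 3)) (c s(p 2, p 4)) (c s(p 3, p 4))
      (hF _ m0 _ m1 _ m2 (hp.ne (by decide)) (hp.ne (by decide)) (hp.ne (by decide)))
      (hF _ m0 _ m1 _ m3 (hp.ne (by decide)) (hp.ne (by decide)) (hp.ne (by decide)))
      (hF _ m0 _ m1 _ m4 (hp.ne (by decide)) (hp.ne (by decide)) (hp.ne (by decide)))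
      (hF _ m0 _ m2 _ m3 (hp.ne (by decide)) (hp.ne (by decide)) (hp.ne (by decide)))
      (hF _ m0 _ m2 _ m4 (hp.ne (by decide)) (hp.ne (by decide)) (hp.ne (by decide)))
      (hF _ m0 _ m3 _ m4 (hp.ne (by decide)) (hp.ne (by decide)) (hp.ne (by decide)))
      (hF _ m1 _ m2 _ m3 (hp.ne (by decide)) (hp.ne (by decide)) (hp.ne (by decide)))
      (hF _ m1 _ m2 _ m4 (hp.ne (by decide)) (hp.ne (by decide)) (hp.ne (by decide)))
      (hF _ m1 _ m3 _ m4 (hp.ne (by decide)) (hp.ne (by decide)) (hp.ne (by decide)))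
      (hF _ m2 _ m3 _ m4 (hp.ne (by decide)) (hp.ne (by decide)) (hp.ne (by decide)))
    rcases key with
      ⟨g01, g02, g03, g04, g12, g13, g14, g23, g24, g34⟩ |
      ⟨g01, g02, g03, g04, g12, g13, g14, g23, g24, g34⟩ |
      ⟨g01, g02, g03, g04, g12, g13, g14, g23, g24, g34⟩ |
      ⟨g01, g02, g03, g04, g12, g13, g14, g23, g24, g34⟩ |
      ⟨g01, g02, g03, g04, g12, g13, g14, g23, g24, g34⟩ |
      ⟨g01, g02, g03, g04, g12, g13, g14, g23, g24, g34⟩ |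
      ⟨g01, g02, g03, g04, g12, g13, g14, g23, g24, g34⟩ |
      ⟨g01, g02, g03, g04, g12, g13, g14, g23, g24, g34⟩ |
      ⟨g01, g02, g03, g04, g12, g13, g14, g23, g24, g34⟩ |
      ⟨g01, g02, g03, g04, g12, g13, g14, g23, g24, g34⟩ |
      ⟨g01, g02, g03, g04, g12, g13, g14, g23, g24, g34⟩ |
      ⟨g01, g02, g03, g04, g12, g13, g14, g23, g24, g34⟩
    · refine lemZ1 hK hno (P := P) (fun i => p (![0, 1, 2, 3, 4, 5, 6] i)) (hp.comp (by decide)) (fun i => hpK _) ?_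
        g01 g02 g03 g04 g12 g13 g14 g23 g24 g34
      intro x
      show x ∈ P ↔ x = p 0 ∨ x = p 1 ∨ x = p 2 ∨ x = p 3 ∨ x = p 4
      have := hPp x
      tauto
    · refine lemZ1 hK hno (P := P) (fun i => p (![0, 1, 2, 4, 3, 5, 6] i)) (hp.comp (by decide)) (fun i => hpK _) ?_
        g01 g02 g04 g03 g12 g14 g13 g24 g23 ((congrArg c Sym2.eq_swap).trans g34)
      intro x
      show x ∈ P ↔ x = p 0 ∨ x = p 1 ∨ x = p 2 ∨ x = p 4 ∨ x = p 3
      have := hPp x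
      tauto
    · refine lemZ1 hK hno (P := P) (fun i => p (![0, 1, 3, 2, 4, 5, 6] i)) (hp.comp (by decide)) (fun i => hpK _) ?_
        g01 g03 g02 g04 g13 g12 g14 ((congrArg c Sym2.eq_swap).trans g23) g34 g24
      intro x
      show x ∈ P ↔ x = p 0 ∨ x = p 1 ∨ x = p 3 ∨ x = p 2 ∨ x = p 4
      have := hPp x
      tauto
    · refine lemZ1 hK hno (P := P) (fun i => p (![0, 1, 3, 4, 2, 5, 6] i)) (hp.comp (by decide)) (fun i => hpK _) ?_
        g01 g03 g04 g02 g13 g14 g12 g34 ((congrArg c Sym2.eq_swap).trans g23) ((congrArg c Sym2.eq_swap).trans g24)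
      intro x
      show x ∈ P ↔ x = p 0 ∨ x = p 1 ∨ x = p 3 ∨ x = p 4 ∨ x = p 2
      have := hPp x
      tauto
    · refine lemZ1 hK hno (P := P) (fun i => p (![0, 1, 4, 2, 3, 5, 6] i)) (hp.comp (by decide)) (fun i => hpK _) ?_
        g01 g04 g02 g03 g14 g12 g13 ((congrArg c Sym2.eq_swap).trans g24) ((congrArg c Sym2.eq_swap).trans g34) g23
      intro x
      show x ∈ P ↔ x = p 0 ∨ x = p 1 ∨ x = p 4 ∨ x = p 2 ∨ x = p 3
      have := hPp x
      tauto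
    · refine lemZ1 hK hno (P := P) (fun i => p (![0, 1, 4, 3, 2, 5, 6] i)) (hp.comp (by decide)) (fun i => hpK _) ?_
        g01 g04 g03 g02 g14 g13 g12 ((congrArg c Sym2.eq_swap).trans g34) ((congrArg c Sym2.eq_swap).trans g24) ((congrArg c Sym2.eq_swap).trans g23)
      intro x
      show x ∈ P ↔ x = p 0 ∨ x = p 1 ∨ x = p 4 ∨ x = p 3 ∨ x = p 2
      have := hPp x
      tauto
    · refine lemZ1 hK hno (P := P) (fun i => p (![0, 2, 1, 3, 4, 5, 6] i)) (hp.comp (by decide)) (fun i => hpK _) ?_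
        g02 g01 g03 g04 ((congrArg c Sym2.eq_swap).trans g12) g23 g24 g13 g14 g34
      intro x
      show x ∈ P ↔ x = p 0 ∨ x = p 2 ∨ x = p 1 ∨ x = p 3 ∨ x = p 4
      have := hPp x
      tauto
    · refine lemZ1 hK hno (P := P) (fun i => p (![0, 2, 1, 4, 3, 5, 6] i)) (hp.comp (by decide)) (fun i => hpK _) ?_
        g02 g01 g04 g03 ((congrArg c Sym2.eq_swap).trans g12) g24 g23 g14 g13 ((congrArg c Sym2.eq_swap).trans g34)
      intro x
      show x ∈ P ↔ x = p 0 ∨ x = p 2 ∨ x = p 1 ∨ x = p 4 ∨ x = p 3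
      have := hPp x
      tauto
    · refine lemZ1 hK hno (P := P) (fun i => p (![0, 2, 3, 1, 4, 5, 6] i)) (hp.comp (by decide)) (fun i => hpK _) ?_
        g02 g03 g01 g04 g23 ((congrArg c Sym2.eq_swap).trans g12) g24 ((congrArg c Sym2.eq_swap).trans g13) g34 g14
      intro x
      show x ∈ P ↔ x = p 0 ∨ x = p 2 ∨ x = p 3 ∨ x = p 1 ∨ x = p 4
      have := hPp x
      tauto
    · refine lemZ1 hK hno (P := P) (fun i => p (![0, 2, 4, 1, 3, 5, 6] i)) (hp.comp (by decide)) (fun i => hpK _) ?_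
        g02 g04 g01 g03 g24 ((congrArg c Sym2.eq_swap).trans g12) g23 ((congrArg c Sym2.eq_swap).trans g14) ((congrArg c Sym2.eq_swap).trans g34) g13
      intro x
      show x ∈ P ↔ x = p 0 ∨ x = p 2 ∨ x = p 4 ∨ x = p 1 ∨ x = p 3
      have := hPp x
      tauto
    · refine lemZ1 hK hno (P := P) (fun i => p (![0, 3, 1, 2, 4, 5, 6] i)) (hp.comp (by decide)) (fun i => hpK _) ?_
        g03 g01 g02 g04 ((congrArg c Sym2.eq_swap).trans g13) ((congrArg c Sym2.eq_swap).trans g23) g34 g12 g14 g24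
      intro x
      show x ∈ P ↔ x = p 0 ∨ x = p 3 ∨ x = p 1 ∨ x = p 2 ∨ x = p 4
      have := hPp x
      tauto
    · refine lemZ1 hK hno (P := P) (fun i => p (![0, 3, 2, 1, 4, 5, 6] i)) (hp.comp (by decide)) (fun i => hpK _) ?_
        g03 g02 g01 g04 ((congrArg c Sym2.eq_swap).trans g23) ((congrArg c Sym2.eq_swap).trans g13) g34 ((congrArg c Sym2.eq_swap).trans g12) g24 g14
      intro x
      show x ∈ P ↔ x = p 0 ∨ x = p 3 ∨ x = p 2 ∨ x = p 1 ∨ x = p 4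
      have := hPp x
      tauto


end Pool.Agent.Helper4MT
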