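import Pool.Agent.Helper4MT.Weights

/-!
# The exact bound for monochromatic triangle tilings at medium minimum degree
-/

set_option autoImplicit false

namespace Pool.Agent.Helper4MT

open Finset

open scoped Classical

universe u

variable {V : Type u} {G : SimpleGraph V} {c : Sym2 V → Bool}

/-! ### Partitions into cliques with 6, 7 or 8 vertices -/

/-- `H` together with a clique on `p` new vertices -/
def padG (H : SimpleGraph V) (p : ℕ) : SimpleGraph (V ⊕ Fin p) where
  Adj a b := (∃ x y, a = Sum.inl x ∧ b = Sum.inl y ∧ H.Adj x y) ∨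
    (∃ i j, a = Sum.inr i ∧ b = Sum.inr j ∧ i ≠ j)
  symm := ⟨fun a b h => by
    rcases h with ⟨x, y, h1, h2, h3⟩ | ⟨i, j, h1, h2, h3⟩
    · exact Or.inl ⟨y, x, h2, h1, h3.symm⟩
    · exact Or.inr ⟨j, i, h2, h1, h3.symm⟩⟩
  loopless := ⟨fun a h => by
    rcases h with ⟨x, y, h1, h2, h3⟩ | ⟨i, j, h1, h2, h3⟩
    · have : x = y := Sum.inl_injective (h1.symm.trans h2)
      exact H.loopless.irrefl x (this ▸ h3)
    · exact h3 (Sum.inr_injective (h1.symm.trans h2))⟩

lemma pad_col {U : Finset V} {k d p : ℕ} (hU : U.card + p = k * d) (hp : p < k ∨ p = 0)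
    (hk : ∀ v ∈ U, (nn G U v).card < k) :
    ∃ f : V → ℕ, (∀ v ∈ U, f v ∈ range k) ∧ Prp Gᶜ U f ∧
      ∀ l ∈ range k, d ≤ (cls U f l).card + 1 ∧ (cls U f l).card ≤ d := by
  set U' : Finset (V ⊕ Fin p) := U.image Sum.inl ∪ (univ : Finset (Fin p)).image Sum.inr with hU'
  have hdis : Disjoint (U.image (Sum.inl : V → V ⊕ Fin p))
      ((univ : Finset (Fin p)).image (Sum.inr : Fin p → V ⊕ Fin p)) := by
    rw [disjoint_left]
    intro a ha hb
    obtain ⟨x, _, rfl⟩ := mem_image.1 ha
    obtain ⟨i, _, hi⟩ := mem_image.1 hb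
    exact absurd hi (by simp)
  have hc : U'.card = (range k).card * d := by
    rw [hU', card_union_of_disjoint hdis, card_image_of_injective _ Sum.inl_injective,
      card_image_of_injective _ Sum.inr_injective, card_univ, Fintype.card_fin, card_range, hU]
  have hdeg : ∀ v ∈ U', (U'.filter (fun x => (padG Gᶜ p).Adj v x)).card < (range k).card := by
    intro v hv
    rw [card_range]
    rcases mem_union.1 hv with h | h
    · obtain ⟨x, hx, rfl⟩ := mem_image.1 h
      refine lt_of_le_of_lt ?_ (hk x hx)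
      refine le_trans (card_le_card ?_) (card_image_le (s := nn G U x)
        (f := (Sum.inl : V → V ⊕ Fin p)))
      intro a ha
      obtain ⟨ha1, ha2⟩ := mem_filter.1 ha
      rcases ha2 with ⟨x', y, h1, h2, h3⟩ | ⟨i, j, h1, h2, h3⟩
      · rw [← Sum.inl_injective h1] at h3
        rw [h2] at ha1 ⊢
        have hy : y ∈ U := by
          rcases mem_union.1 ha1 with h | h
          · obtain ⟨z, hz, hz'⟩ := mem_image.1 h
            exact Sum.inl_injective hz' ▸ hz
          · obtain ⟨z, hz, hz'⟩ := mem_image.1 h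
            exact absurd hz' (by simp)
        exact mem_image.2 ⟨y, mem_nn.2 ⟨hy, h3.1, fun h4 => h3.2 h4⟩, rfl⟩
      · exact absurd h1 (by simp)
    · obtain ⟨i, hi, rfl⟩ := mem_image.1 h
      have hi' : i.1 < p := i.2
      have hp' : p < k := by omega
      refine lt_of_le_of_lt (card_le_card ?_) (lt_of_le_of_lt (card_image_le
        (s := (univ : Finset (Fin p))) (f := (Sum.inr : Fin p → V ⊕ Fin p)))
        (by rwa [card_univ, Fintype.card_fin]))
      intro a ha
      obtain ⟨ha1, ha2⟩ := mem_filter.1 ha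
      rcases ha2 with ⟨x', y, h1, h2, h3⟩ | ⟨i, j, h1, h2, h3⟩
      · exact absurd h1 (by simp)
      · rw [h2]
        exact mem_image_of_mem _ (mem_univ _)
  obtain ⟨g, hg, hgp, hgc⟩ := hajnal_szemeredi d k (padG Gᶜ p) (range k) U' (card_range k) hc hdeg
  have min : ∀ v ∈ U, Sum.inl v ∈ U' := fun v hv => mem_union_left _ (mem_image_of_mem _ hv)
  refine ⟨fun v => g (Sum.inl v), fun v hv => hg _ (min v hv), ?_, ?_⟩
  · intro a ha b hb hab
    exact hgp _ (min a ha) _ (min b hb) (Or.inl ⟨a, b, rfl, rfl, hab⟩)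
  · intro l hl
    have e1 : ((cls U (fun v => g (Sum.inl v)) l).image (Sum.inl : V → V ⊕ Fin p))
        ⊆ cls U' g l := by
      intro a ha
      obtain ⟨x, hx, rfl⟩ := mem_image.1 ha
      obtain ⟨h1, h2⟩ := mem_cls.1 hx
      exact mem_cls.2 ⟨min x h1, h2⟩
    have e2 := card_le_card e1
    rw [card_image_of_injective _ Sum.inl_injective, hgc l hl] at e2
    refine ⟨?_, e2⟩
    set R := (univ : Finset (Fin p)).filter (fun i => g (Sum.inr i) = l) with hR
    have hR1 : R.card ≤ 1 := by
      rw [card_le_one]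
      intro i hi j hj
      by_contra hne
      have hi' := (mem_filter.1 hi).2
      have hj' := (mem_filter.1 hj).2
      exact hgp (Sum.inr i) (mem_union_right _ (mem_image_of_mem _ (mem_univ _))) (Sum.inr j)
        (mem_union_right _ (mem_image_of_mem _ (mem_univ _))) (Or.inr ⟨i, j, rfl, rfl, hne⟩)
        (hi'.trans hj'.symm)
    have e3 : cls U' g l ⊆ ((cls U (fun v => g (Sum.inl v)) l).image (Sum.inl : V → V ⊕ Fin p))
        ∪ R.image (Sum.inr : Fin p → V ⊕ Fin p) := by
      intro a ha
      obtain ⟨h1, h2⟩ := mem_cls.1 ha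
      rcases mem_union.1 h1 with h | h
      · obtain ⟨x, hx, rfl⟩ := mem_image.1 h
        exact mem_union_left _ (mem_image_of_mem _ (mem_cls.2 ⟨hx, h2⟩))
      · obtain ⟨i, hi, rfl⟩ := mem_image.1 h
        exact mem_union_right _ (mem_image_of_mem _ (mem_filter.2 ⟨mem_univ _, h2⟩))
    have e4 := (card_le_card e3).trans (card_union_le _ _)
    have e5 := card_image_le (s := R) (f := (Sum.inr : Fin p → V ⊕ Fin p))
    have e6 := card_image_le (s := cls U (fun v => g (Sum.inl v)) l)
      (f := (Sum.inl : V → V ⊕ Fin p))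
    rw [hgc l hl] at e4
    omega

/-- a partition of `U` into `k` cliques (numbered by `f`) with 6, 7 or 8 vertices -/
def Val (G : SimpleGraph V) (U : Finset V) (k : ℕ) (f : V → ℕ) : Prop :=
  (∀ v ∈ U, f v ∈ range k) ∧ Prp Gᶜ U f ∧
    ∀ l ∈ range k, 6 ≤ (cls U f l).card ∧ (cls U f l).card ≤ 8

/-- the classes with seven vertices -/
noncomputable def sev (U : Finset V) (k : ℕ) (f : V → ℕ) : Finset ℕ :=
  (range k).filter (fun l => (cls U f l).card = 7)

lemma exists_val {U : Finset V} {k : ℕ} (h6 : 6 * k ≤ U.card) (h8 : U.card ≤ 8 * k)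
    (hk : ∀ v ∈ U, (nn G U v).card < k) : ∃ f, Val G U k f := by
  by_cases h : U.card = 6 * k
  · obtain ⟨f, h1, h2, h3⟩ := pad_col (k := k) (d := 6) (p := 0) (by omega) (Or.inr rfl) hk
    obtain ⟨f, h1, h2, h3⟩ := hajnal_szemeredi 6 k Gᶜ (range k) U (card_range k)
      (by rw [card_range, h]; ring) (by
        intro v hv
        rw [card_range]
        refine lt_of_le_of_lt (card_le_card ?_) (hk v hv)
        intro x hx
        simpa [nn] using hx)
    exact ⟨f, h1, h2, fun l hl => by rw [h3 l hl]; omega⟩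
  · by_cases h7 : U.card ≤ 7 * k
    · obtain ⟨f, h1, h2, h3⟩ := pad_col (k := k) (d := 7) (p := 7 * k - U.card) (by omega)
        (by omega) hk
      exact ⟨f, h1, h2, fun l hl => by have := h3 l hl; omega⟩
    · obtain ⟨f, h1, h2, h3⟩ := pad_col (k := k) (d := 8) (p := 8 * k - U.card) (by omega)
        (by omega) hk
      exact ⟨f, h1, h2, fun l hl => by have := h3 l hl; omega⟩

lemma exists_min_val {U : Finset V} {k : ℕ} (h : ∃ f, Val G U k f) :
    ∃ f, Val G U k f ∧ ∀ f', Val G U k f' → (sev U k f).card ≤ (sev U k f').card := by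
  have hex : ∃ m, ∃ f, Val G U k f ∧ (sev U k f).card = m := by
    obtain ⟨f, hf⟩ := h
    exact ⟨_, f, hf, rfl⟩
  obtain ⟨f, hf, hfm⟩ := Nat.find_spec hex
  refine ⟨f, hf, fun f' hf' => ?_⟩
  rw [hfm]
  exact Nat.find_min' hex ⟨f', hf', rfl⟩

/-! ### Counting helpers -/

lemma nbr_eq {U : Finset V} {f : V → ℕ} (y : V) (j : ℕ) :
    nbr Gᶜ U f y j = nn G (cls U f j) y := by
  ext x
  simp [nbr, nn]

lemma nn_split {U : Finset V} {f : V → ℕ} (P : Finset ℕ) (y : V) :
    ∑ j ∈ P, (nn G (cls U f j) y).card + (nn G (U.filter (fun v => f v ∉ P)) y).card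
      = (nn G U y).card := by
  have h := deg_split (H := Gᶜ) (U := U) (f := f) P y
  rw [sum_congr rfl (fun j _ => by rw [nbr_eq])] at h
  have e1 : (U.filter (fun v => f v ∉ P)).filter (fun x => Gᶜ.Adj y x)
      = nn G (U.filter (fun v => f v ∉ P)) y := by
    ext x
    simp [nn]
  have e2 : U.filter (fun x => Gᶜ.Adj y x) = nn G U y := by
    ext x
    simp [nn]
  rw [← e1, ← e2]
  convert h

lemma card_cls_sum {U : Finset V} {f : V → ℕ} (D : Finset ℕ) :
    (U.filter (fun v => f v ∈ D)).card = ∑ l ∈ D, (cls U f l).card := by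
  rw [card_eq_sum_card_fiberwise (f := f) (t := D)]
  · refine sum_congr rfl fun l hl => ?_
    congr 1
    ext v
    simp only [mem_filter, mem_cls]
    constructor
    · rintro ⟨⟨h1, _⟩, h3⟩
      exact ⟨h1, h3⟩
    · rintro ⟨h1, h3⟩
      exact ⟨⟨h1, by rw [h3]; exact hl⟩, h3⟩
  · intro v hv
    exact (mem_filter.1 hv).2

lemma til_filter {U : Finset V} {f : V → ℕ} {D : Finset ℕ} {m : ℕ → ℕ}
    (h : ∀ l ∈ D, Til G c (cls U f l) (m l)) :
    Til G c (U.filter (fun v => f v ∈ D)) (∑ l ∈ D, m l) := by
  refine til_classes (f := f) fun l hl => (h l hl).mono ?_ le_rfl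
  intro x hx
  obtain ⟨h1, h2⟩ := mem_cls.1 hx
  exact mem_cls.2 ⟨mem_filter.2 ⟨h1, h2 ▸ hl⟩, h2⟩

lemma cls_clique {U : Finset V} {f : V → ℕ} (hp : Prp Gᶜ U f) (l : ℕ) :
    G.IsClique ((cls U f l : Finset V) : Set V) := by
  intro x hx y hy hxy
  have hx' := mem_cls.1 (mem_coe.1 hx)
  have hy' := mem_cls.1 (mem_coe.1 hy)
  by_contra hn
  exact hp x hx'.1 y hy'.1 ⟨hxy, hn⟩ (hx'.2.trans hy'.2.symm)

lemma til_tau {S : Finset V} (hS : G.IsClique (S : Set V)) (h6 : 6 ≤ S.card) (h8 : S.card ≤ 8) :
    Til G c S ((S.card - 4) / 2) := by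
  by_cases h : S.card = 8
  · exact (til_eight hS h.ge).mono (Subset.refl _) (by omega)
  · exact (til_six hS h6).mono (Subset.refl _) (by omega)

/-! ### One class with seven vertices -/

lemma side {n : ℕ} (ih : ∀ m < n, ∀ (k : ℕ) (U : Finset V), U.card = m → 6 * k ≤ m → m ≤ 8 * k →
      (∀ v ∈ U, (nn G U v).card < k) → Til G c U ((m - 4 * k) / 2))
    {U : Finset V} {k : ℕ} {f : V → ℕ} (hU : U.card = n) (hn : n % 2 = 0)
    (hk : ∀ v ∈ U, (nn G U v).card < k) (hno : ¬ Til G c U ((n - 4 * k) / 2))
    (hv : Val G U k f)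
    (hmin : ∀ f', Val G U k f' → (sev U k f).card ≤ (sev U k f').card) {i : ℕ}
    (hi : i ∈ range k) (h7 : (cls U f i).card = 7) :
    ∃ A ⊆ range k, i ∈ A ∧ (∀ l ∈ A, l ≠ i → (cls U f l).card = 6 ∨ (cls U f l).card = 8) ∧
      (∀ v ∈ U, f v ∉ A → ∀ l ∈ A, (nn G (cls U f l) v).Nonempty) ∧
      (∀ w ∈ U, f w ∉ A → ¬ Til G c (insert w (cls U f i)) 2) ∧
      (∀ l ∈ A, l ≠ i → ¬ Til G c (cls U f i ∪ cls U f l) ((cls U f l).card / 2)) := by
  obtain ⟨hvC, hvp, hvs⟩ := hv
  set A := (range k).filter (fun l => Reach Gᶜ U f i (range k) l) with hA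
  have hAk : A ⊆ range k := filter_subset _ _
  have hiA : i ∈ A := mem_filter.2 ⟨hi, Reach.base _ hi⟩
  have F1 : ∀ l ∈ A, l ≠ i → (cls U f l).card = 6 ∨ (cls U f l).card = 8 := by
    intro l hl hli
    obtain ⟨hlk, hlr⟩ := mem_filter.1 hl
    have hs := hvs l hlk
    by_contra hcon
    have hl7 : (cls U f l).card = 7 := by omega
    obtain ⟨f', _, g2, g3, _, g5⟩ := hlr.shift hvp
    have hval : Val G U k f' := by
      refine ⟨fun v hv => g2 v hv (hvC v hv), g3, fun l' hl' => ?_⟩
      have e1 := g5 l'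
      have e2 := hvs l' hl'
      by_cases h1 : l' = l
      · subst h1
        rw [if_pos rfl, if_neg hli] at e1
        omega
      · rw [if_neg h1] at e1
        by_cases h2 : l' = i
        · subst h2
          rw [if_pos rfl] at e1
          omega
        · rw [if_neg h2] at e1
          omega
    have hlt : sev U k f' ⊂ sev U k f := by
      refine ⟨?_, ?_⟩
      · intro l' hl'
        obtain ⟨h1, h2⟩ := mem_filter.1 hl'
        have e1 := g5 l'
        refine mem_filter.2 ⟨h1, ?_⟩
        by_cases h3 : l' = l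
        · subst h3
          rw [if_pos rfl, if_neg hli] at e1
          omega
        · rw [if_neg h3] at e1
          by_cases h4 : l' = i
          · subst h4
            rw [if_pos rfl] at e1
            omega
          · rw [if_neg h4] at e1
            omega
      · intro h
        have h1 := (mem_filter.1 (h (mem_filter.2 ⟨hi, h7⟩))).2
        have e1 := g5 i
        rw [if_neg (Ne.symm hli), if_pos rfl] at e1
        omega
    have h1 := card_lt_card hlt
    have h2 := hmin f' hval
    omega
  have F2 : ∀ v ∈ U, f v ∉ A → ∀ l ∈ A, (nn G (cls U f l) v).Nonempty := by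
    intro v hvU hvA l hl
    by_contra hcon
    rw [not_nonempty_iff_eq_empty] at hcon
    refine hvA (mem_filter.2 ⟨hvC v hvU, Reach.cons (hvC v hvU) ⟨v, hvU, rfl, ?_⟩
      (mem_filter.1 hl).2⟩)
    intro x hx hxl hadj
    have : x ∈ nn G (cls U f l) v := mem_nn.2 ⟨mem_cls.2 ⟨hx, hxl⟩, hadj.1, hadj.2⟩
    rw [hcon] at this
    exact notMem_empty _ this
  set B := U.filter (fun v => f v ∉ A) with hB
  set q := (range k \ A).card with hq
  have hBU : B ⊆ U := filter_subset _ _
  have hqk : q + A.card = k := by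
    have := card_sdiff_add_card_eq_card hAk
    rwa [card_range] at this
  have hBe : B = U.filter (fun v => f v ∈ range k \ A) := by
    ext v
    simp only [hB, mem_filter, mem_sdiff]
    constructor
    · rintro ⟨h1, h2⟩
      exact ⟨h1, hvC v h1, h2⟩
    · rintro ⟨h1, _, h2⟩
      exact ⟨h1, h2⟩
  have hBc : B.card = ∑ l ∈ range k \ A, (cls U f l).card := by
    rw [hBe]
    exact card_cls_sum _
  have hB6 : 6 * q ≤ B.card := by
    have := card_nsmul_le_sum (range k \ A) (fun l => (cls U f l).card) 6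
      (fun l hl => (hvs l (mem_sdiff.1 hl).1).1)
    rw [hBc]
    rw [smul_eq_mul, ← hq, Nat.mul_comm] at this
    exact this
  have hB8 : B.card ≤ 8 * q := by
    have := sum_le_card_nsmul (range k \ A) (fun l => (cls U f l).card) 8
      (fun l hl => (hvs l (mem_sdiff.1 hl).1).2)
    rw [hBc]
    rw [smul_eq_mul, ← hq, Nat.mul_comm] at this
    exact this
  have hUAB : (U.filter (fun v => f v ∈ A)).card + B.card = n := by
    rw [← hU]
    exact card_filter_add_card_filter_not _
  -- the sum of the numbers of triangles in the other accessible classes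
  set t : ℕ → ℕ := fun l => ((cls U f l).card - 4) / 2 with ht
  have hsum : ∀ D ⊆ A.erase i, ∑ l ∈ D, (cls U f l).card = 2 * ∑ l ∈ D, t l + 4 * D.card := by
    intro D hD
    have : ∀ l ∈ D, (cls U f l).card = 2 * t l + 4 := by
      intro l hl
      have h1 := mem_erase.1 (hD hl)
      have h2 := F1 l h1.2 h1.1
      simp only [ht]
      omega
    rw [sum_congr rfl this, sum_add_distrib, ← mul_sum, sum_const, smul_eq_mul]
    ring
  have hUA : (U.filter (fun v => f v ∈ A)).card = 7 + ∑ l ∈ A.erase i, (cls U f l).card := by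
    rw [card_cls_sum, ← add_sum_erase _ _ hiA, h7]
  have hAe : (A.erase i).card + 1 = A.card := card_erase_add_one hiA
  have hsA := hsum (A.erase i) (Subset.refl _)
  have hBodd : B.card % 2 = 1 := by omega
  have hBpos : 0 < B.card := by omega
  have hBn : B.card ≤ n := by omega
  -- induction inside `B`
  have hIH : ∀ w ∈ B, Til G c (B.erase w) ((B.card - 1 - 4 * q) / 2) := by
    intro w hw
    refine ih (B.card - 1) (by omega) q (B.erase w) (by rw [card_erase_of_mem hw]) (by omega)
      (by omega) ?_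
    intro v hv
    have hvB := mem_of_mem_erase hv
    have hvU := hBU hvB
    have e1 := nn_split (G := G) (U := U) (f := f) A v
    rw [← hB] at e1
    have e2 := card_nsmul_le_sum A (fun l => (nn G (cls U f l) v).card) 1
      (fun l hl => card_pos.2 (F2 v hvU (mem_filter.1 hvB).2 l hl))
    rw [smul_eq_mul, Nat.mul_one] at e2
    have e3 := hk v hvU
    have e4 := card_le_card (nn_mono (G := G) (erase_subset w B) v)
    omega
  -- the union of the pieces
  have comb : ∀ w ∈ B, ∀ D ⊆ A.erase i, ∀ (S : Finset V) (m : ℕ), S ⊆ U →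
      (∀ x ∈ S, x ≠ w → f x ∈ A ∧ f x ∉ D) → Til G c S m →
      Til G c U (m + ∑ l ∈ D, t l + (B.card - 1 - 4 * q) / 2) := by
    intro w hw D hD S m hSU hS hSt
    have hDt : Til G c (U.filter (fun v => f v ∈ D)) (∑ l ∈ D, t l) := by
      refine til_filter fun l hl => ?_
      have hlA := mem_of_mem_erase (hD hl)
      have h1 := hvs l (hAk hlA)
      exact til_tau (cls_clique hvp l) h1.1 h1.2
    have hwA : f w ∉ A := (mem_filter.1 hw).2
    have d1 : Disjoint S (U.filter (fun v => f v ∈ D)) := by
      rw [disjoint_left]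
      intro x hx hx'
      have hxD := (mem_filter.1 hx').2
      by_cases hxw : x = w
      · rw [hxw] at hxD
        exact hwA (mem_of_mem_erase (hD hxD))
      · exact (hS x hx hxw).2 hxD
    have d2 : Disjoint (S ∪ U.filter (fun v => f v ∈ D)) (B.erase w) := by
      rw [disjoint_left]
      intro x hx hx'
      obtain ⟨g1, g2⟩ := mem_erase.1 hx'
      have g3 := (mem_filter.1 g2).2
      rcases mem_union.1 hx with h | h
      · exact g3 (hS x h g1).1
      · exact g3 (mem_of_mem_erase (hD (mem_filter.1 h).2))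
    exact ((hSt.union hDt d1).union (hIH w hw) d2).mono
      (union_subset (union_subset hSU (filter_subset _ _)) ((erase_subset _ _).trans hBU)) le_rfl
  have hKU : cls U f i ⊆ U := filter_subset _ _
  refine ⟨A, hAk, hiA, F1, F2, ?_, ?_⟩
  · intro w hwU hwA hT
    have hwB : w ∈ B := mem_filter.2 ⟨hwU, hwA⟩
    have h1 := comb w hwB (A.erase i) (Subset.refl _) (insert w (cls U f i)) 2
      (insert_subset hwU hKU) (by
        intro x hx hxw
        have h2 := (mem_cls.1 ((mem_insert.1 hx).resolve_left hxw)).2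
        rw [h2]
        exact ⟨hiA, notMem_erase _ _⟩) hT
    exact hno (h1.mono (Subset.refl _) (by omega))
  · intro l hl hli hT
    obtain ⟨w, hw⟩ := card_pos.1 hBpos
    have hlE : l ∈ A.erase i := mem_erase.2 ⟨hli, hl⟩
    have h1 := comb w hw ((A.erase i).erase l) (erase_subset _ _) (cls U f i ∪ cls U f l)
      ((cls U f l).card / 2) (union_subset hKU (filter_subset _ _)) (by
        intro x hx hxw
        rcases mem_union.1 hx with h | h
        · rw [(mem_cls.1 h).2]
          exact ⟨hiA, fun h2 => notMem_erase _ _ (mem_of_mem_erase h2)⟩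
        · rw [(mem_cls.1 h).2]
          exact ⟨hl, notMem_erase _ _⟩) hT
    have e1 : t l + ∑ x ∈ (A.erase i).erase l, t x = ∑ x ∈ A.erase i, t x :=
      add_sum_erase _ _ hlE
    have e2 : (cls U f l).card / 2 = t l + 2 := by
      have := F1 l hl hli
      simp only [ht]
      omega
    exact hno (h1.mono (Subset.refl _) (by omega))

/-! ### The weight count -/

lemma one_side {U : Finset V} {k : ℕ} {f : V → ℕ} (hk : ∀ v ∈ U, (nn G U v).card < k)
    (hv : Val G U k f) {i j : ℕ} (hi : i ∈ range k) (hj : j ∈ range k)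
    (h7 : (cls U f i).card = 7) {A A' : Finset ℕ}
    (hjA : j ∉ A) (hiA' : i ∉ A')
    (F1 : ∀ l ∈ A, l ≠ i → (cls U f l).card = 6 ∨ (cls U f l).card = 8)
    (F2' : ∀ v ∈ U, f v ∉ A' → ∀ l ∈ A', (nn G (cls U f l) v).Nonempty)
    (F3 : ∀ w ∈ U, f w ∉ A → ¬ Til G c (insert w (cls U f i)) 2)
    (F4 : ∀ l ∈ A, l ≠ i → ¬ Til G c (cls U f i ∪ cls U f l) ((cls U f l).card / 2))
    (hiA : i ∈ A) (hAk : A ⊆ range k) :
    ∑ l ∈ range k \ A, ((cls U f l).card - 5) ≤ ∑ l ∈ (A \ A').erase i, ((cls U f l).card - 5) := by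
  obtain ⟨hvC, hvp, hvs⟩ := hv
  set K := cls U f i with hKdef
  have hKq : G.IsClique (K : Set V) := cls_clique hvp i
  have hKU : K ⊆ U := filter_subset _ _
  set B := U.filter (fun v => f v ∉ A) with hB
  have hBne : B.Nonempty := by
    have h1 := hvs j hj
    obtain ⟨x, hx⟩ := card_pos.1 (show 0 < (cls U f j).card by omega)
    obtain ⟨h2, h3⟩ := mem_cls.1 hx
    exact ⟨x, mem_filter.2 ⟨h2, by rw [h3]; exact hjA⟩⟩
  obtain ⟨ω, W1, W2, W3, W4⟩ := weights (c := c) hKq h7 hBne (fun w hw => by
    obtain ⟨h1, h2⟩ := mem_filter.1 hw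
    exact ⟨fun h3 => h2 (by rw [(mem_cls.1 h3).2]; exact hiA), F3 w h1 h2⟩)
  set Ω := ∑ t ∈ K, ω t with hΩ
  set cc : ℕ → ℕ := fun l => ∑ t ∈ K, ω t * (nn G (cls U f l) t).card with hcc
  -- total weight
  have htot : ∑ l ∈ (range k).erase i, cc l ≤ (k - 1) * Ω := by
    simp only [hcc]
    rw [sum_comm, hΩ, mul_sum]
    refine sum_le_sum fun t ht => ?_
    rw [← mul_sum, Nat.mul_comm]
    refine Nat.mul_le_mul_right _ ?_
    have e1 := nn_split (G := G) (U := U) (f := f) ((range k).erase i) t
    have e2 := hk t (hKU ht)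
    omega
  -- the class-wise bounds
  have hcls : ∀ l ∈ (range k).erase i,
      Ω + 6 * (if l ∈ A then 0 else ((cls U f l).card - 5))
        ≤ cc l + 6 * (if l ∈ A \ A' then ((cls U f l).card - 5) else 0) := by
    intro l hl
    obtain ⟨hli, hlk⟩ := mem_erase.1 hl
    have hls := hvs l hlk
    by_cases hlA : l ∈ A
    · rw [if_pos hlA]
      by_cases hlA' : l ∈ A'
      · rw [if_neg (fun h => (mem_sdiff.1 h).2 hlA')]
        simp only [Nat.mul_zero, Nat.add_zero, hcc, hΩ]
        refine sum_le_sum fun t ht => ?_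
        obtain ⟨h1, h2⟩ := mem_cls.1 ht
        have h3 := card_pos.2 (F2' t h1 (by rw [h2]; exact hiA') l hlA')
        exact Nat.le_mul_of_pos_right _ h3
      · rw [if_pos (mem_sdiff.2 ⟨hlA, hlA'⟩)]
        simp only [Nat.mul_zero, Nat.add_zero]
        set M := cls U f l with hM
        have hMq : G.IsClique (M : Set V) := cls_clique hvp l
        have hnoM : ¬ Til G c (K ∪ M) (M.card / 2) := F4 l hlA hli
        set L := K.filter (fun t => nn G M t = ∅) with hL
        have hLK : L ⊆ K := filter_subset _ _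
        have hdKM : Disjoint K M := by
          rw [disjoint_left]
          intro x hx hx'
          exact hli ((mem_cls.1 hx').2.symm.trans (mem_cls.1 hx).2)
        have hadj : ∀ t ∈ L, ∀ x ∈ M, G.Adj t x := by
          intro t ht x hx
          obtain ⟨h1, h2⟩ := mem_filter.1 ht
          by_contra hna
          have : x ∈ nn G M t := mem_nn.2 ⟨hx, fun he => (disjoint_left.1 hdKM) h1 (he ▸ hx), hna⟩
          rw [h2] at this
          exact notMem_empty _ this
        have hsp : Ω ≤ cc l + ∑ t ∈ L, ω t := by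
          have e1 : ∑ t ∈ L, ω t + ∑ t ∈ K.filter (fun t => ¬ nn G M t = ∅), ω t = Ω :=
            sum_filter_add_sum_filter_not _ _ _
          have e2 : ∑ t ∈ K.filter (fun t => ¬ nn G M t = ∅), ω t ≤ cc l := by
            refine le_trans ?_ (sum_le_sum_of_subset (filter_subset (fun t => ¬ nn G M t = ∅) K))
            refine sum_le_sum fun t ht => ?_
            have h2 := (mem_filter.1 ht).2
            exact Nat.le_mul_of_pos_right _ (card_pos.2 (nonempty_iff_ne_empty.2 h2))
          omega
        have hclq : ∀ R ⊆ L, G.IsClique ((M ∪ R : Finset V) : Set V) := by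
          intro R hR x hx y hy hxy
          rcases mem_union.1 (mem_coe.1 hx) with h1 | h1 <;>
            rcases mem_union.1 (mem_coe.1 hy) with h2 | h2
          · exact adj_of hMq h1 h2 hxy
          · exact (hadj y (hR h2) x h1).symm
          · exact hadj x (hR h1) y h2
          · exact adj_of hKq (hLK (hR h1)) (hLK (hR h2)) hxy
        have hcard : ∀ R ⊆ L, (M ∪ R).card = M.card + R.card := fun R hR =>
          card_union_of_disjoint (hdKM.symm.mono_right (hR.trans hLK))
        have hcomb : ∀ T ⊆ K, MonoTriangle G c T → ∀ m, Til G c (M ∪ (L \ T)) m →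
            Til G c (K ∪ M) (1 + m) := by
          intro T hTK hT m hm
          have hd : Disjoint T (M ∪ (L \ T)) := by
            rw [disjoint_union_right]
            exact ⟨hdKM.mono_left hTK, disjoint_sdiff⟩
          refine ((til_one_of hT (Subset.refl _)).union hm hd).mono ?_ le_rfl
          refine union_subset (hTK.trans subset_union_left) (union_subset subset_union_right ?_)
          exact (sdiff_subset.trans hLK).trans subset_union_left
        have hM68 : M.card = 6 ∨ M.card = 8 := F1 l hlA hli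
        rcases hM68 with h6 | h8
        · have hW := W3 L hLK (fun T hTK hT => by
            by_contra hcon
            have h1 := hcomb T hTK hT 2 (til_eight (hclq _ sdiff_subset) (by
              rw [hcard _ sdiff_subset]; omega))
            exact hnoM (h1.mono (Subset.refl _) (by omega)))
          omega
        · have hW := W4 L hLK (fun T hTK hT => by
            by_contra hcon
            have h1 := hcomb T hTK hT 3 (til_eleven (hclq _ sdiff_subset) (by
              rw [hcard _ sdiff_subset]; omega))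
            exact hnoM (h1.mono (Subset.refl _) (by omega)))
          omega
    · rw [if_neg hlA, if_neg (fun h => hlA (mem_sdiff.1 h).1)]
      have e1 : cc l = ∑ w ∈ cls U f l, ∑ t ∈ nn G K w, ω t := by
        simp only [hcc]
        have e2 : ∀ t ∈ K, ω t * (nn G (cls U f l) t).card
            = ∑ w ∈ cls U f l, if Gᶜ.Adj t w then ω t else 0 := by
          intro t _
          rw [← sum_filter, sum_const, smul_eq_mul, Nat.mul_comm]
          congr 2
        rw [sum_congr rfl e2, sum_comm]
        refine sum_congr rfl fun w hw => ?_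
        rw [← sum_filter]
        refine sum_congr ?_ fun _ _ => rfl
        ext x
        simp only [mem_filter, mem_nn, SimpleGraph.compl_adj]
        constructor
        · rintro ⟨h1, h2, h3⟩
          exact ⟨h1, h2.symm, fun h => h3 h.symm⟩
        · rintro ⟨h1, h2, h3⟩
          exact ⟨h1, h2.symm, fun h => h3 h.symm⟩
      have e3 := card_nsmul_le_sum (cls U f l) (fun w => ∑ t ∈ nn G K w, ω t) 6 (fun w hw => by
        obtain ⟨h1, h2⟩ := mem_cls.1 hw
        exact W2 w (mem_filter.2 ⟨h1, by rw [h2]; exact hlA⟩))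
      rw [← e1, smul_eq_mul] at e3
      omega
  have hS := sum_le_sum hcls
  rw [sum_add_distrib, sum_add_distrib, sum_const, smul_eq_mul, ← mul_sum, ← mul_sum,
    card_erase_of_mem hi, card_range] at hS
  have s1 : ∑ l ∈ (range k).erase i, (if l ∈ A then 0 else ((cls U f l).card - 5))
      = ∑ l ∈ range k \ A, ((cls U f l).card - 5) := by
    have e1 : range k \ A = ((range k).erase i).filter (fun l => ¬ l ∈ A) := by
      ext l
      simp only [mem_sdiff, mem_filter, mem_erase]
      constructor
      · rintro ⟨h1, h2⟩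
        exact ⟨⟨fun h => h2 (h ▸ hiA), h1⟩, h2⟩
      · rintro ⟨⟨_, h1⟩, h2⟩
        exact ⟨h1, h2⟩
    rw [e1, sum_filter]
    refine sum_congr rfl fun l _ => ?_
    by_cases h : l ∈ A
    · rw [if_pos h, if_neg (fun h' => h' h)]
    · rw [if_neg h, if_pos h]
  have s2 : ∑ l ∈ (range k).erase i, (if l ∈ A \ A' then ((cls U f l).card - 5) else 0)
      = ∑ l ∈ (A \ A').erase i, ((cls U f l).card - 5) := by
    have e1 : (A \ A').erase i = ((range k).erase i).filter (fun l => l ∈ A \ A') := by
      ext l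
      simp only [mem_filter, mem_erase]
      constructor
      · rintro ⟨h1, h2⟩
        exact ⟨⟨h1, hAk (mem_sdiff.1 h2).1⟩, h2⟩
      · rintro ⟨⟨h1, _⟩, h2⟩
        exact ⟨h1, h2⟩
    rw [e1, sum_filter]
  rw [s1, s2] at hS
  omega

/-- **Main theorem.** -/
theorem til_main : ∀ (n k : ℕ) (U : Finset V), U.card = n → 6 * k ≤ n → n ≤ 8 * k →
    (∀ v ∈ U, (nn G U v).card < k) → Til G c U ((n - 4 * k) / 2) := by
  intro n
  induction n using Nat.strong_induction_on with
  | _ n ih =>
      intro k U hU h6 h8 hk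
      by_cases hodd : n % 2 = 1
      · obtain ⟨v, hv⟩ := card_pos.1 (by omega : 0 < U.card)
        have hc : (U.erase v).card = n - 1 := by rw [card_erase_of_mem hv, hU]
        have := ih (n - 1) (by omega) k (U.erase v) hc (by omega) (by omega)
          (fun x hx => lt_of_le_of_lt (card_le_card (nn_mono (erase_subset _ _) x))
            (hk x (mem_of_mem_erase hx)))
        exact this.mono (erase_subset _ _) (by omega)
      by_contra hno
      obtain ⟨f, hv, hmin⟩ := exists_min_val (exists_val (G := G) (U := U) (k := k) (by omega)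
        (by omega) hk)
      have hsev : 1 < (sev U k f).card := by
        have e1 : Til G c U (∑ l ∈ range k, ((cls U f l).card - 4) / 2) :=
          til_classes (f := f) fun l hl => til_tau (cls_clique hv.2.1 l) (hv.2.2 l hl).1
            (hv.2.2 l hl).2
        have e2 : n = ∑ l ∈ range k, (cls U f l).card := by
          rw [← card_cls_sum, ← hU]
          congr 1
          ext v
          simp only [mem_filter]
          exact ⟨fun h => ⟨h, hv.1 v h⟩, fun h => h.1⟩
        have e3 : ∀ l ∈ range k, (cls U f l).card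
            = (2 * (((cls U f l).card - 4) / 2) + 4) + (if (cls U f l).card = 7 then 1 else 0) := by
          intro l hl
          have := hv.2.2 l hl
          split_ifs <;> omega
        rw [sum_congr rfl e3, sum_add_distrib, sum_add_distrib, ← mul_sum, sum_const, card_range,
          smul_eq_mul, sum_boole, Nat.cast_id] at e2
        have e4 : ((range k).filter (fun l => (cls U f l).card = 7)).card = (sev U k f).card := rfl
        rw [e4] at e2
        by_contra hcon
        exact hno (e1.mono (Subset.refl _) (by omega))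
      obtain ⟨i, hi, j, hj, hij⟩ := one_lt_card.1 hsev
      obtain ⟨hik, hi7⟩ := mem_filter.1 hi
      obtain ⟨hjk, hj7⟩ := mem_filter.1 hj
      obtain ⟨A, hAk, hiA, a1, a2, a3, a4⟩ := side ih hU (by omega) hk hno hv hmin hik hi7
      obtain ⟨A', hAk', hjA', b1, b2, b3, b4⟩ := side ih hU (by omega) hk hno hv hmin hjk hj7
      have hjA : j ∉ A := fun h => by
        have := a1 j h (Ne.symm hij)
        omega
      have hiA' : i ∉ A' := fun h => by
        have := b1 i h hij
        omega
      have r1 := one_side hk hv hik hjk hi7 hjA hiA' a1 b2 a3 a4 hiA hAk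
      have r2 := one_side hk hv hjk hik hj7 hiA' hjA b1 a2 b3 b4 hjA' hAk'
      have key : ∀ (A A' : Finset ℕ) (j : ℕ), A' ⊆ range k → j ∈ A' → j ∉ A →
          (cls U f j).card = 7 → 2 + ∑ l ∈ (A' \ A).erase j, ((cls U f l).card - 5)
            ≤ ∑ l ∈ range k \ A, ((cls U f l).card - 5) := by
        intro A A' j hA' hj hjA h7
        have e1 : ∑ l ∈ A' \ A, ((cls U f l).card - 5)
            ≤ ∑ l ∈ range k \ A, ((cls U f l).card - 5) :=
          sum_le_sum_of_subset (sdiff_subset_sdiff hA' (Subset.refl _))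
        rw [← add_sum_erase _ _ (mem_sdiff.2 ⟨hj, hjA⟩), h7] at e1
        exact e1
      have r3 := key A A' j hAk' hjA' hjA hj7
      have r4 := key A' A i hAk hiA hiA' hi7
      omega

end Pool.Agent.Helper4MT
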