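import Pool.Agent.Helper4MT.K9

/-!
# Monochromatic triangle tilings in graphs without a clique on nine vertices

The exact bound asked for in the problem holds for every 2-edge-coloured graph with
minimum degree at least five sixths of the number of vertices that contains no clique on nine
vertices.
-/

set_option autoImplicit false

namespace Pool.Agent.Helper4MT.NineCliqueFree

open Finset Pool.Agent.Helper4MT

theorem result {V : Type*} [Fintype V] [DecidableEq V] (G : SimpleGraph V) [DecidableRel G.Adj]
    (c : Sym2 V → Bool) (h9 : G.CliqueFree 9) (hδ : 5 * Fintype.card V ≤ 6 * G.minDegree) :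
    ∃ 𝒯 : Finset (Finset V),
      (∀ T ∈ 𝒯, G.IsNClique 3 T ∧ ∃ b : Bool, ∀ x ∈ T, ∀ y ∈ T, x ≠ y → c s(x, y) = b) ∧
      (𝒯 : Set (Finset V)).PairwiseDisjoint id ∧
      (4 * G.minDegree - 3 * Fintype.card V) / 2 ≤ 𝒯.card := by
  classical
  rcases Nat.eq_zero_or_pos (Fintype.card V) with h0 | hpos
  · exact ⟨∅, by simp, by simp, by
      have : IsEmpty V := Fintype.card_eq_zero_iff.1 h0
      simp⟩
  have hlt : G.minDegree < Fintype.card V := by
    obtain ⟨v⟩ := Fintype.card_pos_iff.1 hpos
    exact lt_of_le_of_lt (G.minDegree_le_degree v) (G.degree_lt_card_verts v)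
  have hk : ∀ v ∈ (univ : Finset V), (nn G univ v).card < Fintype.card V - G.minDegree := by
    intro v _
    have e1 : (nn G univ v) ⊆ (univ.erase v) \ (G.neighborFinset v) := by
      intro x hx
      obtain ⟨_, h2, h3⟩ := mem_nn.1 hx
      exact mem_sdiff.2 ⟨mem_erase.2 ⟨h2.symm, mem_univ _⟩, fun h => h3 ((G.mem_neighborFinset v x).1 h)⟩
    have e2 : G.neighborFinset v ⊆ univ.erase v := by
      intro x hx
      exact mem_erase.2 ⟨((G.mem_neighborFinset v x).1 hx).ne', mem_univ _⟩
    have e3 := card_sdiff_add_card_eq_card e2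
    have e4 := card_le_card e1
    have e5 : (univ.erase v : Finset V).card + 1 = Fintype.card V := by
      rw [card_erase_add_one (mem_univ v), card_univ]
    have e6 := G.minDegree_le_degree v
    rw [← G.card_neighborFinset_eq_degree] at e6
    omega
  obtain ⟨𝒯, h1, h2, h3⟩ := til_nine (G := G) (c := c) (Fintype.card V)
    (Fintype.card V - G.minDegree) univ card_univ (by omega) hk (fun Q _ hQ => by
      by_contra hge
      obtain ⟨Q', hQ', hQc⟩ := exists_subset_card_eq (show 9 ≤ Q.card by omega)
      exact h9 Q' ⟨hQ.subset (coe_subset.2 hQ'), hQc⟩)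
  exact ⟨𝒯, fun T hT => (h1 T hT).1, h2, by omega⟩

end Pool.Agent.Helper4MT.NineCliqueFree
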