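import Pool.Agent.Helper4MT.LemZ

/-!
# The local lemma: weights on a clique with seven vertices
-/

set_option autoImplicit false

namespace Pool.Agent.Helper4MT

open Finset

open scoped Classical

universe u

variable {V : Type u} {G : SimpleGraph V} {c : Sym2 V → Bool}

section

set_option maxRecDepth 100000
set_option synthInstance.maxSize 100000
set_option synthInstance.maxHeartbeats 4000000

lemma pent2 : ∀ e va vb vd vf ab ad af bd bf df : Bool,
    ¬ (va = vb ∧ va = ab) → ¬ (va = vd ∧ va = ad) → ¬ (va = vf ∧ va = af) →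
    ¬ (vb = vd ∧ vb = bd) → ¬ (vb = vf ∧ vb = bf) → ¬ (vd = vf ∧ vd = df) →
    ¬ (ab = ad ∧ ab = bd) → ¬ (ab = af ∧ ab = bf) → ¬ (ad = af ∧ ad = df) →
    ¬ (bd = bf ∧ bd = df) →
    (va = e ∧ vb = e) ∨ (va = e ∧ vd = e) ∨ (va = e ∧ vf = e) ∨ (vb = e ∧ vd = e) ∨
    (vb = e ∧ vf = e) ∨ (vd = e ∧ vf = e) := by
  decide

end

/-- the structure of a seven-clique containing a five-clique without monochromatic triangle -/
structure Pat (c : Sym2 V → Bool) (K A I : Finset V) (x0 : V) : Prop where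
  mem : x0 ∈ A
  un : A ∪ I = K
  dis : Disjoint A I
  ca : A.card = 3
  ci : I.card = 4
  col : ∀ x ∈ A, ∀ i ∈ I, c s(x, i) = c s(x0, i)
  fre : Fre c (insert x0 I)
  two : ∀ e : Bool, ∃ i ∈ I, ∃ i' ∈ I, i ≠ i' ∧ c s(x0, i) = e ∧ c s(x0, i') = e

lemma exists_pat {K P : Finset V} (hK : G.IsClique (K : Set V)) (hno : ¬ Til G c K 2)
    (hKc : K.card = 7) (hPK : P ⊆ K) (hPc : P.card = 5) (hF : Fre c P) :
    ∃ (A I : Finset V) (x0 : V), Pat c K A I x0 := by
  obtain ⟨x0, hx0, h⟩ := lemZ2 hK hno hKc hPK hPc hF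
  have hic : (P.erase x0).card = 4 := by rw [card_erase_of_mem hx0]; omega
  refine ⟨insert x0 (K \ P), P.erase x0, x0, mem_insert_self _ _, ?_, ?_, ?_, hic, ?_, ?_, ?_⟩
  · ext x
    simp only [mem_union, mem_insert, mem_sdiff, mem_erase]
    constructor
    · rintro ((rfl | h1) | h1)
      · exact hPK hx0
      · exact h1.1
      · exact hPK h1.2
    · intro hx
      by_cases h1 : x = x0
      · exact Or.inl (Or.inl h1)
      · by_cases h2 : x ∈ P
        · exact Or.inr ⟨h1, h2⟩
        · exact Or.inl (Or.inr ⟨hx, h2⟩)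
  · rw [disjoint_left]
    intro x hx hx'
    rcases mem_insert.1 hx with h1 | h1
    · exact (mem_erase.1 hx').1 h1
    · exact (mem_sdiff.1 h1).2 (mem_erase.1 hx').2
  · have := card_sdiff_add_card_eq_card hPK
    rw [card_insert_of_notMem (fun h1 => (mem_sdiff.1 h1).2 hx0)]
    omega
  · intro x hx i hi
    rcases mem_insert.1 hx with h1 | h1
    · rw [h1]
    · have h2 := mem_sdiff.1 h1
      exact h x h2.1 h2.2 i (mem_of_mem_erase hi) (ne_of_mem_erase hi)
  · rw [insert_erase hx0]
    exact hF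
  · intro e
    obtain ⟨l, hl, hln⟩ : ∃ l : List V, l.toFinset = P.erase x0 ∧ l.Nodup :=
      ⟨(P.erase x0).toList, by simp, nodup_toList _⟩
    have hlen : l.length = 4 := by
      rw [← List.toFinset_card_of_nodup hln, hl, hic]
    match l, hlen with
    | [a, b, d, f], _ =>
      have hmem : ∀ x ∈ [a, b, d, f], x ∈ P.erase x0 := by
        intro x hx
        rw [← hl]
        exact List.mem_toFinset.2 hx
      have ma := hmem a (by simp)
      have mb := hmem b (by simp)
      have md := hmem d (by simp)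
      have mf := hmem f (by simp)
      have pa := mem_of_mem_erase ma
      have pb := mem_of_mem_erase mb
      have pd := mem_of_mem_erase md
      have pf := mem_of_mem_erase mf
      have na := (ne_of_mem_erase ma).symm
      have nb := (ne_of_mem_erase mb).symm
      have nd := (ne_of_mem_erase md).symm
      have nf := (ne_of_mem_erase mf).symm
      simp only [List.nodup_cons, List.mem_cons, List.not_mem_nil, or_false, not_or,
        List.nodup_nil, and_true, not_false_eq_true] at hln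
      obtain ⟨⟨m1, m2, m3⟩, ⟨m4, m5⟩, m6⟩ := hln
      rcases pent2 e (c s(x0, a)) (c s(x0, b)) (c s(x0, d)) (c s(x0, f)) (c s(a, b)) (c s(a, d))
        (c s(a, f)) (c s(b, d)) (c s(b, f)) (c s(d, f)) (hF _ hx0 _ pa _ pb na nb m1)
        (hF _ hx0 _ pa _ pd na nd m2) (hF _ hx0 _ pa _ pf na nf m3)
        (hF _ hx0 _ pb _ pd nb nd m4) (hF _ hx0 _ pb _ pf nb nf m5)
        (hF _ hx0 _ pd _ pf nd nf m6) (hF _ pa _ pb _ pd m1 m2 m4) (hF _ pa _ pb _ pf m1 m3 m5)
        (hF _ pa _ pd _ pf m2 m3 m6) (hF _ pb _ pd _ pf m4 m5 m6) with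
        g | g | g | g | g | g
      · exact ⟨a, ma, b, mb, m1, g⟩
      · exact ⟨a, ma, d, md, m2, g⟩
      · exact ⟨a, ma, f, mf, m3, g⟩
      · exact ⟨b, mb, d, md, m4, g⟩
      · exact ⟨b, mb, f, mf, m5, g⟩
      · exact ⟨d, md, f, mf, m6, g⟩

lemma adj_of {K : Finset V} (hK : G.IsClique (K : Set V)) {x y : V} (hx : x ∈ K) (hy : y ∈ K)
    (h : x ≠ y) : G.Adj x y := hK (mem_coe.2 hx) (mem_coe.2 hy) h

section Pat

variable {K A I : Finset V} {x0 : V}

lemma Pat.mA (h : Pat c K A I x0) {x : V} (hx : x ∈ A) : x ∈ K := h.un ▸ mem_union_left _ hx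

lemma Pat.mI (h : Pat c K A I x0) {x : V} (hx : x ∈ I) : x ∈ K := h.un ▸ mem_union_right _ hx

lemma Pat.ne (h : Pat c K A I x0) {x i : V} (hx : x ∈ A) (hi : i ∈ I) : x ≠ i :=
  fun he => (disjoint_left.1 h.dis) hx (he ▸ hi)

/-- a monochromatic triangle formed by two vertices of `A` and a vertex of `I` -/
lemma Pat.tri (hK : G.IsClique (K : Set V)) (h : Pat c K A I x0) {x y i : V} (hx : x ∈ A)
    (hy : y ∈ A) (hxy : x ≠ y) (hi : i ∈ I) (hc : c s(x0, i) = c s(x, y)) :
    MonoTriangle G c {x, y, i} :=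
  monoTriangle_of (adj_of hK (h.mA hx) (h.mA hy) hxy) (adj_of hK (h.mA hx) (h.mI hi) (h.ne hx hi))
    (adj_of hK (h.mA hy) (h.mI hi) (h.ne hy hi))
    ⟨by rw [h.col x hx i hi, hc], by rw [h.col y hy i hi, hc]⟩

lemma Pat.z1 (hK : G.IsClique (K : Set V)) (h : Pat c K A I x0) {x i : V} (hx : x ∈ A)
    (hi : i ∈ I) : ∃ T, MonoTriangle G c T ∧ T ⊆ K ∧ x ∉ T ∧ i ∉ T := by
  obtain ⟨y, z, hyz, hA⟩ := card_eq_two.1 (show (A.erase x).card = 2 by
    rw [card_erase_of_mem hx, h.ca])
  have hy : y ∈ A.erase x := by rw [hA]; simp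
  have hz : z ∈ A.erase x := by rw [hA]; simp
  have hy' := mem_erase.1 hy
  have hz' := mem_erase.1 hz
  obtain ⟨j, hj, hji, hjc⟩ : ∃ j ∈ I, j ≠ i ∧ c s(x0, j) = c s(y, z) := by
    obtain ⟨i1, h1, i2, h2, h12, c1, c2⟩ := h.two (c s(y, z))
    by_cases h3 : i1 = i
    · exact ⟨i2, h2, fun h4 => h12 (h3.trans h4.symm), c2⟩
    · exact ⟨i1, h1, h3, c1⟩
  refine ⟨{y, z, j}, h.tri hK hy'.2 hz'.2 hyz hj hjc, ?_, ?_, ?_⟩
  · simp [insert_subset_iff, h.mA hy'.2, h.mA hz'.2, h.mI hj]
  · simp only [mem_insert, mem_singleton, not_or]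
    exact ⟨hy'.1.symm, hz'.1.symm, h.ne hx hj⟩
  · simp only [mem_insert, mem_singleton, not_or]
    exact ⟨(h.ne hy'.2 hi).symm, (h.ne hz'.2 hi).symm, hji.symm⟩

lemma Pat.z3 (hK : G.IsClique (K : Set V)) (h : Pat c K A I x0) {j : V} (hj : j ∈ I) :
    ∃ T, MonoTriangle G c T ∧ T ⊆ insert j A := by
  obtain ⟨x, y, z, hxy, hxz, hyz, hA⟩ := card_eq_three.1 h.ca
  have hx : x ∈ A := by rw [hA]; simp
  have hy : y ∈ A := by rw [hA]; simp
  have hz : z ∈ A := by rw [hA]; simp
  by_cases h1 : c s(x0, j) = c s(x, y)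
  · exact ⟨_, h.tri hK hx hy hxy hj h1, by simp [insert_subset_iff, hx, hy]⟩
  by_cases h2 : c s(x0, j) = c s(x, z)
  · exact ⟨_, h.tri hK hx hz hxz hj h2, by simp [insert_subset_iff, hx, hz]⟩
  by_cases h3 : c s(x0, j) = c s(y, z)
  · exact ⟨_, h.tri hK hy hz hyz hj h3, by simp [insert_subset_iff, hy, hz]⟩
  refine ⟨{x, y, z}, monoTriangle_of (adj_of hK (h.mA hx) (h.mA hy) hxy)
    (adj_of hK (h.mA hx) (h.mA hz) hxz) (adj_of hK (h.mA hy) (h.mA hz) hyz) ⟨?_, ?_⟩, by
      simp [insert_subset_iff, hx, hy, hz]⟩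
  · revert h1 h2
    generalize c s(x0, j) = p, c s(x, y) = q, c s(x, z) = r
    revert p q r
    decide
  · revert h1 h3
    generalize c s(x0, j) = p, c s(x, y) = q, c s(y, z) = r
    revert p q r
    decide

/-- a monochromatic triangle avoiding a given proper subset of `I` -/
lemma Pat.avoid (hK : G.IsClique (K : Set V)) (h : Pat c K A I x0) {S : Finset V} (hS : S ⊆ I)
    (hc : S.card < 4) : ∃ T, MonoTriangle G c T ∧ T ⊆ K ∧ Disjoint S T := by
  obtain ⟨j, hj⟩ := card_pos.1 (show 0 < (I \ S).card by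
    have := card_sdiff_add_card_eq_card hS
    have := h.ci
    omega)
  obtain ⟨hjI, hjS⟩ := mem_sdiff.1 hj
  obtain ⟨T, hT, hTA⟩ := h.z3 hK hjI
  refine ⟨T, hT, hTA.trans (insert_subset (h.mI hjI) (fun x hx => h.mA hx)), ?_⟩
  rw [disjoint_left]
  intro x hx hx'
  rcases mem_insert.1 (hTA hx') with h1 | h1
  · exact hjS (h1 ▸ hx)
  · exact (disjoint_left.1 h.dis) h1 (hS hx)

lemma fre_ins {T Q : Finset V} {w : V} (hK : G.IsClique (K : Set V)) (hw : w ∉ K)
    (hno : ¬ Til G c (insert w K) 2) (hT : MonoTriangle G c T) (hTK : T ⊆ K) (hQ : Q ⊆ K)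
    (hd : Disjoint T Q) (hadj : ∀ x ∈ Q, G.Adj w x) : Fre c (insert w Q) :=
  fre_of hno hT (hTK.trans (subset_insert _ _))
    (clique_insert (hK.subset (coe_subset.2 hQ)) hadj) (insert_subset_insert _ hQ)
    (by rw [disjoint_insert_right]; exact ⟨fun h => hw (hTK h), hd⟩)

lemma xor1 : ∀ w x i i' t : Bool, (w ^^ (x ^^ (i ^^ t))) = false →
    (w ^^ (x ^^ (i' ^^ t))) = false → i = i' := by decide

lemma xor2 : ∀ x i i' t : Bool, i = i' → (x ^^ (i ^^ (i' ^^ t))) = false → x = t := by decide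

lemma Pat.z2 (hK : G.IsClique (K : Set V)) (h : Pat c K A I x0) {w : V} (hw : w ∉ K)
    (hno : ¬ Til G c (insert w K) 2) (hadj : ∀ i ∈ I, G.Adj w i) {x : V} (hx : x ∈ A) :
    ¬ G.Adj w x := by
  intro hwx
  obtain ⟨y, z, hyz, hA⟩ := card_eq_two.1 (show (A.erase x).card = 2 by
    rw [card_erase_of_mem hx, h.ca])
  have hy : y ∈ A.erase x := by rw [hA]; simp
  have hz : z ∈ A.erase x := by rw [hA]; simp
  have hy' := mem_erase.1 hy
  have hz' := mem_erase.1 hz
  obtain ⟨i, hi, i', hi', hii, c1, c2⟩ := h.two (c s(y, z))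
  have hi'' : i' ∈ I.erase i := mem_erase.2 ⟨hii.symm, hi'⟩
  obtain ⟨j, j', hjj, hI⟩ := card_eq_two.1 (show ((I.erase i).erase i').card = 2 by
    rw [card_erase_of_mem hi'', card_erase_of_mem hi, h.ci])
  have hj : j ∈ (I.erase i).erase i' := by rw [hI]; simp
  have hj' : j' ∈ (I.erase i).erase i' := by rw [hI]; simp
  obtain ⟨g1, hj⟩ := mem_erase.1 hj
  obtain ⟨g2, hj⟩ := mem_erase.1 hj
  obtain ⟨g3, hj'⟩ := mem_erase.1 hj'
  obtain ⟨g4, hj'⟩ := mem_erase.1 hj'
  -- everything except `k` in `{i, i'}`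
  have key : ∀ k k' : V, k ∈ I → k' ∈ I → k ≠ k' → k ≠ j → k ≠ j' → k' ≠ j → k' ≠ j' →
      c s(x0, k) = c s(y, z) → Fre c (insert w {x, k', j, j'}) := by
    intro k k' hk hk' hkk hkj hkj' hk'j hk'j' hkc
    refine fre_ins hK hw hno (h.tri hK hy'.2 hz'.2 hyz hk hkc) ?_ ?_ ?_ ?_
    · simp [insert_subset_iff, h.mA hy'.2, h.mA hz'.2, h.mI hk]
    · simp [insert_subset_iff, h.mA hx, h.mI hk', h.mI hj, h.mI hj']
    · rw [disjoint_left]
      intro t ht ht'
      simp only [mem_insert, mem_singleton] at ht ht'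
      rcases ht with rfl | rfl | rfl <;> rcases ht' with r | r | r | r
      · exact hy'.1 r
      · exact h.ne hy'.2 hk' r
      · exact h.ne hy'.2 hj r
      · exact h.ne hy'.2 hj' r
      · exact hz'.1 r
      · exact h.ne hz'.2 hk' r
      · exact h.ne hz'.2 hj r
      · exact h.ne hz'.2 hj' r
      · exact h.ne hx hk r.symm
      · exact hkk r
      · exact hkj r
      · exact hkj' r
    · intro t ht
      simp only [mem_insert, mem_singleton] at ht
      rcases ht with rfl | rfl | rfl | rfl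
      · exact hwx
      · exact hadj _ hk'
      · exact hadj _ hj
      · exact hadj _ hj'
  have F1 := key i i' hi hi' hii g2.symm g4.symm g1.symm g3.symm c1
  have F2 := key i' i hi' hi hii.symm g1.symm g3.symm g2.symm g4.symm c2
  have wne : ∀ t ∈ K, t ≠ w := fun t ht hh => hw (hh ▸ ht)
  have wj := wne j (h.mI hj)
  have wj' := wne j' (h.mI hj')
  have wx := (wne x (h.mA hx)).symm
  have wi := (wne i (h.mI hi)).symm
  have wi' := (wne i' (h.mI hi')).symm
  have xi := h.ne hx hi
  have xi' := h.ne hx hi'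
  have xj := h.ne hx hj
  have xj' := h.ne hx hj'
  have e1 : c s(j, i') = c s(j, i) := xor1 _ _ _ _ _
    (pent F1 (v := j) (a := w) (b := x) (d := i') (f := j') (by simp) (by simp) (by simp)
      (by simp) (by simp) wj xj.symm g1 hjj wx wi' wj'.symm xi' xj' g3.symm)
    (pent F2 (v := j) (a := w) (b := x) (d := i) (f := j') (by simp) (by simp) (by simp)
      (by simp) (by simp) wj xj.symm g2 hjj wx wi wj'.symm xi xj' g4.symm)
  have e2 : c s(j', i') = c s(j', i) := xor1 _ _ _ _ _
    (pent F1 (v := j') (a := w) (b := x) (d := i') (f := j) (by simp) (by simp) (by simp)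
      (by simp) (by simp) wj' xj'.symm g3 hjj.symm wx wi' wj.symm xi' xj g1.symm)
    (pent F2 (v := j') (a := w) (b := x) (d := i) (f := j) (by simp) (by simp) (by simp)
      (by simp) (by simp) wj' xj'.symm g4 hjj.symm wx wi wj.symm xi xj g2.symm)
  have m0 : x0 ∈ insert x0 I := mem_insert_self _ _
  have mi : i ∈ insert x0 I := mem_insert_of_mem hi
  have mi' : i' ∈ insert x0 I := mem_insert_of_mem hi'
  have mj : j ∈ insert x0 I := mem_insert_of_mem hj
  have mj' : j' ∈ insert x0 I := mem_insert_of_mem hj'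
  have ni := h.ne h.mem hi
  have ni' := h.ne h.mem hi'
  have nj := h.ne h.mem hj
  have nj' := h.ne h.mem hj'
  have e3 : c s(j, x0) = c s(j, j') := xor2 _ _ _ _ e1
    (pent h.fre (v := j) (a := x0) (b := i') (d := i) (f := j') mj m0 mi' mi mj'
      nj.symm g1 g2 hjj ni' ni nj' hii.symm g3.symm g4.symm)
  have e4 : c s(j', x0) = c s(j', j) := xor2 _ _ _ _ e2
    (pent h.fre (v := j') (a := x0) (b := i') (d := i) (f := j) mj' m0 mi' mi mj
      nj'.symm g3 g4 hjj.symm ni' ni nj hii.symm g1.symm g2.symm)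
  refine h.fre j mj x0 m0 j' mj' nj.symm hjj nj' ⟨e3, ?_⟩
  rw [e3, show s(x0, j') = s(j', x0) from Sym2.eq_swap, e4]
  exact congrArg c Sym2.eq_swap

end Pat

/-- a clique on eleven vertices has three disjoint monochromatic triangles -/
lemma til_eleven {S : Finset V} (hS : G.IsClique (S : Set V)) (hc : 11 ≤ S.card) :
    Til G c S 3 := by
  obtain ⟨T, hT, hTS⟩ := exists_mono_of_six (c := c) hS (by omega)
  have h1 := til_one_of hT (Subset.refl _)
  have h2 : Til G c (S \ T) 2 := til_eight (hS.subset (coe_subset.2 sdiff_subset)) (by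
    have := card_sdiff_add_card_eq_card hTS
    have := hT.1.card_eq
    omega)
  exact (h1.union h2 disjoint_sdiff).mono (union_subset hTS sdiff_subset) le_rfl

lemma sum_ite_card (L S : Finset V) (a b : ℕ) : ∑ t ∈ L, (if t ∈ S then a else b)
    = a * (L.filter (fun t => t ∈ S)).card + b * (L.filter (fun t => t ∉ S)).card := by
  rw [sum_ite, sum_const, sum_const, smul_eq_mul, smul_eq_mul, Nat.mul_comm, Nat.mul_comm b]

/-- the local lemma -/
lemma weights {K B : Finset V} (hK : G.IsClique (K : Set V)) (hKc : K.card = 7)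
    (hBne : B.Nonempty) (hB : ∀ w ∈ B, w ∉ K ∧ ¬ Til G c (insert w K) 2) :
    ∃ ω : V → ℕ, ∑ t ∈ K, ω t ≤ 30 ∧ (∀ w ∈ B, 6 ≤ ∑ t ∈ nn G K w, ω t) ∧
      (∀ L ⊆ K, (∀ T ⊆ K, MonoTriangle G c T → (L \ T).card ≤ 1) → ∑ t ∈ L, ω t ≤ 6) ∧
      (∀ L ⊆ K, (∀ T ⊆ K, MonoTriangle G c T → (L \ T).card ≤ 2) → ∑ t ∈ L, ω t ≤ 18) := by
  have hnoK : ¬ Til G c K 2 := by
    obtain ⟨w, hw⟩ := hBne
    exact fun h => (hB w hw).2 (h.mono (subset_insert _ _) le_rfl)
  by_cases hP : ∃ P ⊆ K, P.card = 5 ∧ Fre c P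
  · obtain ⟨P, hPK, hPc, hF⟩ := hP
    obtain ⟨A, I, x0, h⟩ := exists_pat hK hnoK hKc hPK hPc hF
    have hn2 : ∀ L ⊆ K, L.filter (fun t => t ∉ I) ⊆ A := by
      intro L hL t ht
      obtain ⟨h1, h2⟩ := mem_filter.1 ht
      have h3 := hL h1
      rw [← h.un] at h3
      exact (mem_union.1 h3).resolve_right h2
    refine ⟨fun t => if t ∈ I then 6 else 2, ?_, ?_, ?_, ?_⟩
    · rw [sum_ite_card]
      have e1 : (K.filter (fun t => t ∈ I)).card ≤ 4 := by
        rw [← h.ci]
        exact card_le_card fun t ht => (mem_filter.1 ht).2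
      have e2 : (K.filter (fun t => t ∉ I)).card ≤ 3 := by
        rw [← h.ca]
        exact card_le_card (hn2 K (Subset.refl _))
      omega
    · intro w hw
      obtain ⟨hwK, hno⟩ := hB w hw
      by_cases hI : ∀ i ∈ I, G.Adj w i
      · have hsub : A ⊆ nn G K w := by
          intro x hx
          exact mem_nn.2 ⟨h.mA hx, fun he => hwK (he ▸ h.mA hx), h.z2 hK hwK hno hI hx⟩
        refine le_trans ?_ (sum_le_sum_of_subset hsub)
        have e1 : ∀ t ∈ A, (if t ∈ I then 6 else 2) = 2 := fun t ht =>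
          if_neg ((disjoint_left.1 h.dis) ht)
        rw [sum_congr rfl e1, sum_const, h.ca]
        norm_num
      · push Not at hI
        obtain ⟨i, hi, hwi⟩ := hI
        have hi' : i ∈ nn G K w := mem_nn.2 ⟨h.mI hi, fun he => hwK (he ▸ h.mI hi), hwi⟩
        have e1 := single_le_sum (f := fun t => if t ∈ I then 6 else 2) (fun t _ => Nat.zero_le _)
          hi'
        simpa [hi] using e1
    · intro L hL hT
      rw [sum_ite_card]
      have e2 : (L.filter (fun t => t ∉ I)).card ≤ 3 := by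
        rw [← h.ca]
        exact card_le_card (hn2 L hL)
      have e1 : (L.filter (fun t => t ∈ I)).card ≤ 1 := by
        by_contra hcon
        obtain ⟨S, hS, hSc⟩ := exists_subset_card_eq (show 2 ≤ (L.filter (fun t => t ∈ I)).card by
          omega)
        obtain ⟨T, hTm, hTK, hd⟩ := h.avoid hK (S := S) (fun t ht => (mem_filter.1 (hS ht)).2)
          (by omega)
        have h3 : S ⊆ L \ T := fun t ht => mem_sdiff.2 ⟨(mem_filter.1 (hS ht)).1,
          (disjoint_left.1 hd) ht⟩
        have h4 := card_le_card h3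
        have h5 := hT T hTK hTm
        omega
      by_cases h1 : (L.filter (fun t => t ∈ I)).card = 0
      · omega
      · have e3 : (L.filter (fun t => t ∉ I)).card = 0 := by
          by_contra hcon
          obtain ⟨x, hx⟩ := card_pos.1 (Nat.pos_of_ne_zero hcon)
          obtain ⟨i, hi⟩ := card_pos.1 (Nat.pos_of_ne_zero h1)
          have hxA := hn2 L hL hx
          obtain ⟨hiL, hiI⟩ := mem_filter.1 hi
          obtain ⟨T, hTm, hTK, hxT, hiT⟩ := h.z1 hK hxA hiI
          have h3 : ({x, i} : Finset V) ⊆ L \ T := by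
            intro t ht
            simp only [mem_insert, mem_singleton] at ht
            rcases ht with rfl | rfl
            · exact mem_sdiff.2 ⟨(mem_filter.1 hx).1, hxT⟩
            · exact mem_sdiff.2 ⟨hiL, hiT⟩
          have h4 := card_le_card h3
          rw [card_pair (h.ne hxA hiI)] at h4
          have h5 := hT T hTK hTm
          omega
        omega
    · intro L hL hT
      rw [sum_ite_card]
      have e2 : (L.filter (fun t => t ∉ I)).card ≤ 3 := by
        rw [← h.ca]
        exact card_le_card (hn2 L hL)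
      have e1 : (L.filter (fun t => t ∈ I)).card ≤ 2 := by
        by_contra hcon
        obtain ⟨S, hS, hSc⟩ := exists_subset_card_eq (show 3 ≤ (L.filter (fun t => t ∈ I)).card by
          omega)
        obtain ⟨T, hTm, hTK, hd⟩ := h.avoid hK (S := S) (fun t ht => (mem_filter.1 (hS ht)).2)
          (by omega)
        have h3 : S ⊆ L \ T := fun t ht => mem_sdiff.2 ⟨(mem_filter.1 (hS ht)).1,
          (disjoint_left.1 hd) ht⟩
        have h4 := card_le_card h3
        have h5 := hT T hTK hTm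
        omega
      omega
  · -- every five vertices of `K` contain a monochromatic triangle
    have hN : ∀ P ⊆ K, P.card = 5 → ∃ T, MonoTriangle G c T ∧ T ⊆ P := by
      intro P hPK hPc
      by_contra hcon
      refine hP ⟨P, hPK, hPc, fun a ha b hb d hd hab had hbd hm => hcon ⟨{a, b, d},
        monoTriangle_of (adj_of hK (hPK ha) (hPK hb) hab) (adj_of hK (hPK ha) (hPK hd) had)
          (adj_of hK (hPK hb) (hPK hd) hbd) hm, ?_⟩⟩
      simp [insert_subset_iff, ha, hb, hd]
    set Q := K.filter (fun t => ∃ w ∈ B, nn G K w = {t}) with hQ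
    have hgood : ∀ T ⊆ K, MonoTriangle G c T → ∀ t1 ∈ T, ∀ t2 ∈ T, t1 ∈ Q → t2 ∈ Q → t1 = t2 := by
      intro T hTK hT t1 h1 t2 h2 q1 q2
      by_contra hne
      obtain ⟨_, w1, hw1, e1⟩ := mem_filter.1 q1
      obtain ⟨_, w2, hw2, e2⟩ := mem_filter.1 q2
      have hadj : ∀ w ∈ B, ∀ t, nn G K w = {t} → ∀ x ∈ K, x ≠ t → G.Adj w x := by
        intro w hw t ht x hx hxt
        by_contra hna
        have : x ∈ nn G K w := mem_nn.2 ⟨hx, fun he => (hB w hw).1 (he ▸ hx), hna⟩
        rw [ht] at this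
        exact hxt (mem_singleton.1 this)
      rcases lemY hK hKc hT hTK h1 h2 hne (hB w1 hw1).1 (hB w2 hw2).1 (hadj w1 hw1 t1 e1)
        (hadj w2 hw2 t2 e2) with h | h
      · exact (hB w1 hw1).2 h
      · exact (hB w2 hw2).2 h
    have hQK : Q ⊆ K := filter_subset _ _
    have hQc : Q.card ≤ 3 := by
      by_contra hcon
      obtain ⟨S, hS, hSc⟩ := exists_subset_card_eq (show 4 ≤ Q.card by omega)
      obtain ⟨x, hx⟩ := card_pos.1 (show 0 < (K \ S).card by
        have := card_sdiff_add_card_eq_card (hS.trans hQK)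
        omega)
      obtain ⟨hxK, hxS⟩ := mem_sdiff.1 hx
      obtain ⟨T, hT, hTP⟩ := hN (insert x S) (insert_subset hxK (hS.trans hQK))
        (by rw [card_insert_of_notMem hxS, hSc])
      have h1 : 1 < (T.erase x).card := by
        have h2 := pred_card_le_card_erase (s := T) (a := x)
        have h3 := hT.1.card_eq
        omega
      obtain ⟨t1, h1, t2, h2, h12⟩ := one_lt_card.1 h1
      have m : ∀ t ∈ T.erase x, t ∈ Q := by
        intro t ht
        obtain ⟨g1, g2⟩ := mem_erase.1 ht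
        exact hS ((mem_insert.1 (hTP g2)).resolve_left g1)
      exact h12 (hgood T (hTP.trans (insert_subset hxK (hS.trans hQK))) hT t1
        (mem_of_mem_erase h1) t2 (mem_of_mem_erase h2) (m t1 h1) (m t2 h2))
    refine ⟨fun t => if t ∈ Q then 6 else 3, ?_, ?_, ?_, ?_⟩
    · rw [sum_ite_card]
      have e1 : (K.filter (fun t => t ∈ Q)).card ≤ 3 := by
        refine le_trans (card_le_card ?_) hQc
        exact fun t ht => (mem_filter.1 ht).2
      have e2 : (K.filter (fun t => t ∈ Q)).card + (K.filter (fun t => t ∉ Q)).card = K.card :=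
        card_filter_add_card_filter_not _
      omega
    · intro w hw
      obtain ⟨hwK, hno⟩ := hB w hw
      have hne : (nn G K w).Nonempty := by
        by_contra hcon
        rw [not_nonempty_iff_eq_empty] at hcon
        refine hno (til_eight (clique_insert hK fun x hx => ?_) ?_)
        · by_contra hna
          have : x ∈ nn G K w := mem_nn.2 ⟨hx, fun he => hwK (he ▸ hx), hna⟩
          rw [hcon] at this
          exact notMem_empty _ this
        · rw [card_insert_of_notMem hwK, hKc]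
      by_cases h1 : (nn G K w).card = 1
      · obtain ⟨t, ht⟩ := card_eq_one.1 h1
        have htQ : t ∈ Q := mem_filter.2 ⟨(mem_nn.1 (ht ▸ mem_singleton_self t)).1, w, hw, ht⟩
        rw [ht, sum_singleton, if_pos htQ]
      · have h2 : 2 ≤ (nn G K w).card := by
          have := card_pos.2 hne
          omega
        have h3 : (nn G K w).card • 3 ≤ ∑ t ∈ nn G K w, (if t ∈ Q then 6 else 3) :=
          card_nsmul_le_sum (nn G K w) (fun t => if t ∈ Q then 6 else 3) 3 (by
          intro t _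
          show 3 ≤ (if t ∈ Q then 6 else 3)
          split_ifs <;> omega)
        rw [smul_eq_mul] at h3
        show 6 ≤ ∑ t ∈ nn G K w, (if t ∈ Q then 6 else 3)
        omega
    · intro L hL hT
      have h1 : L.card ≤ 1 := by
        by_contra hcon
        obtain ⟨S, hS, hSc⟩ := exists_subset_card_eq (show 2 ≤ L.card by omega)
        obtain ⟨T, hTm, hTP⟩ := hN (K \ S) sdiff_subset (by
          have := card_sdiff_add_card_eq_card (hS.trans hL)
          omega)
        have h3 : S ⊆ L \ T := fun t ht => mem_sdiff.2 ⟨hS ht, fun h4 =>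
          (mem_sdiff.1 (hTP h4)).2 ht⟩
        have h4 := card_le_card h3
        have h5 := hT T (hTP.trans sdiff_subset) hTm
        omega
      have h3 : ∑ t ∈ L, (if t ∈ Q then 6 else 3) ≤ L.card • 6 :=
        sum_le_card_nsmul L (fun t => if t ∈ Q then 6 else 3) 6 (by
        intro t _
        show (if t ∈ Q then 6 else 3) ≤ 6
        split_ifs <;> omega)
      rw [smul_eq_mul] at h3
      show ∑ t ∈ L, (if t ∈ Q then 6 else 3) ≤ 6
      omega
    · intro L hL hT
      rw [sum_ite_card]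
      have e2 : (L.filter (fun t => t ∈ Q)).card + (L.filter (fun t => t ∉ Q)).card = L.card :=
        card_filter_add_card_filter_not _
      have e1 : (L.filter (fun t => t ∈ Q)).card ≤ 3 := by
        refine le_trans (card_le_card ?_) hQc
        exact fun t ht => (mem_filter.1 ht).2
      have h5 : L.card ≤ 5 := by
        obtain ⟨T, hTm, hTK⟩ := exists_mono_of_six (c := c) hK (by omega)
        have h6 := hT T hTK hTm
        have h7 := card_le_card_sdiff_add_card (s := L) (t := T)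
        have h8 := hTm.1.card_eq
        omega
      by_cases h4 : 2 ≤ (L.filter (fun t => t ∈ Q)).card ∧ 4 ≤ L.card
      · exfalso
        obtain ⟨S, hS, hSc⟩ := exists_subset_card_eq h4.1
        have hSL : S ⊆ L := hS.trans (filter_subset _ _)
        obtain ⟨S', hS', hS'c⟩ := exists_subset_card_eq (show 2 ≤ (L \ S).card by
          have := card_sdiff_add_card_eq_card hSL
          omega)
        have hS'L : S' ⊆ L := hS'.trans sdiff_subset
        obtain ⟨T, hTm, hTP⟩ := hN (K \ S') sdiff_subset (by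
          have := card_sdiff_add_card_eq_card (hS'L.trans hL)
          omega)
        have h3 : S' ⊆ L \ T := fun t ht => mem_sdiff.2 ⟨hS'L ht, fun h4 =>
          (mem_sdiff.1 (hTP h4)).2 ht⟩
        have h6 := hT T (hTP.trans sdiff_subset) hTm
        have h7 : S' = L \ T := eq_of_subset_of_card_le h3 (by omega)
        have h8 : ∀ t ∈ S, t ∈ T := by
          intro t ht
          by_contra hn
          have h9 : t ∈ L \ T := mem_sdiff.2 ⟨hSL ht, hn⟩
          rw [← h7] at h9
          exact (mem_sdiff.1 (hS' h9)).2 ht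
        obtain ⟨t1, h1, t2, h2, h12⟩ := one_lt_card.1 (show 1 < S.card by omega)
        exact h12 (hgood T (hTP.trans sdiff_subset) hTm t1 (h8 t1 h1) t2 (h8 t2 h2)
          (mem_filter.1 (hS h1)).2 (mem_filter.1 (hS h2)).2)
      · omega

end Pool.Agent.Helper4MT
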